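import Pool.Agent.Lib.MP_55c1e7_ag.RepAb

/-!
# Two-chart systems

`X → Z` a projective morphism; over every open set `J` of a cover of `Z` (closed under
intersection) the preimage of `J` in `X` is covered by two affine charts `s c0 J`, `s c1 J` with
intersection `s c01 J`. All rings are subrings of the function field `K`.
-/

open CategoryTheory CategoryTheory.Limits

namespace BadRed

variable {k K : Type} [Field k] [Field K] [Algebra k K]

/-- `M` if `p` holds, `0` otherwise. -/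
def cut (p : Prop) (M : Submodule k K) : Submodule k K where
  carrier := {f | f ∈ M ∧ (p ∨ f = 0)}
  add_mem' := by
    rintro a b ⟨ha, ha'⟩ ⟨hb, hb'⟩
    refine ⟨M.add_mem ha hb, ?_⟩
    rcases ha' with h | h
    · exact Or.inl h
    · rcases hb' with h' | h'
      · exact Or.inl h'
      · right; rw [h, h', add_zero]
  zero_mem' := ⟨M.zero_mem, Or.inr rfl⟩
  smul_mem' := by
    rintro c a ⟨ha, ha'⟩
    refine ⟨M.smul_mem c ha, ?_⟩
    rcases ha' with h | h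
    · exact Or.inl h
    · right; rw [h, smul_zero]

lemma mem_cut {p : Prop} {M : Submodule k K} {f : K} : f ∈ cut p M ↔ f ∈ M ∧ (p ∨ f = 0) :=
  Iff.rfl

lemma cut_of_true {p : Prop} (h : p) (M : Submodule k K) : cut p M = M := by
  ext f; rw [mem_cut]; exact ⟨fun h' => h'.1, fun h' => ⟨h', Or.inl h⟩⟩

/-- The LocData of a diagram of subrings of `K` on a preorder:
`Hom(a,b) = A b` if `a ≤ b`, and `0` otherwise. -/
def posetData {Ob : Type} [Preorder Ob] (A : Ob → Subalgebra k K) (mono : Monotone A)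
    (hn : ∀ a, IsNoetherianRing (A a)) : LocData k K Ob where
  H a b := cut (a ≤ b) (Subalgebra.toSubmodule (A b))
  R a := A a
  toSubmodule_R a := (cut_of_true (le_refl a) _).symm
  mul_mem := by
    rintro a b c f g ⟨hf, hf'⟩ ⟨hg, hg'⟩
    rcases hg' with h | h
    · refine ⟨(A c).mul_mem (mono h hf) hg, ?_⟩
      rcases hf' with h' | h'
      · exact Or.inl (h'.trans h)
      · right; rw [h', zero_mul]
    · rw [h, mul_zero]; exact Submodule.zero_mem _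
  rel a b := a ≤ b
  rel_one h := ⟨(A _).one_mem, Or.inl h⟩
  R_le h := mono h
  noeth := hn

/-- The three kinds of charts over an open set of `Z`. -/
inductive Ch | c0 | c1 | c01

open Ch

/-- `g^n A` as a subspace of `K`. -/
def pw (A : Subalgebra k K) (g : K) (n : ℤ) : Submodule k K where
  carrier := {f | f * g ^ (-n) ∈ A}
  add_mem' := by
    intro a b ha hb
    change (a + b) * g ^ (-n) ∈ A
    rw [add_mul]; exact A.add_mem ha hb
  zero_mem' := by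
    change (0 : K) * g ^ (-n) ∈ A
    rw [zero_mul]; exact A.zero_mem
  smul_mem' := by
    intro c a ha
    change (c • a) * g ^ (-n) ∈ A
    rw [smul_mul_assoc]; exact A.smul_mem ha c

lemma mem_pw {A : Subalgebra k K} {g : K} {n : ℤ} {f : K} : f ∈ pw A g n ↔ f * g ^ (-n) ∈ A :=
  Iff.rfl

lemma zpow_mem_of {A : Subalgebra k K} {x : K} (h : x ∈ A) (h' : x⁻¹ ∈ A) (n : ℤ) :
    x ^ n ∈ A := by
  obtain ⟨m, rfl | rfl⟩ := n.eq_nat_or_neg
  · rw [zpow_natCast]; exact A.pow_mem h m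
  · rw [zpow_neg, zpow_natCast, ← inv_pow]; exact A.pow_mem h' m

lemma pw_mono {A B : Subalgebra k K} (hAB : A ≤ B) {g g' : K} (hg : g ≠ 0) (_hg' : g' ≠ 0)
    (h1 : g / g' ∈ B) (h2 : g' / g ∈ B) {n : ℤ} {f : K} (hf : f ∈ pw A g n) : f ∈ pw B g' n := by
  rw [mem_pw] at hf ⊢
  have e : f * g' ^ (-n) = (f * g ^ (-n)) * (g' / g) ^ (-n) := by
    rw [mul_assoc, div_zpow, mul_div_cancel₀ _ (zpow_ne_zero _ hg)]
  rw [e]
  refine B.mul_mem (hAB hf) (zpow_mem_of h2 ?_ _)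
  rw [inv_div]; exact h1

lemma pw_mul {A : Subalgebra k K} {g : K} (hg : g ≠ 0) {m n : ℤ} {f f' : K} (hf : f ∈ pw A g m)
    (hf' : f' ∈ pw A g n) : f * f' ∈ pw A g (m + n) := by
  rw [mem_pw] at hf hf' ⊢
  have e : f * f' * g ^ (-(m + n)) = (f * g ^ (-m)) * (f' * g ^ (-n)) := by
    rw [neg_add, zpow_add₀ hg]; ring
  rw [e]; exact A.mul_mem hf hf'

lemma mem_pw_zero {A : Subalgebra k K} {g : K} {f : K} : f ∈ pw A g 0 ↔ f ∈ A := by
  rw [mem_pw, neg_zero, zpow_zero, mul_one]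

/-- Two-chart systems. -/
structure TCSys (k K ObX ObZ I Lam : Type) [Field k] [Field K] [Algebra k K] [Preorder ObX]
    [SemilatticeSup ObZ] where
  /-- rings of the open sets of `X` -/
  A : ObX → Subalgebra k K
  mono : Monotone A
  noeth : ∀ S, IsNoetherianRing (A S)
  denX : ∀ {S T : ObX}, S ≤ T → ∀ f ∈ A T, ∃ h ∈ A S, h ≠ 0 ∧ h⁻¹ ∈ A T ∧ h * f ∈ A S
  /-- the projection to `Z` -/
  pr : ObX → ObZ
  pr_mono : Monotone pr
  /-- the charts over an open set of `Z` -/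
  s : Ch → ObZ → ObX
  s_mono : ∀ e, Monotone (s e)
  le0 : ∀ J, s c0 J ≤ s c01 J
  le1 : ∀ J, s c1 J ≤ s c01 J
  pr_s : ∀ e J, pr (s e J) = J
  s_pr : ∀ S, ∃ e, s e (pr S) = S
  /-- rings of the open sets of `Z` -/
  R : ObZ → Subalgebra k K
  R_eq : ∀ J, R J = A (s c0 J) ⊓ A (s c1 J)
  noethR : ∀ J, IsNoetherianRing (R J)
  /-- local generators of the relatively ample line bundle `L` -/
  gen : ObX → K
  gen_ne : ∀ S, gen S ≠ 0
  cart : ∀ {S T : ObX}, S ≤ T → gen S / gen T ∈ A T ∧ gen T / gen S ∈ A T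
  u_mem : ∀ J, gen (s c1 J) / gen (s c0 J) ∈ A (s c0 J)
  u_inv_mem : ∀ J, gen (s c0 J) / gen (s c1 J) ∈ A (s c1 J)
  adj0 : ∀ J, A (s c0 J) ≤ R J ⊔ Algebra.adjoin k {gen (s c1 J) / gen (s c0 J)}
  adj1 : ∀ J, A (s c1 J) ≤ R J ⊔ Algebra.adjoin k {gen (s c0 J) / gen (s c1 J)}
  loc0 : ∀ J, ∀ f ∈ A (s c01 J), ∃ n : ℕ, (gen (s c1 J) / gen (s c0 J)) ^ n * f ∈ A (s c0 J)
  loc1 : ∀ J, ∀ f ∈ A (s c01 J), ∃ n : ℕ, (gen (s c0 J) / gen (s c1 J)) ^ n * f ∈ A (s c1 J)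
  /-- the open sets of `Z` whose preimage needs two charts -/
  special : ObZ → Prop
  special_mono : ∀ {J J' : ObZ}, J ≤ J' → special J → special J'
  degen : ∀ J, ¬ special J → s c01 J ≤ s c0 J ∧ s c01 J ≤ s c1 J
  denR : ∀ {J J' : ObZ}, J ≤ J' → ∀ f ∈ R J', ∃ h ∈ R J, h ≠ 0 ∧ h⁻¹ ∈ R J' ∧ h * f ∈ R J
  den : ∀ {J J' : ObZ}, J ≤ J' → (special J' → special J) → ∀ e, ∀ f ∈ A (s e J'),
    ∃ h ∈ R J, h ≠ 0 ∧ h⁻¹ ∈ R J' ∧ h * f ∈ A (s e J)
  /-- a special open set inside a non-special one: a partition of unity -/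
  part : ∀ {J J' : ObZ}, J ≤ J' → ¬ special J → special J' → ∃ t0 ∈ R J, ∃ t1 ∈ R J,
    t0 ≠ 0 ∧ t1 ≠ 0 ∧ t0⁻¹ ∈ A (s c0 J') ∧ t1⁻¹ ∈ A (s c1 J') ∧
    (∀ f ∈ A (s c0 J'), ∃ n : ℕ, ∃ h ∈ R J, h ≠ 0 ∧ h⁻¹ ∈ R J' ∧ h * t0 ^ n * f ∈ R J) ∧
    (∀ f ∈ A (s c1 J'), ∃ n : ℕ, ∃ h ∈ R J, h ≠ 0 ∧ h⁻¹ ∈ R J' ∧ h * t1 ^ n * f ∈ R J) ∧
    (∀ f ∈ A (s c01 J'), ∃ n : ℕ, ∃ h ∈ R J, h ≠ 0 ∧ h⁻¹ ∈ R J' ∧ h * (t0 * t1) ^ n * f ∈ R J) ∧
    ∃ a0 ∈ R J', ∃ a1 ∈ R J', a0 * t0 + a1 * t1 = 1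
  /-- the members of the cover of `Z` -/
  pt : I → ObZ
  /-- homogeneous coordinates on `Z`: `sig (pt i)` is the `i`-th coordinate, `sig J` any of the
  coordinates which are nonzero on `J` -/
  sig : ObZ → K
  sig_ne : ∀ J, sig J ≠ 0
  sig_cart : ∀ {J J' : ObZ}, J ≤ J' → sig J / sig J' ∈ R J' ∧ sig J' / sig J ∈ R J'
  cover : ∀ J, ∃ i, pt i ≤ J
  sig_mem : ∀ J i, sig (pt i) / sig J ∈ R J
  sig_loc : ∀ J i, ∀ f ∈ R (J ⊔ pt i), ∃ n : ℕ, (sig (pt i) / sig J) ^ n * f ∈ R J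
  /-- generating global sections of `L ⊗ M^m` on `X` -/
  m : ℕ
  eta : Lam → K
  eta_mem : ∀ l S, eta l / (gen S * sig (pr S) ^ m) ∈ A S
  eta_cov : ∀ S, ∃ l, eta l ≠ 0 ∧ gen S * sig (pr S) ^ m / eta l ∈ A S

namespace TCSys

variable {ObX ObZ I Lam : Type} [Preorder ObX] [SemilatticeSup ObZ]

/-- the category of coherent sheaves on `X` -/
def src (D : TCSys k K ObX ObZ I Lam) : LocData k K ObX := posetData D.A D.mono D.noeth

/-- sections of `L^n` over the preimage of `J` -/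
def HH (D : TCSys k K ObX ObZ I Lam) (n : ℤ) (J : ObZ) : Submodule k K :=
  pw (D.A (D.s c0 J)) (D.gen (D.s c0 J)) n ⊓ pw (D.A (D.s c1 J)) (D.gen (D.s c1 J)) n

/-- The labels of the two objects of the tilting bundle. -/
def lab (b c : Bool) : ℤ := if c = b then -1 else 0

lemma HH_mono (D : TCSys k K ObX ObZ I Lam) (n : ℤ) {J J' : ObZ} (h : J ≤ J') {f : K}
    (hf : f ∈ D.HH n J) : f ∈ D.HH n J' :=
  ⟨pw_mono (D.mono (D.s_mono c0 h)) (D.gen_ne _) (D.gen_ne _) (D.cart (D.s_mono c0 h)).1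
    (D.cart (D.s_mono c0 h)).2 hf.1,
   pw_mono (D.mono (D.s_mono c1 h)) (D.gen_ne _) (D.gen_ne _) (D.cart (D.s_mono c1 h)).1
    (D.cart (D.s_mono c1 h)).2 hf.2⟩

lemma HH_mul (D : TCSys k K ObX ObZ I Lam) {m n : ℤ} {J : ObZ} {f g : K}
    (hf : f ∈ D.HH m J) (hg : g ∈ D.HH n J) : f * g ∈ D.HH (m + n) J :=
  ⟨pw_mul (D.gen_ne _) hf.1 hg.1, pw_mul (D.gen_ne _) hf.2 hg.2⟩

lemma HH_zero (D : TCSys k K ObX ObZ I Lam) (J : ObZ) :
    D.HH 0 J = Subalgebra.toSubmodule (D.R J) := by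
  ext f
  rw [Subalgebra.mem_toSubmodule, D.R_eq, HH, Submodule.mem_inf, mem_pw_zero, mem_pw_zero]
  rfl

/-- The target category: objects `(J, c)`, the sections of `F ⊗ L^(lab c)` over `J`. -/
def targ (D : TCSys k K ObX ObZ I Lam) (b : Bool) : LocData k K (ObZ × Bool) where
  H x y := cut (x.1 ≤ y.1) (D.HH (lab b y.2 - lab b x.2) y.1)
  R x := D.R x.1
  toSubmodule_R x := by
    rw [sub_self, cut_of_true (le_refl x.1), HH_zero]
  mul_mem := by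
    rintro a b c f g ⟨hf, hf'⟩ ⟨hg, hg'⟩
    rcases hg' with h | h
    · rcases hf' with h' | h'
      · refine ⟨?_, Or.inl (h'.trans h)⟩
        have := D.HH_mul (D.HH_mono _ h hf) hg
        rwa [show ∀ x y z : ℤ, y - x + (z - y) = z - x by intros; ring] at this
      · rw [h', zero_mul]; exact Submodule.zero_mem _
    · rw [h, mul_zero]; exact Submodule.zero_mem _
  rel x y := x.1 ≤ y.1 ∧ x.2 = y.2
  rel_one := by
    rintro ⟨J, c⟩ ⟨J', d⟩ ⟨h, h'⟩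
    dsimp at h h'
    subst h'
    refine ⟨?_, Or.inl h⟩
    dsimp only
    rw [sub_self, HH_zero]
    exact (D.R J').one_mem
  R_le {x y} h f hf := by
    have h1 : f ∈ D.HH 0 x.1 := by rw [D.HH_zero]; exact hf
    have h2 := D.HH_mono 0 h.1 h1
    rw [D.HH_zero] at h2
    exact h2
  noeth x := D.noethR x.1

end TCSys

end BadRed
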