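/-
MP_55c1e7_ag, box B3: the action of the rings on a coherent representation of a two-chart system,
and the two-chart datum over every open set of the base.
-/
import Pool.Agent.Lib.MP_55c1e7_ag.Sys
import Pool.Agent.Lib.MP_55c1e7_ag.B.Finite

open CategoryTheory CategoryTheory.Limits MP55c1e7

namespace BadRed

open Ch LocData

variable {k K : Type} [Field k] [Field K] [Algebra k K]
variable {ObX ObZ I Lam : Type} [Preorder ObX] [SemilatticeSup ObZ]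

namespace TCSys

variable (D : TCSys k K ObX ObZ I Lam)

/-- the value of a representation at an open set of `X` -/
abbrev V (F : CohRep D.src) (S : ObX) : Type := F.obj.obj ⟨S⟩

lemma mem_src {S T : ObX} (h : S ≤ T) {f : K} (hf : f ∈ D.A T) : f ∈ D.src.H S T :=
  ⟨hf, Or.inl h⟩

/-- restriction from `S` to `T`, followed by the multiplication by `f ∈ A T` -/
def ac (F : CohRep D.src) {S T : ObX} (h : S ≤ T) (f : K) (hf : f ∈ D.A T) :
    D.V F S →ₗ[k] D.V F T := act F.obj f (D.mem_src h hf)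

variable {D} {F : CohRep D.src}

lemma ac_congr {S T : ObX} (h : S ≤ T) {f g : K} (hf : f ∈ D.A T) (e : f = g) (m : D.V F S) :
    D.ac F h f hf m = D.ac F h g (e ▸ hf) m := by
  subst e; rfl

lemma ac_ac {S T U : ObX} (h : S ≤ T) (h' : T ≤ U) {f g : K} (hf : f ∈ D.A T) (hg : g ∈ D.A U)
    (m : D.V F S) : D.ac F h' g hg (D.ac F h f hf m) =
      D.ac F (h.trans h') (f * g) ((D.A U).mul_mem (D.mono h' hf) hg) m :=
  act_mul F.obj (D.mem_src h hf) (D.mem_src h' hg) m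

lemma ac_one' {S : ObX} (h : S ≤ S) (h1 : (1 : K) ∈ D.A S) (m : D.V F S) :
    D.ac F h 1 h1 m = m :=
  act_one F.obj (D.mem_src h h1) m

lemma ac_add {S T : ObX} (h : S ≤ T) {f g : K} (hf : f ∈ D.A T) (hg : g ∈ D.A T)
    (m : D.V F S) : D.ac F h (f + g) ((D.A T).add_mem hf hg) m =
      D.ac F h f hf m + D.ac F h g hg m := by
  have e := F.property.map_add (homMk f (D.mem_src h hf)) (homMk g (D.mem_src h hg))
  exact congrArg (fun t => t.hom m) e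

lemma ac_smul {S T : ObX} (h : S ≤ T) {f : K} (hf : f ∈ D.A T) (r : k)
    (m : D.V F S) : D.ac F h (r • f) ((D.A T).smul_mem hf r) m = r • D.ac F h f hf m := by
  have e := F.property.map_smul r (homMk f (D.mem_src h hf))
  exact congrArg (fun t => t.hom m) e

lemma ac_zero {S T : ObX} (h : S ≤ T) (h0 : (0 : K) ∈ D.A T) (m : D.V F S) :
    D.ac F h 0 h0 m = 0 := by
  have e := ac_smul (F := F) h h0 0 m
  rw [ac_congr _ _ (zero_smul k (0 : K))] at e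
  rw [e]
  exact zero_smul k (D.ac F h 0 h0 m)

lemma ac_comm {S T U V : ObX} (h : S ≤ T) (h' : T ≤ U) (h2 : S ≤ V) (h2' : V ≤ U) {f g f' g' : K}
    (hf : f ∈ D.A T) (hg : g ∈ D.A U) (hf' : f' ∈ D.A V) (hg' : g' ∈ D.A U)
    (e : f * g = f' * g') (m : D.V F S) :
    D.ac F h' g hg (D.ac F h f hf m) = D.ac F h2' g' hg' (D.ac F h2 f' hf' m) := by
  rw [ac_ac, ac_ac]
  exact ac_congr _ _ e m

variable (D)

lemma R_le (e : Ch) (J : ObZ) : D.R J ≤ D.A (D.s e J) := by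
  rw [D.R_eq]
  cases e with
  | c0 => exact inf_le_left
  | c1 => exact inf_le_right
  | c01 => exact inf_le_left.trans (D.mono (D.le0 J))

lemma R_mono {J J' : ObZ} (h : J ≤ J') : D.R J ≤ D.R J' := by
  rw [D.R_eq, D.R_eq]
  exact inf_le_inf (D.mono (D.s_mono c0 h)) (D.mono (D.s_mono c1 h))

/-- sections over `s e J` are a module over `R J` -/
instance modR (F : CohRep D.src) (e : Ch) (J : ObZ) : Module (D.R J) (D.V F (D.s e J)) where
  smul r m := D.ac F le_rfl r.1 (D.R_le e J r.2) m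
  one_smul m := ac_one' _ _ m
  mul_smul r r' m := by
    change D.ac F le_rfl (r.1 * r'.1) _ m = D.ac F le_rfl r.1 _ (D.ac F le_rfl r'.1 _ m)
    rw [ac_ac]
    exact ac_congr _ _ (mul_comm _ _) m
  smul_zero r := map_zero _
  smul_add r m m' := map_add _ _ _
  add_smul r r' m := ac_add _ _ _ m
  zero_smul m := ac_zero _ _ m

lemma smul_def (F : CohRep D.src) (e : Ch) (J : ObZ) (r : D.R J) (m : D.V F (D.s e J)) :
    r • m = D.ac F le_rfl r.1 (D.R_le e J r.2) m := rfl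

/-- the action maps are `R J`-linear -/
def linR (F : CohRep D.src) {e e' : Ch} {J : ObZ} (h : D.s e J ≤ D.s e' J) (f : K)
    (hf : f ∈ D.A (D.s e' J)) : D.V F (D.s e J) →ₗ[D.R J] D.V F (D.s e' J) where
  toFun := D.ac F h f hf
  map_add' := map_add _
  map_smul' r m := by
    change D.ac F h f hf (D.ac F le_rfl r.1 _ m) = D.ac F le_rfl r.1 _ (D.ac F h f hf m)
    exact ac_comm _ _ _ _ _ _ _ _ (mul_comm _ _) m

@[simp] lemma linR_apply (F : CohRep D.src) {e e' : Ch} {J : ObZ} (h : D.s e J ≤ D.s e' J) (f : K)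
    (hf : f ∈ D.A (D.s e' J)) (m : D.V F (D.s e J)) : D.linR F h f hf m = D.ac F h f hf m := rfl

/-- the coordinate over `J` -/
def u (J : ObZ) : K := D.gen (D.s c1 J) / D.gen (D.s c0 J)

lemma u_ne (J : ObZ) : D.u J ≠ 0 := div_ne_zero (D.gen_ne _) (D.gen_ne _)

lemma u_inv (J : ObZ) : (D.u J)⁻¹ = D.gen (D.s c0 J) / D.gen (D.s c1 J) := inv_div _ _

lemma u_mem0 (J : ObZ) : D.u J ∈ D.A (D.s c0 J) := D.u_mem J

lemma u_inv_mem1 (J : ObZ) : (D.u J)⁻¹ ∈ D.A (D.s c1 J) := by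
  rw [u_inv]; exact D.u_inv_mem J

lemma u_mem01 (J : ObZ) : D.u J ∈ D.A (D.s c01 J) := D.mono (D.le0 J) (D.u_mem0 J)

lemma u_inv_mem01 (J : ObZ) : (D.u J)⁻¹ ∈ D.A (D.s c01 J) := D.mono (D.le1 J) (D.u_inv_mem1 J)

lemma u_zpow_mem (J : ObZ) (n : ℤ) : D.u J ^ n ∈ D.A (D.s c01 J) :=
  zpow_mem_of (D.u_mem01 J) (D.u_inv_mem01 J) n

/-- multiplication by the coordinate on the overlap -/
def Tequiv (F : CohRep D.src) (J : ObZ) : D.V F (D.s c01 J) ≃ₗ[D.R J] D.V F (D.s c01 J) :=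
  { D.linR F le_rfl (D.u J) (D.u_mem01 J) with
    invFun := D.ac F le_rfl (D.u J)⁻¹ (D.u_inv_mem01 J)
    left_inv := fun m => by
      change D.ac F le_rfl (D.u J)⁻¹ _ (D.ac F le_rfl (D.u J) _ m) = m
      rw [ac_ac, ac_congr _ _ (mul_inv_cancel₀ (D.u_ne J)), ac_one']
    right_inv := fun m => by
      change D.ac F le_rfl (D.u J) _ (D.ac F le_rfl (D.u J)⁻¹ _ m) = m
      rw [ac_ac, ac_congr _ _ (inv_mul_cancel₀ (D.u_ne J)), ac_one'] }

lemma Tequiv_apply (F : CohRep D.src) (J : ObZ) (m : D.V F (D.s c01 J)) :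
    D.Tequiv F J m = D.ac F le_rfl (D.u J) (D.u_mem01 J) m := rfl

lemma Tequiv_inv_apply (F : CohRep D.src) (J : ObZ) (m : D.V F (D.s c01 J)) :
    (D.Tequiv F J)⁻¹ m = D.ac F le_rfl (D.u J)⁻¹ (D.u_inv_mem01 J) m := rfl

lemma Tequiv_zpow (F : CohRep D.src) (J : ObZ) (n : ℤ) (m : D.V F (D.s c01 J)) :
    (D.Tequiv F J ^ n) m = D.ac F le_rfl (D.u J ^ n) (D.u_zpow_mem J n) m := by
  induction n generalizing m with
  | zero =>
    rw [ac_congr _ _ (zpow_zero (D.u J)), ac_one']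
    simp
  | succ n ih =>
    rw [TC.zpow_apply_add, zpow_one, ih, Tequiv_apply, ac_ac]
    apply ac_congr
    rw [zpow_add₀ (D.u_ne J), zpow_one, mul_comm]
  | pred n ih =>
    rw [sub_eq_add_neg, TC.zpow_apply_add, zpow_neg_one, ih, Tequiv_inv_apply, ac_ac]
    apply ac_congr
    rw [zpow_add₀ (D.u_ne J), zpow_neg_one, mul_comm]

lemma Tequiv_pow (F : CohRep D.src) (J : ObZ) (n : ℕ) (m : D.V F (D.s c01 J)) :
    (D.Tequiv F J ^ n) m = D.ac F le_rfl (D.u J ^ n)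
      ((D.A _).pow_mem (D.u_mem01 J) n) m := by
  rw [← zpow_natCast, Tequiv_zpow]
  exact ac_congr _ _ (zpow_natCast _ _) m

lemma Tequiv_inv_pow (F : CohRep D.src) (J : ObZ) (n : ℕ) (m : D.V F (D.s c01 J)) :
    (((D.Tequiv F J)⁻¹) ^ n) m = D.ac F le_rfl ((D.u J)⁻¹ ^ n)
      ((D.A _).pow_mem (D.u_inv_mem01 J) n) m := by
  rw [← zpow_natCast, inv_zpow', Tequiv_zpow]
  exact ac_congr _ _ (by rw [zpow_neg, zpow_natCast, inv_pow]) m

lemma linR_pow (F : CohRep D.src) {e : Ch} {J : ObZ} (f : K)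
    (hf : f ∈ D.A (D.s e J)) (n : ℕ) (m : D.V F (D.s e J)) :
    ((D.linR F le_rfl f hf) ^ n : Module.End (D.R J) (D.V F (D.s e J))) m =
      D.ac F le_rfl (f ^ n) ((D.A _).pow_mem hf n) m := by
  induction n generalizing m with
  | zero =>
    rw [ac_congr _ _ (pow_zero f), ac_one']
    simp
  | succ n ih =>
    rw [pow_succ, Module.End.mul_apply, ih, linR_apply, ac_ac]
    apply ac_congr
    rw [pow_succ, mul_comm]

/-- localization, surjectivity: with `ac` -/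
lemma ex_surj (F : CohRep D.src) {S T : ObX} (h : S ≤ T) (m : D.V F T) :
    ∃ (f : K) (hf : f ∈ D.A S) (n : D.V F S), f ≠ 0 ∧ f⁻¹ ∈ D.A T ∧
      D.ac F le_rfl f (D.mono h hf) m = D.ac F h 1 (D.A T).one_mem n := by
  obtain ⟨f, hb, n, ha, h0, hi, e⟩ := F.property.loc_surj (a := S) (b := T) h m
  exact ⟨f, ha, n, h0, hi, e⟩

lemma ex_inj (F : CohRep D.src) {S T : ObX} (h : S ≤ T) (m : D.V F S)
    (hm : D.ac F h 1 (D.A T).one_mem m = 0) :
    ∃ (f : K) (hf : f ∈ D.A S), f ≠ 0 ∧ f⁻¹ ∈ D.A T ∧ D.ac F le_rfl f hf m = 0 := by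
  obtain ⟨f, ha, h0, hi, e⟩ := F.property.loc_inj (a := S) (b := T) h m hm
  exact ⟨f, ha, h0, hi, e⟩

/-- the two-chart datum over `J` -/
def tc (F : CohRep D.src) (J : ObZ) :
    TC (D.R J) (D.V F (D.s c0 J)) (D.V F (D.s c1 J)) (D.V F (D.s c01 J)) where
  t1 := D.linR F le_rfl (D.u J) (D.u_mem0 J)
  t2 := D.linR F le_rfl (D.u J)⁻¹ (D.u_inv_mem1 J)
  T := D.Tequiv F J
  r1 := D.linR F (D.le0 J) 1 (D.A _).one_mem
  r2 := D.linR F (D.le1 J) 1 (D.A _).one_mem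
  h1 a := ac_comm _ _ _ _ _ _ _ _ (by rw [mul_comm]) a
  h2 b := by
    rw [Tequiv_inv_apply]
    exact ac_comm _ _ _ _ _ _ _ _ (by rw [mul_comm]) b
  loc1 z := by
    obtain ⟨f, hf, y, hf0, hfi, e⟩ := D.ex_surj F (D.le0 J) z
    obtain ⟨n, hn⟩ := D.loc0 J _ hfi
    refine ⟨n, D.ac F le_rfl _ hn y, ?_⟩
    rw [Tequiv_pow, linR_apply]
    have e2 := congrArg (D.ac F le_rfl _ (D.mono (D.le0 J) hn)) e
    rw [ac_ac, ac_ac] at e2
    rw [ac_ac]
    rw [ac_congr _ _ (show f * ((D.gen (D.s c1 J) / D.gen (D.s c0 J)) ^ n * f⁻¹) = D.u J ^ n by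
      unfold u; field_simp)] at e2
    rw [e2]
    exact ac_congr _ _ (by rw [mul_comm]) y
  loc2 z := by
    obtain ⟨f, hf, y, hf0, hfi, e⟩ := D.ex_surj F (D.le1 J) z
    obtain ⟨n, hn⟩ := D.loc1 J _ hfi
    refine ⟨n, D.ac F le_rfl _ hn y, ?_⟩
    rw [Tequiv_inv_pow, linR_apply]
    have e2 := congrArg (D.ac F le_rfl _ (D.mono (D.le1 J) hn)) e
    rw [ac_ac, ac_ac] at e2
    rw [ac_ac]
    rw [ac_congr _ _ (show f * ((D.gen (D.s c0 J) / D.gen (D.s c1 J)) ^ n * f⁻¹) =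
      (D.u J)⁻¹ ^ n by rw [u_inv]; field_simp)] at e2
    rw [e2]
    exact ac_congr _ _ (by rw [mul_comm]) y
  ker1 a ha := by
    obtain ⟨f, hf, hf0, hfi, e⟩ := D.ex_inj F (D.le0 J) a ha
    obtain ⟨n, hn⟩ := D.loc0 J _ hfi
    refine ⟨n, ?_⟩
    have e2 := congrArg (D.ac F le_rfl _ hn) e
    rw [ac_ac, map_zero] at e2
    rw [linR_pow, ← e2]
    exact ac_congr _ _ (by unfold u; field_simp) a
  ker2 a ha := by
    obtain ⟨f, hf, hf0, hfi, e⟩ := D.ex_inj F (D.le1 J) a ha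
    obtain ⟨n, hn⟩ := D.loc1 J _ hfi
    refine ⟨n, ?_⟩
    have e2 := congrArg (D.ac F le_rfl _ hn) e
    rw [ac_ac, map_zero] at e2
    rw [linR_pow, ← e2]
    exact ac_congr _ _ (by rw [u_inv]; field_simp) a

lemma tc_r1 (F : CohRep D.src) (J : ObZ) (a : D.V F (D.s c0 J)) :
    (D.tc F J).r1 a = D.ac F (D.le0 J) 1 (D.A _).one_mem a := rfl

lemma tc_r2 (F : CohRep D.src) (J : ObZ) (a : D.V F (D.s c1 J)) :
    (D.tc F J).r2 a = D.ac F (D.le1 J) 1 (D.A _).one_mem a := rfl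

lemma tc_t1 (F : CohRep D.src) (J : ObZ) (a : D.V F (D.s c0 J)) :
    (D.tc F J).t1 a = D.ac F le_rfl (D.u J) (D.u_mem0 J) a := rfl

lemma tc_t2 (F : CohRep D.src) (J : ObZ) (a : D.V F (D.s c1 J)) :
    (D.tc F J).t2 a = D.ac F le_rfl (D.u J)⁻¹ (D.u_inv_mem1 J) a := rfl

lemma tc_T (F : CohRep D.src) (J : ObZ) : (D.tc F J).T = D.Tequiv F J := rfl

/-- membership in `H⁰` of the twist by `n`: `m₀ = u ^ n m₁` on the overlap -/
lemma mem_tc_H0 (F : CohRep D.src) (J : ObZ) (n : ℤ)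
    (m : D.V F (D.s c0 J) × D.V F (D.s c1 J)) :
    m ∈ (D.tc F J).H0 n ↔ D.ac F (D.le0 J) 1 (D.A _).one_mem m.1 =
      D.ac F (D.le1 J) (D.u J ^ n) (D.u_zpow_mem J n) m.2 := by
  rw [TC.mem_H0, tc_T, Tequiv_zpow, tc_r1, tc_r2, ac_ac,
    ac_congr _ _ (one_mul (D.u J ^ n))]

lemma fin_gen (F : CohRep D.src) (S : ObX) : ∃ s : Set (D.V F S), s.Finite ∧
    ∀ N : AddSubgroup (D.V F S), s ⊆ N → (∀ m ∈ N, ∀ f (hf : f ∈ D.A S),
      D.ac F le_rfl f hf m ∈ N) → N = ⊤ := by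
  obtain ⟨n, e, he⟩ := F.property.fin S
  refine ⟨Set.range e, Set.finite_range e, fun N hs hN => ?_⟩
  rw [eq_top_iff]
  intro m _
  obtain ⟨c, rfl⟩ := he m
  apply AddSubgroup.sum_mem
  intro i _
  exact hN _ (hs ⟨i, rfl⟩) _ (c i).2

lemma exists_gen1 (F : CohRep D.src) (J : ObZ) :
    ∃ s : Set (D.V F (D.s c0 J)), s.Finite ∧ (D.tc F J).Gen1 s := by
  obtain ⟨s, hs, h⟩ := D.fin_gen F (D.s c0 J)
  refine ⟨s, hs, fun N hN hsN => ?_⟩
  let B : Subalgebra k K :=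
    { carrier := {f | ∃ hf : f ∈ D.A (D.s c0 J), ∀ m ∈ N, D.ac F le_rfl f hf m ∈ N}
      mul_mem' := by
        rintro a b ⟨ha, ha'⟩ ⟨hb, hb'⟩
        refine ⟨(D.A _).mul_mem ha hb, fun m hm => ?_⟩
        have := hb' _ (ha' m hm)
        rwa [ac_ac] at this
      add_mem' := by
        rintro a b ⟨ha, ha'⟩ ⟨hb, hb'⟩
        refine ⟨(D.A _).add_mem ha hb, fun m hm => ?_⟩
        rw [ac_add _ ha hb]
        exact N.add_mem (ha' m hm) (hb' m hm)
      algebraMap_mem' := by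
        intro r
        have h1 : algebraMap k K r ∈ D.R J := (D.R J).algebraMap_mem r
        exact ⟨(D.A _).algebraMap_mem r, fun m hm => N.smul_mem ⟨_, h1⟩ hm⟩ }
  have hR : D.R J ≤ B := fun r hr => ⟨D.R_le c0 J hr, fun m hm => N.smul_mem ⟨r, hr⟩ hm⟩
  have hu : D.u J ∈ B := ⟨D.u_mem0 J, fun m hm => hN m hm⟩
  have hB : D.A (D.s c0 J) ≤ B := by
    refine (D.adj0 J).trans (sup_le hR ?_)
    rw [Algebra.adjoin_le_iff]
    rintro _ rfl
    exact hu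
  have := h N.toAddSubgroup hsN (fun m hm f hf => (hB hf).2 m hm)
  rw [eq_top_iff]
  intro m _
  have hm : m ∈ N.toAddSubgroup := by rw [this]; trivial
  exact hm

lemma exists_gen2 (F : CohRep D.src) (J : ObZ) :
    ∃ s : Set (D.V F (D.s c1 J)), s.Finite ∧ (D.tc F J).swap.Gen1 s := by
  obtain ⟨s, hs, h⟩ := D.fin_gen F (D.s c1 J)
  refine ⟨s, hs, fun N hN hsN => ?_⟩
  let B : Subalgebra k K :=
    { carrier := {f | ∃ hf : f ∈ D.A (D.s c1 J), ∀ m ∈ N, D.ac F le_rfl f hf m ∈ N}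
      mul_mem' := by
        rintro a b ⟨ha, ha'⟩ ⟨hb, hb'⟩
        refine ⟨(D.A _).mul_mem ha hb, fun m hm => ?_⟩
        have := hb' _ (ha' m hm)
        rwa [ac_ac] at this
      add_mem' := by
        rintro a b ⟨ha, ha'⟩ ⟨hb, hb'⟩
        refine ⟨(D.A _).add_mem ha hb, fun m hm => ?_⟩
        rw [ac_add _ ha hb]
        exact N.add_mem (ha' m hm) (hb' m hm)
      algebraMap_mem' := by
        intro r
        have h1 : algebraMap k K r ∈ D.R J := (D.R J).algebraMap_mem r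
        exact ⟨(D.A _).algebraMap_mem r, fun m hm => N.smul_mem ⟨_, h1⟩ hm⟩ }
  have hR : D.R J ≤ B := fun r hr => ⟨D.R_le c1 J hr, fun m hm => N.smul_mem ⟨r, hr⟩ hm⟩
  have hu : (D.u J)⁻¹ ∈ B := ⟨D.u_inv_mem1 J, fun m hm => hN m hm⟩
  have hB : D.A (D.s c1 J) ≤ B := by
    refine (D.adj1 J).trans (sup_le hR ?_)
    rw [Algebra.adjoin_le_iff]
    rintro _ rfl
    rw [← u_inv]
    exact hu
  have := h N.toAddSubgroup hsN (fun m hm f hf => (hB hf).2 m hm)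
  rw [eq_top_iff]
  intro m _
  have hm : m ∈ N.toAddSubgroup := by rw [this]; trivial
  exact hm

instance (J : ObZ) : IsNoetherianRing (D.R J) := D.noethR J

/-- sections of the twists over `J` are finitely generated over `R J` -/
theorem tc_H0_fg (F : CohRep D.src) (J : ObZ) (n : ℤ) : ((D.tc F J).H0 n).FG := by
  obtain ⟨s, hs, h⟩ := D.exists_gen1 F J
  obtain ⟨s', hs', h'⟩ := D.exists_gen2 F J
  exact TC.H0_fg _ hs h hs' h' n

end TCSys

end BadRed
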