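import Mathlib

/-!
# Places of bad reduction are not a derived invariant: definitions of the statement
-/

open CategoryTheory CategoryTheory.Limits AlgebraicGeometry

namespace BadRed

/-! ## Projective space and projective schemes -/

section Projective

attribute [local instance] MvPolynomial.gradedAlgebra

/-- Projective space `P^n` over a commutative ring `R`, as `Proj R[x_0, ..., x_n]`. -/
noncomputable def PSpace (n : ℕ) (R : Type) [CommRing R] : Scheme.{0} :=
  Proj (MvPolynomial.homogeneousSubmodule (Fin (n + 1)) R)

/-- The structure morphism of projective space. -/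
noncomputable def PSpace.toSpec (n : ℕ) (R : Type) [CommRing R] :
    PSpace n R ⟶ Spec (CommRingCat.of R) :=
  Proj.toSpecZero (MvPolynomial.homogeneousSubmodule (Fin (n + 1)) R) ≫
    Spec.map (CommRingCat.ofHom
      (algebraMap R (MvPolynomial.homogeneousSubmodule (Fin (n + 1)) R 0)))

end Projective

/-- A scheme over `Spec R` is projective if it is a closed subscheme of some `P^n_R`. -/
def IsProjective {R : Type} [CommRing R] {X : Scheme.{0}} (f : X ⟶ Spec (CommRingCat.of R)) :
    Prop :=
  ∃ (n : ℕ) (i : X ⟶ PSpace n R), IsClosedImmersion i ∧ i ≫ PSpace.toSpec n R = f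

/-- Smooth projective (geometrically integral) varieties over a field. -/
structure IsSmoothProjectiveVariety {k : Type} [Field k] {X : Scheme.{0}}
    (f : X ⟶ Spec (CommRingCat.of k)) : Prop where
  smooth : Smooth f
  projective : IsProjective f
  geometricallyIntegral : GeometricallyIntegral f

/-! ## Good reduction -/

/-- `f : X ⟶ Spec k` has a smooth projective model over `O` (a ring with a map to `k`). -/
def HasGoodModel (O k : Type) [CommRing O] [Field k] [Algebra O k] {X : Scheme.{0}}
    (f : X ⟶ Spec (CommRingCat.of k)) : Prop :=
  ∃ (Y : Scheme.{0}) (g : Y ⟶ Spec (CommRingCat.of O)), Smooth g ∧ IsProjective g ∧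
    ∃ e : pullback g (Spec.map (CommRingCat.ofHom (algebraMap O k))) ≅ X,
      e.hom ≫ f = pullback.snd g (Spec.map (CommRingCat.ofHom (algebraMap O k)))

/-- Good reduction at the finite place `v` of the number field `k`: there is a smooth projective
scheme over the valuation ring of `v` in `k` with generic fibre isomorphic to `X` over `k`. -/
def HasGoodReduction {k : Type} [Field k] [NumberField k]
    (v : IsDedekindDomain.HeightOneSpectrum (NumberField.RingOfIntegers k)) {X : Scheme.{0}}
    (f : X ⟶ Spec (CommRingCat.of k)) : Prop :=
  HasGoodModel (v.valuation k).integer k f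

/-! ## Coherent sheaves -/

/-- Coherent sheaves on a (locally noetherian) scheme: quasi-coherent sheaves of modules whose
sections over every affine open form a finitely generated module. -/
def isCoh (X : Scheme.{0}) : ObjectProperty X.Modules := fun M =>
  SheafOfModules.IsQuasicoherent.{0} M ∧
    ∀ U : X.Opens, IsAffineOpen U → Module.Finite Γ(X, U) Γ(M, U)

/-- Restriction of a global function to an open set. -/
noncomputable def resTop {X : Scheme.{0}} (r : Γ(X, ⊤)) (U : X.Opens) : Γ(X, U) :=
  X.presheaf.map (homOfLE (le_top : U ≤ ⊤)).op r

lemma resTop_res {X : Scheme.{0}} (r : Γ(X, ⊤)) {U V : X.Opens} (i : V ⟶ U) :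
    X.presheaf.map i.op (resTop r U) = resTop r V := by
  unfold resTop
  rw [← CommRingCat.comp_apply, ← Functor.map_comp]
  rfl

/-- Multiplication by a global function, as an endomorphism of a sheaf of modules. -/
noncomputable def smulHom {X : Scheme.{0}} (r : Γ(X, ⊤)) (M : X.Modules) : M ⟶ M :=
  (⟨PresheafOfModules.homMk
    { app := fun U => AddCommGrpCat.ofHom
        (DistribSMul.toAddMonoidHom Γ(M, U.unop) (resTop r U.unop))
      naturality := by
        intro U V i
        ext (m : Γ(M, U.unop))
        have h := Scheme.Modules.map_smul M i.unop (resTop r U.unop) m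
        rw [resTop_res] at h
        exact h.symm }
    (by
      intro U s m
      exact smul_comm (resTop r U.unop : Γ(X, U.unop))
        (show Γ(X, U.unop) from s) (show Γ(M, U.unop) from m))⟩ : SheafOfModules.Hom M M)

lemma smulHom_app {X : Scheme.{0}} (r : Γ(X, ⊤)) (M : X.Modules) (U : X.Opens) (m : Γ(M, U)) :
    (smulHom r M).app U m = resTop r U • m := rfl

/-- Global functions act on the category of sheaves of modules. -/
noncomputable def toCenter (X : Scheme.{0}) : Γ(X, ⊤) →+* CatCenter X.Modules where
  toFun r :=
    { app := fun M => smulHom r M
      naturality := by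
        intro M N φ
        ext U m
        change (smulHom r N).app U (φ.app U m) = φ.app U ((smulHom r M).app U m)
        rw [smulHom_app, smulHom_app, Scheme.Modules.Hom.app_smul] }
  map_one' := by
    ext M U m
    change (smulHom 1 M).app U m = m
    rw [smulHom_app, resTop, map_one, one_smul]
  map_mul' := by
    intro r s
    ext M U m
    rw [CatCenter.mul_app']
    change (smulHom (r * s) M).app U m = (smulHom r M).app U ((smulHom s M).app U m)
    rw [smulHom_app, smulHom_app, smulHom_app]
    unfold resTop
    rw [map_mul, mul_smul]
  map_zero' := by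
    ext M U m
    change (smulHom 0 M).app U m = 0
    rw [smulHom_app, resTop, map_zero, zero_smul]
  map_add' := by
    intro r s
    ext M U m
    change (smulHom (r + s) M).app U m = (smulHom r M).app U m + (smulHom s M).app U m
    rw [smulHom_app, smulHom_app, smulHom_app]
    unfold resTop
    rw [map_add, add_smul]

/-- The scalars of `Spec k` as global functions of a scheme over `Spec k`. -/
noncomputable def scalars {k : Type} [CommRing k] {X : Scheme.{0}}
    (f : X ⟶ Spec (CommRingCat.of k)) : k →+* Γ(X, ⊤) :=
  ((Scheme.ΓSpecIso (CommRingCat.of k)).inv ≫ f.appTop).hom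

/-- The `k`-linear structure of the category of sheaves of modules of a scheme over `Spec k`. -/
@[instance_reducible]
noncomputable def linearModules {k : Type} [CommRing k] {X : Scheme.{0}}
    (f : X ⟶ Spec (CommRingCat.of k)) : Linear k X.Modules :=
  Linear.ofRingMorphism ((toCenter X).comp (scalars f))

/-- The category of coherent sheaves of a scheme over `Spec k`. -/
def Coh {k : Type} [CommRing k] {X : Scheme.{0}} (_f : X ⟶ Spec (CommRingCat.of k)) : Type 1 :=
  (isCoh X).FullSubcategory

noncomputable instance {k : Type} [CommRing k] {X : Scheme.{0}}
    (f : X ⟶ Spec (CommRingCat.of k)) : Category (Coh f) :=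
  inferInstanceAs (Category (isCoh X).FullSubcategory)

noncomputable instance {k : Type} [CommRing k] {X : Scheme.{0}}
    (f : X ⟶ Spec (CommRingCat.of k)) : Preadditive (Coh f) :=
  inferInstanceAs (Preadditive (isCoh X).FullSubcategory)

noncomputable instance {k : Type} [CommRing k] {X : Scheme.{0}}
    (f : X ⟶ Spec (CommRingCat.of k)) : Linear k (Coh f) :=
  letI := linearModules f
  inferInstanceAs (Linear k (isCoh X).FullSubcategory)

/-! ## Bounded derived categories -/

/-- The bounded derived category of an abelian category: the objects of the derived category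
which are bounded for the canonical t-structure. -/
noncomputable abbrev Db (C : Type 1) [Category.{0} C] [Abelian C] : Type 1 :=
  letI := HasDerivedCategory.standard C
  (DerivedCategory.TStructure.t (C := C)).bounded.FullSubcategory

/-- Equivalence of bounded derived categories by a `k`-linear exact functor. -/
def DbEquivalent (k : Type) [CommRing k] (C D : Type 1) [Category.{0} C] [Abelian C] [Linear k C]
    [Category.{0} D] [Abelian D] [Linear k D] : Prop :=
  letI := HasDerivedCategory.standard C
  letI := HasDerivedCategory.standard D
  ∃ (F : Db C ⥤ Db D) (_ : F.CommShift ℤ), F.IsEquivalence ∧ F.IsTriangulated ∧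
    ∃ (_ : F.Additive), F.Linear k

end BadRed
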