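/-
MP_55c1e7_ag, box B, LEMMA T.  Two abelian categories, a left exact functor `Psi` and a class `E`
of objects (those with `R^1 = 0`), test objects `P`.  The formal part of a relative tilting
equivalence: `Psi` is fully faithful on `E`, the image of `E` is closed under subobjects, and
`Psi` reflects and preserves short exact sequences in `E`.
-/
import Mathlib

open CategoryTheory CategoryTheory.Limits

namespace MP55c1e7

universe v v' u u'

variable {C : Type u} [Category.{v} C] [Abelian C]
variable {D : Type u'} [Category.{v'} D] [Abelian D]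

/-- Input data for the tilting lemma. `E` is the class of objects with vanishing `R^1`. -/
structure TiltData (Psi : C ⥤ D) [Psi.Additive] (E : ObjectProperty C) (P : ObjectProperty C) :
    Prop where
  /-- `E` is closed under quotients -/
  quot : ∀ {X Y : C} (f : X ⟶ Y), Epi f → E X → E Y
  /-- right exactness if the first term is in `E` -/
  right_epi : ∀ (S : ShortComplex C), S.ShortExact → E S.X₁ → Epi (Psi.map S.g)
  /-- converse -/
  ker_mem : ∀ (S : ShortComplex C), S.ShortExact → E S.X₂ → Epi (Psi.map S.g) → E S.X₁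
  /-- conservativity -/
  cons : ∀ (X : C), E X → IsZero (Psi.obj X) → IsZero X
  /-- test objects -/
  test_mem : ∀ (X : C), P X → E X
  test_inj : ∀ (X Y : C), P X → ∀ (f : X ⟶ Y), Psi.map f = 0 → f = 0
  test_surj : ∀ (X Y : C), P X → ∀ (g : Psi.obj X ⟶ Psi.obj Y), ∃ f : X ⟶ Y, Psi.map f = g
  /-- the images of the test objects generate -/
  gen : ∀ (M : D), ∃ (X : C) (_ : P X) (p : Psi.obj X ⟶ M), Epi p

/-- exactness up to refinements, unbundled -/
theorem refine_map_kernel (Psi : C ⥤ D) [Psi.Additive] [PreservesFiniteLimits Psi]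
    {K X Y : C} (i : K ⟶ X) (f : X ⟶ Y) (w : i ≫ f = 0) (hi : Mono i)
    (hex : (ShortComplex.mk i f w).Exact) {A : D} (x : A ⟶ Psi.obj X)
    (hx : x ≫ Psi.map f = 0) :
    ∃ (A' : D) (π : A' ⟶ A) (_ : Epi π) (y : A' ⟶ Psi.obj K), π ≫ x = y ≫ Psi.map i := by
  have hk := hex.map_of_mono_of_preservesKernel Psi hi inferInstance
  exact hk.exact_up_to_refinements x hx

theorem exact_of_refine {X Y Z : D} (f : X ⟶ Y) (g : Y ⟶ Z) (w : f ≫ g = 0)
    (h : ∀ {A : D} (x : A ⟶ Y), x ≫ g = 0 →
      ∃ (A' : D) (π : A' ⟶ A) (_ : Epi π) (y : A' ⟶ X), π ≫ x = y ≫ f) :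
    (ShortComplex.mk f g w).Exact := by
  rw [ShortComplex.exact_iff_exact_up_to_refinements]
  intro A x hx
  exact h x hx

namespace TiltData

variable {Psi : C ⥤ D} [Psi.Additive] [PreservesFiniteLimits Psi] {E P : ObjectProperty C}

omit [PreservesFiniteLimits Psi] in
/-- If `g` has its image under `Psi` epi, target in `E` and source in `E`, then `g` is epi. -/
theorem epi_of_epi (h : TiltData Psi E P) [PreservesFiniteLimits Psi]
    {X Y : C} (g : X ⟶ Y) (hX : E X) (hY : E Y)
    (hg : Epi (Psi.map g)) : Epi g := by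
  let S : ShortComplex C := ShortComplex.mk (Abelian.image.ι g) (cokernel.π g) (by
    rw [← cancel_epi (Abelian.factorThruImage g)]
    simp)
  have hS : S.ShortExact := by
    refine { exact := ?_, mono_f := ?_, epi_g := ?_ }
    · apply ShortComplex.exact_of_f_is_kernel
      exact kernelIsKernel _
    · dsimp [S]; infer_instance
    · dsimp [S]; infer_instance
  have hI : E S.X₁ := h.quot (Abelian.factorThruImage g) inferInstance hX
  have h1 : Epi (Psi.map S.g) := h.right_epi S hS hI
  have h0 : Psi.map g ≫ Psi.map S.g = 0 := by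
    rw [← Psi.map_comp]
    simp [S]
  have h2 : Psi.map S.g = 0 := by
    rw [← cancel_epi (Psi.map g), h0, comp_zero]
  have h3 : IsZero (Psi.obj S.X₃) := by
    rw [IsZero.iff_id_eq_zero, ← cancel_epi (Psi.map S.g), h2, zero_comp, zero_comp]
  have h4 : IsZero S.X₃ := h.cons _ (h.quot S.g hS.epi_g hY) h3
  have : cokernel.π g = 0 := h4.eq_of_tgt _ _
  exact Preadditive.epi_of_cokernel_zero this

/-- A morphism between objects of `E` whose image under `Psi` is an isomorphism
is an isomorphism. -/
theorem isIso_of_isIso (h : TiltData Psi E P) {G F : C} (f : G ⟶ F) (hG : E G) (hF : E F)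
    (hf : IsIso (Psi.map f)) : IsIso f := by
  have hepi : Epi f := h.epi_of_epi f hG hF inferInstance
  let S : ShortComplex C := ShortComplex.mk (kernel.ι f) f (by simp)
  have hS : S.ShortExact := by
    refine { exact := ?_, mono_f := ?_, epi_g := ?_ }
    · apply ShortComplex.exact_of_f_is_kernel
      exact kernelIsKernel _
    · dsimp [S]; infer_instance
    · dsimp [S]; infer_instance
  have hK : E S.X₁ := h.ker_mem S hS hG (by dsimp [S]; infer_instance)
  have h0 : Psi.map (kernel.ι f) = 0 := by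
    rw [← cancel_mono (Psi.map f), ← Psi.map_comp]
    simp
  have hm : Mono (Psi.map (kernel.ι f)) := inferInstance
  have h3 : IsZero (Psi.obj S.X₁) := by
    rw [IsZero.iff_id_eq_zero, ← cancel_mono (Psi.map (kernel.ι f)), h0, comp_zero, comp_zero]
  have h4 : IsZero S.X₁ := h.cons _ hK h3
  have : kernel.ι f = 0 := h4.eq_of_src _ _
  have hmono : Mono f := Preadditive.mono_of_kernel_zero this
  exact isIso_of_mono_of_epi f

/-- Presentations: every subobject of `Psi F` comes from an object of `E`
mapping to `F`. -/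
theorem exists_of_mono (h : TiltData Psi E P) {F : C} {M : D} (i : M ⟶ Psi.obj F) (hi : Mono i) :
    ∃ (G : C) (_ : E G) (f : G ⟶ F) (e : Psi.obj G ≅ M) (X : C) (_ : P X) (q : X ⟶ G),
      Psi.map f = e.hom ≫ i ∧ Epi q ∧ Epi (Psi.map q) := by
  obtain ⟨X, hX, p, hp⟩ := h.gen M
  obtain ⟨φ, hφ⟩ := h.test_surj X F hX (p ≫ i)
  obtain ⟨X', hX', p', hp'⟩ := h.gen (Psi.obj (kernel φ))
  obtain ⟨φ', hφ'⟩ := h.test_surj X' X hX' (p' ≫ Psi.map (kernel.ι φ))
  have hz : φ' ≫ φ = 0 := by
    apply h.test_inj X' F hX'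
    rw [Psi.map_comp, hφ', Category.assoc, ← Psi.map_comp, kernel.condition, Psi.map_zero, comp_zero]
  let S : ShortComplex C := ShortComplex.mk (Abelian.image.ι φ') (cokernel.π φ') (by
    rw [← cancel_epi (Abelian.factorThruImage φ')]
    simp)
  have hS : S.ShortExact := by
    refine { exact := ?_, mono_f := ?_, epi_g := ?_ }
    · apply ShortComplex.exact_of_f_is_kernel
      exact kernelIsKernel _
    · dsimp [S]; infer_instance
    · dsimp [S]; infer_instance
  have hI : E S.X₁ := h.quot (Abelian.factorThruImage φ') inferInstance (h.test_mem _ hX')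
  have hq : Epi (Psi.map (cokernel.π φ')) := h.right_epi S hS hI
  have hG : E (cokernel φ') := h.quot (cokernel.π φ') inferInstance (h.test_mem _ hX)
  let f : cokernel φ' ⟶ F := cokernel.desc φ' φ hz
  -- the two cokernel descriptions
  have hz1 : Psi.map φ' ≫ Psi.map (cokernel.π φ') = 0 := by
    rw [← Psi.map_comp, cokernel.condition, Psi.map_zero]
  have hz2 : Psi.map φ' ≫ p = 0 := by
    rw [← cancel_mono i, Category.assoc, ← hφ, ← Psi.map_comp, hz, Psi.map_zero, zero_comp]
  have ex2 : (ShortComplex.mk (Psi.map φ') p hz2).Exact := by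
    apply exact_of_refine
    intro A x hx
    obtain ⟨A1, π1, hπ1, x1, h1⟩ := refine_map_kernel Psi (kernel.ι φ) φ (kernel.condition φ)
      inferInstance (by
        apply ShortComplex.exact_of_f_is_kernel
        exact kernelIsKernel _) x (by rw [hφ, reassoc_of% hx, zero_comp])
    obtain ⟨A2, π2, hπ2, x2, h2⟩ := surjective_up_to_refinements_of_epi p' x1
    refine ⟨A2, π2 ≫ π1, epi_comp _ _, x2, ?_⟩
    rw [Category.assoc, h1, reassoc_of% h2, hφ']
  have ex1 : (ShortComplex.mk (Psi.map φ') (Psi.map (cokernel.π φ')) hz1).Exact := by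
    apply exact_of_refine
    intro A x hx
    obtain ⟨A1, π1, hπ1, x1, h1⟩ := refine_map_kernel Psi S.f S.g S.zero hS.mono_f hS.exact x hx
    -- `x1 : A1 ⟶ Psi image`; compose into `Psi kernel`
    let j : Abelian.image φ' ⟶ kernel φ := kernel.lift φ (Abelian.image.ι φ') (by
      rw [← cancel_epi (Abelian.factorThruImage φ')]
      simp [hz])
    have hj : j ≫ kernel.ι φ = Abelian.image.ι φ' := by simp [j]
    obtain ⟨A2, π2, hπ2, x2, h2⟩ := surjective_up_to_refinements_of_epi p' (x1 ≫ Psi.map j)
    refine ⟨A2, π2 ≫ π1, epi_comp _ _, x2, ?_⟩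
    have h1' : π1 ≫ x = x1 ≫ Psi.map j ≫ Psi.map (kernel.ι φ) := by
      rw [h1, ← Psi.map_comp, hj]
    rw [Category.assoc, h1', hφ', ← Category.assoc x2 p', ← h2]
    simp only [Category.assoc]
  -- build the isomorphism
  let c1 : IsColimit (CokernelCofork.ofπ (Psi.map (cokernel.π φ')) hz1) := ex1.gIsCokernel
  let c2 : IsColimit (CokernelCofork.ofπ p hz2) := ex2.gIsCokernel
  let e : Psi.obj (cokernel φ') ≅ M := c1.coconePointUniqueUpToIso c2
  have he : Psi.map (cokernel.π φ') ≫ e.hom = p :=
    c1.comp_coconePointUniqueUpToIso_hom c2 WalkingParallelPair.one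
  refine ⟨cokernel φ', hG, f, e, X, hX, cokernel.π φ', ?_, inferInstance, hq⟩
  rw [← cancel_epi (Psi.map (cokernel.π φ')), ← Psi.map_comp, reassoc_of% he, ← hφ]
  congr 1
  simp [f]

/-- Every object of `E` is covered by a test object, also after applying `Psi`. -/
theorem exists_cover (h : TiltData Psi E P) {F : C} (hF : E F) :
    ∃ (X : C) (_ : P X) (r : X ⟶ F), Epi r ∧ Epi (Psi.map r) := by
  obtain ⟨G, hG, f, e, X, hX, q, h1, h2, h3⟩ := h.exists_of_mono (𝟙 (Psi.obj F)) inferInstance
  have hf : IsIso (Psi.map f) := by rw [h1, Category.comp_id]; infer_instance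
  have : IsIso f := h.isIso_of_isIso f hG hF hf
  refine ⟨X, hX, q ≫ f, epi_comp _ _, ?_⟩
  rw [Psi.map_comp]
  exact epi_comp _ _

theorem faithful (h : TiltData Psi E P) {F G : C} (hF : E F) (f : F ⟶ G)
    (hf : Psi.map f = 0) : f = 0 := by
  obtain ⟨X, hX, r, h1, h2⟩ := h.exists_cover hF
  rw [← cancel_epi r, comp_zero]
  apply h.test_inj X G hX
  rw [Psi.map_comp, hf, comp_zero]

theorem full (h : TiltData Psi E P) {F G : C} (hF : E F) (g : Psi.obj F ⟶ Psi.obj G) :
    ∃ f : F ⟶ G, Psi.map f = g := by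
  obtain ⟨X, hX, r, h1, h2⟩ := h.exists_cover hF
  let S : ShortComplex C := ShortComplex.mk (kernel.ι r) r (by simp)
  have hS : S.ShortExact := by
    refine { exact := ?_, mono_f := ?_, epi_g := ?_ }
    · apply ShortComplex.exact_of_f_is_kernel
      exact kernelIsKernel _
    · dsimp [S]; infer_instance
    · exact h1
  have hN : E S.X₁ := h.ker_mem S hS (h.test_mem X hX) h2
  obtain ⟨X', hX', r', h1', h2'⟩ := h.exists_cover hN
  obtain ⟨k, hk⟩ := h.test_surj X G hX (Psi.map r ≫ g)
  have hz : r' ≫ (S.f ≫ k) = 0 := by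
    apply h.test_inj X' G hX'
    rw [Psi.map_comp, Psi.map_comp, hk, ← Psi.map_comp_assoc S.f r]
    have : S.f ≫ r = 0 := S.zero
    rw [this, Psi.map_zero, zero_comp, comp_zero]
  have hz' : S.f ≫ k = 0 := by rwa [← cancel_epi r', comp_zero]
  refine ⟨hS.gIsCokernel.desc (CokernelCofork.ofπ k hz'), ?_⟩
  have hd : r ≫ hS.gIsCokernel.desc (CokernelCofork.ofπ k hz') = k :=
    hS.gIsCokernel.fac (CokernelCofork.ofπ k hz') WalkingParallelPair.one
  rw [← cancel_epi (Psi.map r), ← Psi.map_comp, hd, hk]

/-- `Psi` preserves short exact sequences starting in `E`. -/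
theorem map_shortExact (h : TiltData Psi E P) (S : ShortComplex C) (hS : S.ShortExact)
    (h1 : E S.X₁) : (S.map Psi).ShortExact := by
  refine { exact := ?_, mono_f := ?_, epi_g := h.right_epi S hS h1 }
  · exact hS.exact.map_of_mono_of_preservesKernel Psi hS.mono_f inferInstance
  · have := hS.mono_f
    exact inferInstanceAs (Mono (Psi.map S.f))

/-- `Psi` reflects short exact sequences in `E`. -/
theorem shortExact_of_map (h : TiltData Psi E P) (S : ShortComplex C)
    (h1 : E S.X₁) (h2 : E S.X₂) (h3 : E S.X₃) (hS : (S.map Psi).ShortExact) : S.ShortExact := by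
  have hg : Epi (Psi.map S.g) := hS.epi_g
  have hepi : Epi S.g := h.epi_of_epi S.g h2 h3 hg
  let T : ShortComplex C := ShortComplex.mk (kernel.ι S.g) S.g (by simp)
  have hT : T.ShortExact := by
    refine { exact := ?_, mono_f := ?_, epi_g := ?_ }
    · apply ShortComplex.exact_of_f_is_kernel
      exact kernelIsKernel _
    · dsimp [T]; infer_instance
    · exact hepi
  have hK : E T.X₁ := h.ker_mem T hT h2 hg
  let l : S.X₁ ⟶ kernel S.g := kernel.lift S.g S.f S.zero
  have hTm := h.map_shortExact T hT hK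
  have hl : IsIso (Psi.map l) := by
    let a : IsLimit (KernelFork.ofι (Psi.map S.f) (S.map Psi).zero) := hS.fIsKernel
    let b : IsLimit (KernelFork.ofι (Psi.map T.f) (T.map Psi).zero) := hTm.fIsKernel
    have e := a.conePointUniqueUpToIso b
    have he : (a.conePointUniqueUpToIso b).hom ≫ Psi.map T.f = Psi.map S.f :=
      a.conePointUniqueUpToIso_hom_comp b WalkingParallelPair.zero
    have : Psi.map l = (a.conePointUniqueUpToIso b).hom := by
      have hm : Mono (Psi.map T.f) := hTm.mono_f
      rw [← cancel_mono (Psi.map T.f), he, ← Psi.map_comp]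
      simp [l, T]
    rw [this]
    infer_instance
  have : IsIso l := h.isIso_of_isIso l h1 hK hl
  refine { exact := ?_, mono_f := ?_, epi_g := hepi }
  · rw [ShortComplex.exact_iff_exact_up_to_refinements]
    intro A x hx
    refine ⟨A, 𝟙 _, inferInstance, kernel.lift S.g x hx ≫ inv l, ?_⟩
    have : inv l ≫ S.f = kernel.ι S.g := by
      rw [IsIso.inv_comp_eq]; simp [l]
    rw [Category.assoc, this]
    simp
  · have : S.f = l ≫ kernel.ι S.g := by simp [l]
    rw [this]
    exact mono_comp _ _

/-! ### The form needed for LEMMA E -/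

/-- The functor restricted to the full subcategory `E`. -/
abbrev restr (Psi : C ⥤ D) (E : ObjectProperty C) : E.FullSubcategory ⥤ D := E.ι ⋙ Psi

theorem restr_faithful (h : TiltData Psi E P) : (restr Psi E).Faithful where
  map_injective {X Y} f g hfg := by
    have h1 : Psi.map (f.hom - g.hom) = 0 := by
      have : Psi.map f.hom = Psi.map g.hom := hfg
      rw [Psi.map_sub, this, sub_self]
    have h2 := h.faithful X.property (f.hom - g.hom) h1
    ext
    exact sub_eq_zero.mp h2

theorem restr_full (h : TiltData Psi E P) : (restr Psi E).Full where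
  map_surjective {X Y} g := by
    obtain ⟨f, hf⟩ := h.full X.property (G := Y.obj) g
    exact ⟨E.homMk f, hf⟩

theorem restr_exact (h : TiltData Psi E P) (S : ShortComplex E.FullSubcategory) :
    (S.map E.ι).ShortExact ↔ (S.map (restr Psi E)).ShortExact := by
  constructor
  · intro hS
    exact h.map_shortExact (S.map E.ι) hS S.X₁.property
  · intro hS
    exact h.shortExact_of_map (S.map E.ι) S.X₁.property S.X₂.property S.X₃.property hS

theorem restr_sub (h : TiltData Psi E P) (X : E.FullSubcategory) (M : D)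
    (i : M ⟶ (restr Psi E).obj X) (hi : Mono i) :
    ∃ Y : E.FullSubcategory, Nonempty ((restr Psi E).obj Y ≅ M) := by
  obtain ⟨G, hG, f, e, -⟩ := h.exists_of_mono (F := X.obj) i hi
  exact ⟨⟨G, hG⟩, ⟨e⟩⟩

theorem restr_gen (h : TiltData Psi E P) (M : D) :
    ∃ (X : E.FullSubcategory) (p : (restr Psi E).obj X ⟶ M), Epi p := by
  obtain ⟨X, hX, p, hp⟩ := h.gen M
  exact ⟨⟨X, h.test_mem X hX⟩, p, hp⟩

end TiltData

end MP55c1e7
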