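import Pool.Agent.Lib.MP_55c1e7_ag.LemmaE
import Pool.Agent.Lib.MP_55c1e7_ag.TiltT

/-!
Box B1: tilting data give an equivalence of bounded derived categories.
-/

set_option autoImplicit false

open CategoryTheory CategoryTheory.Limits

namespace MP55c1e7

universe w w' v v' u u'

variable {C : Type u} [Category.{v} C] [Abelian C]
variable {D : Type u'} [Category.{v'} D] [Abelian D]

namespace TiltData

variable {Psi : C ⥤ D} [Psi.Additive] {E P : ObjectProperty C}

lemma exists_shortExact_aux {X Y Z : C} (i : X ⊞ Y ⟶ Z) [Mono i] :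
    ∃ (w : (biprod.inr ≫ i ≫ cokernel.π ((biprod.inl : X ⟶ X ⊞ Y) ≫ i)) ≫
        cokernel.desc ((biprod.inl : X ⟶ X ⊞ Y) ≫ i) (cokernel.π i) (by simp) = 0),
      (ShortComplex.mk _ _ w).ShortExact := by
  refine ⟨by simp, ?_⟩
  have hm : Mono (biprod.inr ≫ i ≫ cokernel.π ((biprod.inl : X ⟶ X ⊞ Y) ≫ i)) := by
    apply Preadditive.mono_of_cancel_zero
    intro T t ht
    have hex : (ShortComplex.mk ((biprod.inl : X ⟶ X ⊞ Y) ≫ i)
        (cokernel.π ((biprod.inl : X ⟶ X ⊞ Y) ≫ i)) (by simp)).Exact :=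
      ShortComplex.exact_cokernel _
    have hmono : Mono ((biprod.inl : X ⟶ X ⊞ Y) ≫ i) := mono_comp _ _
    obtain ⟨s, hs⟩ := hex.lift' (t ≫ biprod.inr ≫ i) (by simpa using ht)
    have hs' : s ≫ (biprod.inl : X ⟶ X ⊞ Y) = t ≫ biprod.inr := by
      rw [← cancel_mono i]
      simpa using hs
    have := congrArg (fun f => f ≫ biprod.snd) hs'
    simpa using this.symm
  refine { exact := ?_, mono_f := hm, epi_g := ?_ }
  · rw [ShortComplex.exact_iff_exact_up_to_refinements]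
    intro A x hx
    obtain ⟨A', π, hπ, z, hz⟩ := surjective_up_to_refinements_of_epi
      (cokernel.π ((biprod.inl : X ⟶ X ⊞ Y) ≫ i)) x
    have hex : (ShortComplex.mk i (cokernel.π i) (by simp)).Exact :=
      ShortComplex.exact_cokernel _
    have hx' : x ≫ cokernel.desc ((biprod.inl : X ⟶ X ⊞ Y) ≫ i) (cokernel.π i) (by simp) = 0 :=
      hx
    have hz' : z ≫ cokernel.π i = 0 := by
      have h1 : z ≫ cokernel.π ((biprod.inl : X ⟶ X ⊞ Y) ≫ i) ≫
          cokernel.desc ((biprod.inl : X ⟶ X ⊞ Y) ≫ i) (cokernel.π i) (by simp) = 0 := by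
        rw [← reassoc_of% hz, hx', comp_zero]
      simpa using h1
    obtain ⟨t, ht⟩ := hex.lift' z hz'
    refine ⟨A', π, hπ, t ≫ biprod.snd, ?_⟩
    have ht' : t ≫ i = z := ht
    have hsum : t = (t ≫ biprod.fst) ≫ biprod.inl + (t ≫ biprod.snd) ≫ biprod.inr := by
      rw [Category.assoc, Category.assoc, ← Preadditive.comp_add, biprod.total, Category.comp_id]
    have h0 : (biprod.inl : X ⟶ X ⊞ Y) ≫ i ≫ cokernel.π ((biprod.inl : X ⟶ X ⊞ Y) ≫ i) = 0 := by
      rw [← Category.assoc]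
      exact cokernel.condition ((biprod.inl : X ⟶ X ⊞ Y) ≫ i)
    rw [hz, ← ht']
    conv_lhs => rw [hsum]
    simp
  · dsimp
    have : Epi (cokernel.π ((biprod.inl : X ⟶ X ⊞ Y) ≫ i) ≫
        cokernel.desc ((biprod.inl : X ⟶ X ⊞ Y) ≫ i) (cokernel.π i) (by simp)) := by
      rw [cokernel.π_desc]
      infer_instance
    exact CategoryTheory.epi_of_epi (cokernel.π ((biprod.inl : X ⟶ X ⊞ Y) ≫ i)) _

/-- `E` is closed under sums. -/
lemma biprod_mem (h : TiltData Psi E P) (hemb : ∀ X : C, ∃ (Y : C) (i : X ⟶ Y), E Y ∧ Mono i)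
    (X Y : C) (hX : E X) (hY : E Y) : E (X ⊞ Y) := by
  obtain ⟨Z, i, hZ, hi⟩ := hemb (X ⊞ Y)
  obtain ⟨w, hS⟩ := exists_shortExact_aux i
  have hmono : Mono ((biprod.inl : X ⟶ X ⊞ Y) ≫ i) := mono_comp _ _
  have h₁ : Epi (Psi.map (cokernel.π ((biprod.inl : X ⟶ X ⊞ Y) ≫ i))) :=
    h.right_epi (ShortComplex.mk ((biprod.inl : X ⟶ X ⊞ Y) ≫ i)
      (cokernel.π ((biprod.inl : X ⟶ X ⊞ Y) ≫ i)) (by simp))
      (ShortComplex.ShortExact.mk (ShortComplex.exact_cokernel _)) hX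
  have h₂ : Epi (Psi.map (cokernel.desc ((biprod.inl : X ⟶ X ⊞ Y) ≫ i) (cokernel.π i)
      (by simp))) := h.right_epi _ hS hY
  refine h.ker_mem (ShortComplex.mk i (cokernel.π i) (by simp))
    (ShortComplex.ShortExact.mk (ShortComplex.exact_cokernel _)) hZ ?_
  have h₃ : cokernel.π ((biprod.inl : X ⟶ X ⊞ Y) ≫ i) ≫
      cokernel.desc ((biprod.inl : X ⟶ X ⊞ Y) ≫ i) (cokernel.π i) (by simp) = cokernel.π i :=
    cokernel.π_desc _ _ _
  dsimp
  rw [← h₃, Psi.map_comp]
  exact epi_comp _ _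

open Pool.Agent.Lib.MP_55c1e7_ag ZeroObject in
/-- **Box B1**: tilting data such that every object embeds in an object of `E` give a linear
triangulated equivalence of the bounded derived categories. -/
theorem exists_equiv (k : Type*) [Ring k] [Linear k C] [Linear k D] [HasDerivedCategory.{w} C]
    [HasDerivedCategory.{w'} D] [Psi.Linear k] [PreservesFiniteLimits Psi]
    (h : TiltData Psi E P) (hemb : ∀ X : C, ∃ (Y : C) (i : X ⟶ Y), E Y ∧ Mono i) :
    ∃ (e : Db C ≌ Db D) (_ : e.functor.CommShift ℤ),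
      e.functor.IsTriangulated ∧ e.functor.Linear k := by
  have : E.IsClosedUnderQuotients := ⟨fun f hf hX => h.quot f hf hX⟩
  have h₀ := h.restr_faithful
  have h₁ := h.restr_full
  obtain ⟨Z, -, hZ, -⟩ := hemb 0
  exact lemmaE k E (h.quot (0 : Z ⟶ 0) inferInstance hZ) (h.biprod_mem hemb) hemb
    (restr Psi E) h.restr_exact h.restr_sub h.restr_gen

end TiltData

end MP55c1e7
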