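/-
MP_55c1e7_ag, box B3b: morphisms and exact sequences of coherent representations of a two-chart
system, in terms of the two-chart data `D.tc F J`.
-/
import Pool.Agent.Lib.MP_55c1e7_ag.Ac

open CategoryTheory CategoryTheory.Limits MP55c1e7

namespace BadRed

open Ch LocData

variable {k K : Type} [Field k] [Field K] [Algebra k K]
variable {ObX ObZ I Lam : Type} [Preorder ObX] [SemilatticeSup ObZ]

namespace TCSys

variable {D : TCSys k K ObX ObZ I Lam}

/-- the component of a morphism -/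
def co {F G : CohRep D.src} (φ : F ⟶ G) (S : ObX) : D.V F S →ₗ[k] D.V G S :=
  (φ.hom.app ⟨S⟩).hom

lemma co_ac {F G : CohRep D.src} (φ : F ⟶ G) {S T : ObX} (h : S ≤ T) (f : K) (hf : f ∈ D.A T)
    (m : D.V F S) : co φ T (D.ac F h f hf m) = D.ac G h f hf (co φ S m) :=
  act_naturality φ.hom (D.mem_src h hf) m

@[simp] lemma co_comp {F G H : CohRep D.src} (φ : F ⟶ G) (ψ : G ⟶ H) (S : ObX) (m : D.V F S) :
    co (φ ≫ ψ) S m = co ψ S (co φ S m) := rfl

@[simp] lemma co_id {F : CohRep D.src} (S : ObX) (m : D.V F S) :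
    co (𝟙 F) S m = m := rfl

@[simp] lemma co_zero {F G : CohRep D.src} (S : ObX) (m : D.V F S) :
    co (0 : F ⟶ G) S m = 0 := rfl

@[simp] lemma co_add {F G : CohRep D.src} (φ ψ : F ⟶ G) (S : ObX) (m : D.V F S) :
    co (φ + ψ) S m = co φ S m + co ψ S m := rfl

@[simp] lemma co_smul {F G : CohRep D.src} (r : k) (φ : F ⟶ G) (S : ObX) (m : D.V F S) :
    co (r • φ) S m = r • co φ S m := rfl

lemma co_ext {F G : CohRep D.src} {φ ψ : F ⟶ G} (h : ∀ S m, co φ S m = co ψ S m) : φ = ψ := by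
  ext S m
  exact h S.of m

/-- the component of a morphism on a chart over `J`, linear over `R J` -/
def coR {F G : CohRep D.src} (φ : F ⟶ G) (e : Ch) (J : ObZ) :
    D.V F (D.s e J) →ₗ[D.R J] D.V G (D.s e J) where
  toFun := co φ (D.s e J)
  map_add' := map_add _
  map_smul' r m := co_ac φ le_rfl r.1 (D.R_le e J r.2) m

/-- the morphism of two-chart data given by a morphism of representations -/
def tcm {F G : CohRep D.src} (φ : F ⟶ G) (J : ObZ) : TC.Mor (D.tc F J) (D.tc G J) where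
  f1 := coR φ c0 J
  f2 := coR φ c1 J
  f12 := coR φ c01 J
  c1 a := (co_ac φ (D.le0 J) 1 (D.A _).one_mem a).symm
  c2 b := (co_ac φ (D.le1 J) 1 (D.A _).one_mem b).symm
  cT z := (co_ac φ le_rfl (D.u J) (D.u_mem01 J) z).symm

lemma tcm_f1 {F G : CohRep D.src} (φ : F ⟶ G) (J : ObZ) (a : D.V F (D.s c0 J)) :
    (tcm φ J).f1 a = co φ (D.s c0 J) a := rfl
lemma tcm_f2 {F G : CohRep D.src} (φ : F ⟶ G) (J : ObZ) (a : D.V F (D.s c1 J)) :
    (tcm φ J).f2 a = co φ (D.s c1 J) a := rfl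
lemma tcm_f12 {F G : CohRep D.src} (φ : F ⟶ G) (J : ObZ) (a : D.V F (D.s c01 J)) :
    (tcm φ J).f12 a = co φ (D.s c01 J) a := rfl

lemma epi_iff {F G : CohRep D.src} (φ : F ⟶ G) :
    Epi φ ↔ ∀ S, Function.Surjective (co φ S) := by
  rw [epi_full_iff_pt]
  exact ⟨fun h S => h ⟨S⟩, fun h S => h S.of⟩

lemma mono_iff {F G : CohRep D.src} (φ : F ⟶ G) :
    Mono φ ↔ ∀ S, Function.Injective (co φ S) := by
  rw [mono_full_iff_pt]
  exact ⟨fun h S => h ⟨S⟩, fun h S => h S.of⟩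

lemma isZero_iff (F : CohRep D.src) : IsZero F ↔ ∀ S (m : D.V F S), m = 0 := by
  rw [isZero_full_iff_pt]
  exact ⟨fun h S => h ⟨S⟩, fun h S => h S.of⟩

lemma shortExact_inj {S : ShortComplex (CohRep D.src)} (h : S.ShortExact) (U : ObX) :
    Function.Injective (co S.f U) := ((shortExact_iff_pt _ S).mp h).1 ⟨U⟩

lemma shortExact_surj {S : ShortComplex (CohRep D.src)} (h : S.ShortExact) (U : ObX) :
    Function.Surjective (co S.g U) := ((shortExact_iff_pt _ S).mp h).2.2 ⟨U⟩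

lemma shortExact_ex {S : ShortComplex (CohRep D.src)} (h : S.ShortExact) (U : ObX)
    (m : D.V S.X₂ U) (hm : co S.g U m = 0) : ∃ n, co S.f U n = m :=
  ((shortExact_iff_pt _ S).mp h).2.1 ⟨U⟩ m hm

lemma comp_zero' (S : ShortComplex (CohRep D.src)) (U : ObX)
    (m : D.V S.X₁ U) : co S.g U (co S.f U m) = 0 := by
  rw [← co_comp, S.zero, co_zero]

variable (D) in
/-- the class of representations with `H¹(F(-1)) = 0` over every open set of `Z` -/
def E : ObjectProperty (CohRep D.src) := fun F => ∀ J, (D.tc F J).Van (-1)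

lemma E.van {F : CohRep D.src} (h : D.E F) (J : ObZ) {n : ℤ} (hn : -1 ≤ n) : (D.tc F J).Van n :=
  (D.tc F J).van_mono (h J) hn

lemma E.quot {F G : CohRep D.src} (φ : F ⟶ G) (h : Epi φ) (hF : D.E F) : D.E G := by
  intro J
  rw [epi_iff] at h
  exact (tcm φ J).van_quot (h _) (hF J)

lemma E.surj {S : ShortComplex (CohRep D.src)} (hS : S.ShortExact) (h : D.E S.X₁) (J : ObZ)
    {n : ℤ} (hn : -1 ≤ n) {m : D.V S.X₃ (D.s c0 J) × D.V S.X₃ (D.s c1 J)}
    (hm : m ∈ (D.tc S.X₃ J).H0 n) :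
    ∃ m' ∈ (D.tc S.X₂ J).H0 n, (co S.g _ m'.1, co S.g _ m'.2) = m :=
  TC.Mor.surj_of_van (tcm S.f J) (tcm S.g J) (shortExact_surj hS _) (shortExact_surj hS _)
    (shortExact_ex hS _) (comp_zero' S _) (comp_zero' S _) (E.van h J hn) hm

lemma E.ker_mem {S : ShortComplex (CohRep D.src)} (hS : S.ShortExact) (h : D.E S.X₂)
    (hs : ∀ J, ∀ m ∈ (D.tc S.X₃ J).H0 (-1), ∃ m' ∈ (D.tc S.X₂ J).H0 (-1),
      (co S.g _ m'.1, co S.g _ m'.2) = m) : D.E S.X₁ := fun J =>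
  TC.Mor.van_of_surj (tcm S.f J) (tcm S.g J) (shortExact_inj hS _) (shortExact_ex hS _)
    (shortExact_ex hS _) (comp_zero' S _) (h J) (hs J)

lemma E.cons {F : CohRep D.src} (h : D.E F) (h0 : ∀ J, ∀ m ∈ (D.tc F J).H0 0, m = 0) :
    IsZero F := by
  rw [isZero_iff]
  intro S
  obtain ⟨e, he⟩ := D.s_pr S
  rw [← he]
  intro m
  cases e with
  | c0 => exact (D.tc F (D.pr S)).cons1 (h _) (h0 _) m
  | c1 => exact (D.tc F (D.pr S)).cons2 (h _) (h0 _) m
  | c01 => exact (D.tc F (D.pr S)).cons12 (h _) (h0 _) m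

lemma ker_H0 {S : ShortComplex (CohRep D.src)} (hi : ∀ U, Function.Injective (co S.f U))
    (hex : ∀ U (m : D.V S.X₂ U), co S.g U m = 0 → ∃ n, co S.f U n = m) (J : ObZ) {n : ℤ}
    {m : D.V S.X₂ (D.s c0 J) × D.V S.X₂ (D.s c1 J)} (hm : m ∈ (D.tc S.X₂ J).H0 n)
    (h : (co S.g _ m.1, co S.g _ m.2) = 0) :
    ∃ m' ∈ (D.tc S.X₁ J).H0 n, (co S.f _ m'.1, co S.f _ m'.2) = m :=
  TC.Mor.ker_H0 (tcm S.f J) (tcm S.g J) (hi _) (hex _) (hex _) hm h

end TCSys

end BadRed
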