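/-
MP_55c1e7_ag, box B3a: pairs of sections over the two charts localise (restriction from an open
set `J` of the base to a smaller one `J'`).
-/
import Pool.Agent.Lib.MP_55c1e7_ag.Ac

open CategoryTheory CategoryTheory.Limits MP55c1e7

namespace BadRed

open Ch LocData

variable {k K : Type} [Field k] [Field K] [Algebra k K]
variable {ObX ObZ I Lam : Type} [Preorder ObX] [SemilatticeSup ObZ]

namespace TCSys

variable (D : TCSys k K ObX ObZ I Lam)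

lemma leE (e : Ch) (J : ObZ) : D.s e J ≤ D.s c01 J := by
  cases e with
  | c0 => exact D.le0 J
  | c1 => exact D.le1 J
  | c01 => exact le_rfl

/-- `g` is a denominator for `J ≤ J'`. -/
structure Den (J J' : ObZ) (g : K) : Prop where
  mem : g ∈ D.R J
  ne : g ≠ 0
  inv : g⁻¹ ∈ D.R J'

variable {D}

lemma Den.mul {J J' : ObZ} {g g' : K} (h : D.Den J J' g) (h' : D.Den J J' g') :
    D.Den J J' (g * g') :=
  ⟨(D.R J).mul_mem h.mem h'.mem, mul_ne_zero h.ne h'.ne, by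
    rw [mul_inv]; exact (D.R J').mul_mem h.inv h'.inv⟩

lemma Den.one (J J' : ObZ) : D.Den J J' 1 :=
  ⟨(D.R J).one_mem, one_ne_zero, by rw [inv_one]; exact (D.R J').one_mem⟩

variable {F : CohRep D.src}

/-- elementwise surjectivity on one chart, same type -/
lemma surj_e {J J' : ObZ} (h : J ≤ J') (hs : D.special J' → D.special J) (e : Ch)
    (m : D.V F (D.s e J')) : ∃ (g : K) (hg : D.Den J J' g) (x : D.V F (D.s e J)),
      D.ac F le_rfl g (D.R_le e J' (D.R_mono h hg.mem)) m =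
        D.ac F (D.s_mono e h) 1 (D.A _).one_mem x := by
  obtain ⟨f, hf, y, hf0, hfi, e1⟩ := D.ex_surj F (D.s_mono e h) m
  obtain ⟨g, hg, hg0, hgi, hgf⟩ := D.den h hs e _ hfi
  refine ⟨g, ⟨hg, hg0, hgi⟩, D.ac F le_rfl _ hgf y, ?_⟩
  have e2 := congrArg (D.ac F le_rfl _ (D.mono (D.s_mono e h) hgf)) e1
  rw [ac_ac, ac_ac] at e2
  rw [ac_ac]
  rw [ac_congr _ _ (show f * (g * f⁻¹) = g by field_simp)] at e2
  rw [e2]
  exact ac_congr _ _ (by rw [mul_comm]) y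

lemma inj_e {J J' : ObZ} (h : J ≤ J') (hs : D.special J' → D.special J) (e : Ch)
    (x : D.V F (D.s e J)) (hx : D.ac F (D.s_mono e h) 1 (D.A _).one_mem x = 0) :
    ∃ (g : K) (hg : D.Den J J' g), D.ac F le_rfl g (D.R_le e J hg.mem) x = 0 := by
  obtain ⟨f, hf, hf0, hfi, e1⟩ := D.ex_inj F (D.s_mono e h) x hx
  obtain ⟨g, hg, hg0, hgi, hgf⟩ := D.den h hs e _ hfi
  refine ⟨g, ⟨hg, hg0, hgi⟩, ?_⟩
  have e2 := congrArg (D.ac F le_rfl _ hgf) e1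
  rw [ac_ac, map_zero] at e2
  rw [← e2]
  exact ac_congr _ _ (by field_simp) x

/-- case 1, surjectivity -/
lemma surj_same {J J' : ObZ} (h : J ≤ J') (hs : D.special J' → D.special J) (w : K)
    (hw : w ∈ D.A (D.s c01 J)) (m0 : D.V F (D.s c0 J')) (m1 : D.V F (D.s c1 J'))
    (hm : D.ac F (D.le0 J') 1 (D.A _).one_mem m0 =
      D.ac F (D.le1 J') w (D.mono (D.s_mono c01 h) hw) m1) :
    ∃ (g : K) (hg : D.Den J J' g) (x0 : D.V F (D.s c0 J)) (x1 : D.V F (D.s c1 J)),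
      D.ac F (D.le0 J) 1 (D.A _).one_mem x0 = D.ac F (D.le1 J) w hw x1 ∧
      D.ac F le_rfl g (D.R_le c0 J' (D.R_mono h hg.mem)) m0 =
        D.ac F (D.s_mono c0 h) 1 (D.A _).one_mem x0 ∧
      D.ac F le_rfl g (D.R_le c1 J' (D.R_mono h hg.mem)) m1 =
        D.ac F (D.s_mono c1 h) 1 (D.A _).one_mem x1 := by
  obtain ⟨g0, hg0, y0, e0⟩ := surj_e h hs c0 m0
  obtain ⟨g1, hg1, y1, e1⟩ := surj_e h hs c1 m1
  -- common denominator
  let z0 : D.V F (D.s c0 J) := D.ac F le_rfl g1 (D.R_le c0 J hg1.mem) y0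
  let z1 : D.V F (D.s c1 J) := D.ac F le_rfl g0 (D.R_le c1 J hg0.mem) y1
  have f0 : D.ac F le_rfl (g0 * g1) (D.R_le c0 J' (D.R_mono h (hg0.mul hg1).mem)) m0 =
      D.ac F (D.s_mono c0 h) 1 (D.A _).one_mem z0 := by
    have e2 := congrArg (D.ac F le_rfl g1 (D.R_le c0 J' (D.R_mono h hg1.mem))) e0
    rw [ac_ac] at e2
    rw [e2]
    exact ac_comm _ _ _ _ _ _ _ _ (mul_comm _ _) y0
  have f1 : D.ac F le_rfl (g0 * g1) (D.R_le c1 J' (D.R_mono h (hg0.mul hg1).mem)) m1 =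
      D.ac F (D.s_mono c1 h) 1 (D.A _).one_mem z1 := by
    have e2 := congrArg (D.ac F le_rfl g0 (D.R_le c1 J' (D.R_mono h hg0.mem))) e1
    rw [ac_ac] at e2
    rw [ac_congr _ _ (mul_comm g0 g1), e2]
    exact ac_comm _ _ _ _ _ _ _ _ (mul_comm _ _) y1
  -- the difference on the overlap
  have hd : D.ac F (D.s_mono c01 h) 1 (D.A _).one_mem
      (D.ac F (D.le0 J) 1 (D.A _).one_mem z0 - D.ac F (D.le1 J) w hw z1) = 0 := by
    rw [map_sub, sub_eq_zero]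
    have a0 : D.ac F (D.s_mono c01 h) 1 (D.A _).one_mem (D.ac F (D.le0 J) 1 (D.A _).one_mem z0) =
        D.ac F (D.le0 J') 1 (D.A _).one_mem
          (D.ac F (D.s_mono c0 h) 1 (D.A _).one_mem z0) :=
      ac_comm _ _ _ _ _ _ _ _ rfl z0
    have a1 : D.ac F (D.s_mono c01 h) 1 (D.A _).one_mem (D.ac F (D.le1 J) w hw z1) =
        D.ac F (D.le1 J') w (D.mono (D.s_mono c01 h) hw)
          (D.ac F (D.s_mono c1 h) 1 (D.A _).one_mem z1) :=
      ac_comm _ _ _ _ _ _ _ _ (mul_comm _ _) z1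
    rw [a0, a1, ← f0, ← f1]
    have a2 : D.ac F (D.le0 J') 1 (D.A _).one_mem (D.ac F le_rfl (g0 * g1)
        (D.R_le c0 J' (D.R_mono h (hg0.mul hg1).mem)) m0) =
        D.ac F le_rfl (g0 * g1) (D.R_le c01 J' (D.R_mono h (hg0.mul hg1).mem))
          (D.ac F (D.le0 J') 1 (D.A _).one_mem m0) :=
      ac_comm _ _ _ _ _ _ _ _ (mul_comm _ _) m0
    rw [a2, hm]
    exact ac_comm _ _ _ _ _ _ _ _ (mul_comm _ _) m1
  obtain ⟨g2, hg2, e2⟩ := inj_e h hs c01 _ hd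
  rw [map_sub, sub_eq_zero] at e2
  refine ⟨(g0 * g1) * g2, (hg0.mul hg1).mul hg2,
    D.ac F le_rfl g2 (D.R_le c0 J hg2.mem) z0, D.ac F le_rfl g2 (D.R_le c1 J hg2.mem) z1,
    ?_, ?_, ?_⟩
  · have a2 : D.ac F (D.le0 J) 1 (D.A _).one_mem (D.ac F le_rfl g2 (D.R_le c0 J hg2.mem) z0) =
        D.ac F le_rfl g2 (D.R_le c01 J hg2.mem) (D.ac F (D.le0 J) 1 (D.A _).one_mem z0) :=
      ac_comm _ _ _ _ _ _ _ _ (mul_comm _ _) z0
    rw [a2, e2]
    exact ac_comm _ _ _ _ _ _ _ _ (mul_comm _ _) z1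
  · have a2 := congrArg (D.ac F le_rfl g2 (D.R_le c0 J' (D.R_mono h hg2.mem))) f0
    rw [ac_ac] at a2
    rw [a2]
    exact ac_comm _ _ _ _ _ _ _ _ (mul_comm _ _) z0
  · have a2 := congrArg (D.ac F le_rfl g2 (D.R_le c1 J' (D.R_mono h hg2.mem))) f1
    rw [ac_ac] at a2
    rw [a2]
    exact ac_comm _ _ _ _ _ _ _ _ (mul_comm _ _) z1

/-- case 1, injectivity -/
lemma inj_same {J J' : ObZ} (h : J ≤ J') (hs : D.special J' → D.special J)
    (x0 : D.V F (D.s c0 J)) (x1 : D.V F (D.s c1 J))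
    (h0 : D.ac F (D.s_mono c0 h) 1 (D.A _).one_mem x0 = 0)
    (h1 : D.ac F (D.s_mono c1 h) 1 (D.A _).one_mem x1 = 0) :
    ∃ (g : K) (hg : D.Den J J' g), D.ac F le_rfl g (D.R_le c0 J hg.mem) x0 = 0 ∧
      D.ac F le_rfl g (D.R_le c1 J hg.mem) x1 = 0 := by
  obtain ⟨g0, hg0, e0⟩ := inj_e h hs c0 x0 h0
  obtain ⟨g1, hg1, e1⟩ := inj_e h hs c1 x1 h1
  refine ⟨g0 * g1, hg0.mul hg1, ?_, ?_⟩
  · have e2 := congrArg (D.ac F le_rfl g1 (D.R_le c0 J hg1.mem)) e0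
    rw [ac_ac, map_zero] at e2
    exact e2
  · have e2 := congrArg (D.ac F le_rfl g0 (D.R_le c1 J hg0.mem)) e1
    rw [ac_ac, map_zero] at e2
    rw [ac_congr _ _ (mul_comm g0 g1)]
    exact e2

/-- case 2: the denominators of one chart of a special open set inside an affine one -/
lemma surj_half {J J' : ObZ} (h : J ≤ J') (e e' : Ch) (hde' : D.s c01 J ≤ D.s e' J)
    (t t' : K) (ht : t ∈ D.R J) (_ht' : t' ∈ D.R J) (ht'0 : t' ≠ 0)
    (hti' : t'⁻¹ ∈ D.A (D.s e' J'))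
    (pe : ∀ f ∈ D.A (D.s e J'), ∃ n : ℕ, ∃ h ∈ D.R J, h ≠ 0 ∧ h⁻¹ ∈ D.R J' ∧
      h * t ^ n * f ∈ D.R J)
    (p01 : ∀ f ∈ D.A (D.s c01 J'), ∃ n : ℕ, ∃ h ∈ D.R J, h ≠ 0 ∧ h⁻¹ ∈ D.R J' ∧
      h * (t * t') ^ n * f ∈ D.R J)
    (w : K) (hw0 : w ≠ 0) (hw : w ∈ D.A (D.s c01 J)) (hwi : w⁻¹ ∈ D.A (D.s c01 J))
    (m : D.V F (D.s e J')) (m' : D.V F (D.s e' J'))
    (hm : D.ac F (D.leE e J') 1 (D.A _).one_mem m =
      D.ac F (D.leE e' J') w (D.mono (D.s_mono c01 h) hw) m') :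
    ∃ (a : ℕ) (g : K) (hg : D.Den J J' g) (x : D.V F (D.s e J)) (x' : D.V F (D.s e' J)),
      D.ac F (D.leE e J) 1 (D.A _).one_mem x = D.ac F (D.leE e' J) w hw x' ∧
      D.ac F le_rfl (g * t ^ a) (D.R_le e J' (D.R_mono h ((D.R J).mul_mem hg.mem
        ((D.R J).pow_mem ht a)))) m = D.ac F (D.s_mono e h) 1 (D.A _).one_mem x ∧
      D.ac F le_rfl (g * t ^ a) (D.R_le e' J' (D.R_mono h ((D.R J).mul_mem hg.mem
        ((D.R J).pow_mem ht a)))) m' = D.ac F (D.s_mono e' h) 1 (D.A _).one_mem x' := by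
  obtain ⟨f, hf, y, hf0, hfi, e1⟩ := D.ex_surj F (D.s_mono e h) m
  obtain ⟨N, q, hq, hq0, hqi, hr⟩ := pe _ hfi
  have hqt : q * t ^ N ∈ D.R J := (D.R J).mul_mem hq ((D.R J).pow_mem ht N)
  let y0 : D.V F (D.s e J) := D.ac F le_rfl _ (D.R_le e J hr) y
  have f0 : D.ac F le_rfl (q * t ^ N) (D.R_le e J' (D.R_mono h hqt)) m =
      D.ac F (D.s_mono e h) 1 (D.A _).one_mem y0 := by
    have e2 := congrArg (D.ac F le_rfl _ (D.R_le e J' (D.R_mono h hr))) e1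
    rw [ac_ac, ac_ac, ac_congr _ _ (show f * (q * t ^ N * f⁻¹) = q * t ^ N by field_simp)] at e2
    rw [e2, ac_ac]
    exact ac_congr _ _ (by rw [mul_comm]) y
  clear_value y0
  let z : D.V F (D.s e' J) :=
    D.ac F hde' w⁻¹ (D.mono hde' hwi) (D.ac F (D.leE e J) 1 (D.A _).one_mem y0)
  have hz : D.ac F (D.leE e J) 1 (D.A _).one_mem y0 = D.ac F (D.leE e' J) w hw z := by
    rw [ac_ac, ac_ac]
    exact ac_congr _ _ (by field_simp) y0
  -- the difference on the other chart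
  let d : D.V F (D.s e' J') := D.ac F le_rfl (q * t ^ N) (D.R_le e' J' (D.R_mono h hqt)) m' -
    D.ac F (D.s_mono e' h) 1 (D.A _).one_mem z
  have hd : D.ac F (D.leE e' J') 1 (D.A _).one_mem d = 0 := by
    have hd1 : D.ac F (D.leE e' J') w (D.mono (D.s_mono c01 h) hw) d = 0 := by
      rw [map_sub, sub_eq_zero]
      have a1 : D.ac F (D.leE e' J') w (D.mono (D.s_mono c01 h) hw)
          (D.ac F le_rfl (q * t ^ N) (D.R_le e' J' (D.R_mono h hqt)) m') =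
          D.ac F le_rfl (q * t ^ N) (D.R_le c01 J' (D.R_mono h hqt))
            (D.ac F (D.leE e' J') w (D.mono (D.s_mono c01 h) hw) m') :=
        ac_comm _ _ _ _ _ _ _ _ (mul_comm _ _) m'
      have a2 : D.ac F le_rfl (q * t ^ N) (D.R_le c01 J' (D.R_mono h hqt))
          (D.ac F (D.leE e J') 1 (D.A _).one_mem m) =
          D.ac F (D.leE e J') 1 (D.A _).one_mem
            (D.ac F le_rfl (q * t ^ N) (D.R_le e J' (D.R_mono h hqt)) m) :=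
        ac_comm _ _ _ _ _ _ _ _ (mul_comm _ _) m
      have a3 : D.ac F (D.leE e J') 1 (D.A _).one_mem
          (D.ac F (D.s_mono e h) 1 (D.A _).one_mem y0) =
          D.ac F (D.s_mono c01 h) 1 (D.A _).one_mem
            (D.ac F (D.leE e J) 1 (D.A _).one_mem y0) :=
        ac_comm _ _ _ _ _ _ _ _ rfl y0
      rw [a1, ← hm, a2, f0, a3, hz]
      exact ac_comm _ _ _ _ _ _ _ _ (mul_comm _ _) z
    have a4 := congrArg (D.ac F le_rfl w⁻¹ (D.mono (D.s_mono c01 h) hwi)) hd1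
    rw [ac_ac, map_zero, ac_congr _ _ (mul_inv_cancel₀ hw0)] at a4
    exact a4
  obtain ⟨f', hf', hf'0, hf'i, e2⟩ := D.ex_inj F (D.leE e' J') d hd
  obtain ⟨n, q', hq', hq'0, hq'i, hr'⟩ := p01 _ hf'i
  have hqtn : q' * t ^ n ∈ D.R J := (D.R J).mul_mem hq' ((D.R J).pow_mem ht n)
  have hd0 : D.ac F le_rfl (q' * t ^ n) (D.R_le e' J' (D.R_mono h hqtn)) d = 0 := by
    have e3 := congrArg (D.ac F le_rfl _ ((D.A _).mul_mem (D.R_le e' J' (D.R_mono h hr'))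
      ((D.A _).pow_mem hti' n))) e2
    rw [ac_ac, map_zero] at e3
    rw [← e3]
    apply ac_congr
    rw [mul_pow, inv_pow]
    field_simp
  rw [map_sub, sub_eq_zero] at hd0
  refine ⟨N + n, q * q', ⟨(D.R J).mul_mem hq hq', mul_ne_zero hq0 hq'0, by
    rw [mul_inv]; exact (D.R J').mul_mem hqi hq'i⟩,
    D.ac F le_rfl (q' * t ^ n) (D.R_le e J hqtn) y0,
    D.ac F le_rfl (q' * t ^ n) (D.R_le e' J hqtn) z, ?_, ?_, ?_⟩
  · have a2 : D.ac F (D.leE e J) 1 (D.A _).one_mem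
        (D.ac F le_rfl (q' * t ^ n) (D.R_le e J hqtn) y0) =
        D.ac F le_rfl (q' * t ^ n) (D.R_le c01 J hqtn)
          (D.ac F (D.leE e J) 1 (D.A _).one_mem y0) :=
      ac_comm _ _ _ _ _ _ _ _ (mul_comm _ _) y0
    rw [a2, hz]
    exact ac_comm _ _ _ _ _ _ _ _ (mul_comm _ _) z
  · have a2 := congrArg (D.ac F le_rfl (q' * t ^ n) (D.R_le e J' (D.R_mono h hqtn))) f0
    rw [ac_ac] at a2
    rw [ac_congr _ _ (show q * q' * t ^ (N + n) = q * t ^ N * (q' * t ^ n) by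
      rw [pow_add]; ring), a2]
    exact ac_comm _ _ _ _ _ _ _ _ (mul_comm _ _) y0
  · rw [ac_ac] at hd0
    rw [ac_congr _ _ (show q * q' * t ^ (N + n) = q * t ^ N * (q' * t ^ n) by
      rw [pow_add]; ring), hd0]
    exact ac_comm _ _ _ _ _ _ _ _ (mul_comm _ _) z

lemma inj_half {J J' : ObZ} (h : J ≤ J') (e e' : Ch) (hde' : D.s c01 J ≤ D.s e' J)
    (t : K) (ht : t ∈ D.R J)
    (pe : ∀ f ∈ D.A (D.s e J'), ∃ n : ℕ, ∃ h ∈ D.R J, h ≠ 0 ∧ h⁻¹ ∈ D.R J' ∧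
      h * t ^ n * f ∈ D.R J)
    (w : K) (hw0 : w ≠ 0) (hw : w ∈ D.A (D.s c01 J)) (hwi : w⁻¹ ∈ D.A (D.s c01 J))
    (x : D.V F (D.s e J)) (x' : D.V F (D.s e' J))
    (hx : D.ac F (D.leE e J) 1 (D.A _).one_mem x = D.ac F (D.leE e' J) w hw x')
    (h0 : D.ac F (D.s_mono e h) 1 (D.A _).one_mem x = 0) :
    ∃ (a : ℕ) (g : K) (hg : D.Den J J' g),
      D.ac F le_rfl (g * t ^ a) (D.R_le e J ((D.R J).mul_mem hg.mem
        ((D.R J).pow_mem ht a))) x = 0 ∧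
      D.ac F le_rfl (g * t ^ a) (D.R_le e' J ((D.R J).mul_mem hg.mem
        ((D.R J).pow_mem ht a))) x' = 0 := by
  obtain ⟨f, hf, hf0, hfi, e1⟩ := D.ex_inj F (D.s_mono e h) x h0
  obtain ⟨N, q, hq, hq0, hqi, hr⟩ := pe _ hfi
  have hqt : q * t ^ N ∈ D.R J := (D.R J).mul_mem hq ((D.R J).pow_mem ht N)
  have f0 : D.ac F le_rfl (q * t ^ N) (D.R_le e J hqt) x = 0 := by
    have e2 := congrArg (D.ac F le_rfl _ (D.R_le e J hr)) e1
    rw [ac_ac, map_zero, ac_congr _ _ (show f * (q * t ^ N * f⁻¹) = q * t ^ N by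
      field_simp)] at e2
    exact e2
  refine ⟨N, q, ⟨hq, hq0, hqi⟩, f0, ?_⟩
  have hx' : x' = D.ac F hde' w⁻¹ (D.mono hde' hwi) (D.ac F (D.leE e J) 1 (D.A _).one_mem x) := by
    rw [hx, ac_ac, ac_congr _ _ (mul_inv_cancel₀ hw0), ac_one']
  rw [hx']
  have a1 : D.ac F le_rfl (q * t ^ N) (D.R_le e' J hqt)
      (D.ac F hde' w⁻¹ (D.mono hde' hwi) (D.ac F (D.leE e J) 1 (D.A _).one_mem x)) =
      D.ac F hde' w⁻¹ (D.mono hde' hwi) (D.ac F le_rfl (q * t ^ N) (D.R_le c01 J hqt)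
        (D.ac F (D.leE e J) 1 (D.A _).one_mem x)) :=
    ac_comm _ _ _ _ _ _ _ _ (mul_comm _ _) _
  have a2 : D.ac F le_rfl (q * t ^ N) (D.R_le c01 J hqt)
      (D.ac F (D.leE e J) 1 (D.A _).one_mem x) =
      D.ac F (D.leE e J) 1 (D.A _).one_mem (D.ac F le_rfl (q * t ^ N) (D.R_le e J hqt) x) :=
    ac_comm _ _ _ _ _ _ _ _ (mul_comm _ _) _
  rw [a1, a2, f0, map_zero, map_zero]

/-- partition of unity with denominators -/
lemma exists_partition {J J' : ObZ} (h : J ≤ J') {t0 t1 : K} (ht0 : t0 ∈ D.R J)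
    (ht1 : t1 ∈ D.R J) (hp : ∃ a0 ∈ D.R J', ∃ a1 ∈ D.R J', a0 * t0 + a1 * t1 = 1) (a b : ℕ) :
    ∃ g, D.Den J J' g ∧ ∃ b0 ∈ D.R J, ∃ b1 ∈ D.R J, g = b0 * t0 ^ a + b1 * t1 ^ b := by
  obtain ⟨a0, ha0, a1, ha1, e⟩ := hp
  have hc : IsCoprime (⟨t0, D.R_mono h ht0⟩ : D.R J') ⟨t1, D.R_mono h ht1⟩ :=
    ⟨⟨a0, ha0⟩, ⟨a1, ha1⟩, Subtype.ext e⟩
  obtain ⟨c0, c1, hc2⟩ := hc.pow (m := a) (n := b)
  have e2 : c0.1 * t0 ^ a + c1.1 * t1 ^ b = 1 := congrArg Subtype.val hc2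
  obtain ⟨q0, hq0, hq00, hq0i, hq0c⟩ := D.denR h _ c0.2
  obtain ⟨q1, hq1, hq10, hq1i, hq1c⟩ := D.denR h _ c1.2
  refine ⟨q0 * q1, Den.mul ⟨hq0, hq00, hq0i⟩ ⟨hq1, hq10, hq1i⟩, q1 * (q0 * c0.1),
    (D.R J).mul_mem hq1 hq0c, q0 * (q1 * c1.1), (D.R J).mul_mem hq0 hq1c, ?_⟩
  linear_combination (-(q0 * q1)) * e2

/-- localisation of pairs, surjectivity -/
theorem surj_pair {J J' : ObZ} (h : J ≤ J') (w : K) (hw0 : w ≠ 0)
    (hw : w ∈ D.A (D.s c01 J)) (hwi : w⁻¹ ∈ D.A (D.s c01 J))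
    (m0 : D.V F (D.s c0 J')) (m1 : D.V F (D.s c1 J'))
    (hm : D.ac F (D.le0 J') 1 (D.A _).one_mem m0 =
      D.ac F (D.le1 J') w (D.mono (D.s_mono c01 h) hw) m1) :
    ∃ (g : K) (hg : D.Den J J' g) (x0 : D.V F (D.s c0 J)) (x1 : D.V F (D.s c1 J)),
      D.ac F (D.le0 J) 1 (D.A _).one_mem x0 = D.ac F (D.le1 J) w hw x1 ∧
      D.ac F le_rfl g (D.R_le c0 J' (D.R_mono h hg.mem)) m0 =
        D.ac F (D.s_mono c0 h) 1 (D.A _).one_mem x0 ∧
      D.ac F le_rfl g (D.R_le c1 J' (D.R_mono h hg.mem)) m1 =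
        D.ac F (D.s_mono c1 h) 1 (D.A _).one_mem x1 := by
  by_cases hs : D.special J' → D.special J
  · exact surj_same h hs w hw m0 m1 hm
  · push Not at hs
    obtain ⟨hs', hs⟩ := hs
    obtain ⟨hde0, hde1⟩ := D.degen J hs
    obtain ⟨t0, ht0, t1, ht1, ht00, ht10, hti0, hti1, p0, p1, p01, hp⟩ := D.part h hs hs'
    obtain ⟨a, q, hq, x, x', r1, r2, r3⟩ := surj_half h c0 c1 hde1 t0 t1 ht0 ht1 ht10 hti1 p0 p01
      w hw0 hw hwi m0 m1 hm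
    have p01' : ∀ f ∈ D.A (D.s c01 J'), ∃ n : ℕ, ∃ h ∈ D.R J, h ≠ 0 ∧ h⁻¹ ∈ D.R J' ∧
        h * (t1 * t0) ^ n * f ∈ D.R J := by
      rw [mul_comm t1 t0]; exact p01
    have hwii : (w⁻¹)⁻¹ ∈ D.A (D.s c01 J) := by rw [inv_inv]; exact hw
    have hm' : D.ac F (D.leE c1 J') 1 (D.A _).one_mem m1 =
        D.ac F (D.leE c0 J') w⁻¹ (D.mono (D.s_mono c01 h) hwi) m0 := by
      have e := congrArg (D.ac F le_rfl w⁻¹ (D.mono (D.s_mono c01 h) hwi)) hm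
      rw [ac_ac, ac_ac, ac_congr _ _ (mul_inv_cancel₀ hw0), ac_congr _ _ (one_mul w⁻¹)] at e
      exact e.symm
    obtain ⟨b, q', hq', y', y, s1, s2, s3⟩ := surj_half h c1 c0 hde0 t1 t0 ht1 ht0 ht00 hti0 p1 p01'
      w⁻¹ (inv_ne_zero hw0) hwi hwii m1 m0 hm'
    have s1' : D.ac F (D.le0 J) 1 (D.A _).one_mem y = D.ac F (D.le1 J) w hw y' := by
      have e := congrArg (D.ac F le_rfl w hw) s1
      rw [ac_ac, ac_ac, ac_congr _ _ (inv_mul_cancel₀ hw0), ac_congr _ _ (one_mul w)] at e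
      exact e.symm
    obtain ⟨g, hg, b0, hb0, b1, hb1, eg⟩ := exists_partition h ht0 ht1 hp a b
    -- final denominator
    have hB0 : q' * b0 ∈ D.R J := (D.R J).mul_mem hq'.mem hb0
    have hB1 : q * b1 ∈ D.R J := (D.R J).mul_mem hq.mem hb1
    have htot : (q * q') * g = (q * t0 ^ a) * (q' * b0) + (q' * t1 ^ b) * (q * b1) := by
      rw [eg]; ring
    have key : ∀ (e : Ch) (m : D.V F (D.s e J')) (x y : D.V F (D.s e J))
        (_ : D.ac F le_rfl (q * t0 ^ a) (D.R_le e J' (D.R_mono h ((D.R J).mul_mem hq.mem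
          ((D.R J).pow_mem ht0 a)))) m = D.ac F (D.s_mono e h) 1 (D.A _).one_mem x)
        (_ : D.ac F le_rfl (q' * t1 ^ b) (D.R_le e J' (D.R_mono h ((D.R J).mul_mem hq'.mem
          ((D.R J).pow_mem ht1 b)))) m = D.ac F (D.s_mono e h) 1 (D.A _).one_mem y),
        D.ac F le_rfl ((q * q') * g) (D.R_le e J' (D.R_mono h ((hq.mul hq').mul hg).mem)) m =
          D.ac F (D.s_mono e h) 1 (D.A _).one_mem
            (D.ac F le_rfl (q' * b0) (D.R_le e J hB0) x +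
              D.ac F le_rfl (q * b1) (D.R_le e J hB1) y) := by
      intro e m x y ex ey
      rw [ac_congr _ _ htot, ac_add _ ((D.A _).mul_mem
        (D.R_le e J' (D.R_mono h ((D.R J).mul_mem hq.mem ((D.R J).pow_mem ht0 a))))
        (D.R_le e J' (D.R_mono h hB0))) ((D.A _).mul_mem
        (D.R_le e J' (D.R_mono h ((D.R J).mul_mem hq'.mem ((D.R J).pow_mem ht1 b))))
        (D.R_le e J' (D.R_mono h hB1)))]
      rw [← ac_ac (F := F) le_rfl le_rfl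
        (D.R_le e J' (D.R_mono h ((D.R J).mul_mem hq.mem ((D.R J).pow_mem ht0 a))))
        (D.R_le e J' (D.R_mono h hB0)), ex]
      rw [← ac_ac (F := F) le_rfl le_rfl
        (D.R_le e J' (D.R_mono h ((D.R J).mul_mem hq'.mem ((D.R J).pow_mem ht1 b))))
        (D.R_le e J' (D.R_mono h hB1)), ey, map_add]
      congr 1
      · exact ac_comm _ _ _ _ _ _ _ _ (mul_comm _ _) x
      · exact ac_comm _ _ _ _ _ _ _ _ (mul_comm _ _) y
    refine ⟨(q * q') * g, (hq.mul hq').mul hg, _, _, ?_, key c0 m0 x y r2 s3, key c1 m1 x' y' r3 s2⟩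
    rw [map_add, map_add]
    congr 1
    · have a2 : D.ac F (D.le0 J) 1 (D.A _).one_mem
          (D.ac F le_rfl (q' * b0) (D.R_le c0 J hB0) x) =
          D.ac F le_rfl (q' * b0) (D.R_le c01 J hB0)
            (D.ac F (D.le0 J) 1 (D.A _).one_mem x) :=
        ac_comm _ _ _ _ _ _ _ _ (mul_comm _ _) x
      rw [a2, r1]
      exact ac_comm _ _ _ _ _ _ _ _ (mul_comm _ _) x'
    · have a2 : D.ac F (D.le0 J) 1 (D.A _).one_mem
          (D.ac F le_rfl (q * b1) (D.R_le c0 J hB1) y) =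
          D.ac F le_rfl (q * b1) (D.R_le c01 J hB1)
            (D.ac F (D.le0 J) 1 (D.A _).one_mem y) :=
        ac_comm _ _ _ _ _ _ _ _ (mul_comm _ _) y
      rw [a2, s1']
      exact ac_comm _ _ _ _ _ _ _ _ (mul_comm _ _) y'

/-- localisation of pairs, injectivity -/
theorem inj_pair {J J' : ObZ} (h : J ≤ J') (w : K) (hw0 : w ≠ 0)
    (hw : w ∈ D.A (D.s c01 J)) (hwi : w⁻¹ ∈ D.A (D.s c01 J))
    (x0 : D.V F (D.s c0 J)) (x1 : D.V F (D.s c1 J))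
    (hx : D.ac F (D.le0 J) 1 (D.A _).one_mem x0 = D.ac F (D.le1 J) w hw x1)
    (h0 : D.ac F (D.s_mono c0 h) 1 (D.A _).one_mem x0 = 0)
    (h1 : D.ac F (D.s_mono c1 h) 1 (D.A _).one_mem x1 = 0) :
    ∃ (g : K) (hg : D.Den J J' g), D.ac F le_rfl g (D.R_le c0 J hg.mem) x0 = 0 ∧
      D.ac F le_rfl g (D.R_le c1 J hg.mem) x1 = 0 := by
  by_cases hs : D.special J' → D.special J
  · exact inj_same h hs x0 x1 h0 h1
  · push Not at hs
    obtain ⟨hs', hs⟩ := hs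
    obtain ⟨hde0, hde1⟩ := D.degen J hs
    obtain ⟨t0, ht0, t1, ht1, ht00, ht10, hti0, hti1, p0, p1, p01, hp⟩ := D.part h hs hs'
    obtain ⟨a, q, hq, r1, r2⟩ := inj_half h c0 c1 hde1 t0 ht0 p0 w hw0 hw hwi x0 x1 hx h0
    have hwii : (w⁻¹)⁻¹ ∈ D.A (D.s c01 J) := by rw [inv_inv]; exact hw
    have hx' : D.ac F (D.leE c1 J) 1 (D.A _).one_mem x1 =
        D.ac F (D.leE c0 J) w⁻¹ hwi x0 := by
      have e := congrArg (D.ac F le_rfl w⁻¹ hwi) hx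
      rw [ac_ac, ac_ac, ac_congr _ _ (mul_inv_cancel₀ hw0), ac_congr _ _ (one_mul w⁻¹)] at e
      exact e.symm
    obtain ⟨b, q', hq', s1, s2⟩ := inj_half h c1 c0 hde0 t1 ht1 p1 w⁻¹ (inv_ne_zero hw0) hwi hwii
      x1 x0 hx' h1
    obtain ⟨g, hg, b0, hb0, b1, hb1, eg⟩ := exists_partition h ht0 ht1 hp a b
    have hB0 : q' * b0 ∈ D.R J := (D.R J).mul_mem hq'.mem hb0
    have hB1 : q * b1 ∈ D.R J := (D.R J).mul_mem hq.mem hb1
    have htot : (q * q') * g = (q * t0 ^ a) * (q' * b0) + (q' * t1 ^ b) * (q * b1) := by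
      rw [eg]; ring
    have key : ∀ (e : Ch) (x : D.V F (D.s e J))
        (_ : D.ac F le_rfl (q * t0 ^ a) (D.R_le e J ((D.R J).mul_mem hq.mem
          ((D.R J).pow_mem ht0 a))) x = 0)
        (_ : D.ac F le_rfl (q' * t1 ^ b) (D.R_le e J ((D.R J).mul_mem hq'.mem
          ((D.R J).pow_mem ht1 b))) x = 0),
        D.ac F le_rfl ((q * q') * g) (D.R_le e J ((hq.mul hq').mul hg).mem) x = 0 := by
      intro e x ex ey
      rw [ac_congr _ _ htot, ac_add _ ((D.A _).mul_mem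
        (D.R_le e J ((D.R J).mul_mem hq.mem ((D.R J).pow_mem ht0 a)))
        (D.R_le e J hB0)) ((D.A _).mul_mem
        (D.R_le e J ((D.R J).mul_mem hq'.mem ((D.R J).pow_mem ht1 b)))
        (D.R_le e J hB1))]
      rw [← ac_ac (F := F) le_rfl le_rfl
        (D.R_le e J ((D.R J).mul_mem hq.mem ((D.R J).pow_mem ht0 a)))
        (D.R_le e J hB0), ex]
      rw [← ac_ac (F := F) le_rfl le_rfl
        (D.R_le e J ((D.R J).mul_mem hq'.mem ((D.R J).pow_mem ht1 b)))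
        (D.R_le e J hB1), ey, map_zero, map_zero, add_zero]
    exact ⟨(q * q') * g, (hq.mul hq').mul hg, key c0 x0 r1 s2, key c1 x1 r2 s1⟩

end TCSys

end BadRed
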