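/-
MP_55c1e7_ag, box B3: the functor `Psi : CohRep D.src ⥤ CohRep (D.targ b)`,
`Psi F (J, c)` = sections of `F ⊗ L ^ (lab b c)` over the preimage of `J`
= `{(m₀, m₁) ∈ F(s c0 J) × F(s c1 J) : m₀ = u ^ (lab b c) m₁ on F(s c01 J)}`.
-/
import Pool.Agent.Lib.MP_55c1e7_ag.LocPair
import Pool.Agent.Lib.MP_55c1e7_ag.B3b

open CategoryTheory CategoryTheory.Limits MP55c1e7

namespace BadRed

open Ch LocData

variable {k K : Type} [Field k] [Field K] [Algebra k K]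
variable {ObX ObZ I Lam : Type} [Preorder ObX] [SemilatticeSup ObZ]

namespace TCSys

variable (D : TCSys k K ObX ObZ I Lam)

/-- sections of `F ⊗ L ^ n` over `J` -/
def H0k (F : CohRep D.src) (J : ObZ) (n : ℤ) :
    Submodule k (D.V F (D.s c0 J) × D.V F (D.s c1 J)) where
  carrier := {m | D.ac F (D.le0 J) 1 (D.A _).one_mem m.1 =
    D.ac F (D.le1 J) (D.u J ^ n) (D.u_zpow_mem J n) m.2}
  add_mem' {a b} ha hb := by
    change D.ac F (D.le0 J) 1 (D.A _).one_mem (a.1 + b.1) =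
      D.ac F (D.le1 J) (D.u J ^ n) (D.u_zpow_mem J n) (a.2 + b.2)
    rw [map_add, map_add]
    exact congrArg₂ (· + ·) ha hb
  zero_mem' := by
    change D.ac F (D.le0 J) 1 (D.A _).one_mem 0 =
      D.ac F (D.le1 J) (D.u J ^ n) (D.u_zpow_mem J n) 0
    rw [map_zero, map_zero]
  smul_mem' r a ha := by
    change D.ac F (D.le0 J) 1 (D.A _).one_mem (r • a.1) =
      D.ac F (D.le1 J) (D.u J ^ n) (D.u_zpow_mem J n) (r • a.2)
    rw [map_smul, map_smul]
    exact congrArg (r • ·) ha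

lemma mem_H0k (F : CohRep D.src) (J : ObZ) (n : ℤ) (m : D.V F (D.s c0 J) × D.V F (D.s c1 J)) :
    m ∈ D.H0k F J n ↔ D.ac F (D.le0 J) 1 (D.A _).one_mem m.1 =
      D.ac F (D.le1 J) (D.u J ^ n) (D.u_zpow_mem J n) m.2 := Iff.rfl

lemma mem_H0k_iff (F : CohRep D.src) (J : ObZ) (n : ℤ)
    (m : D.V F (D.s c0 J) × D.V F (D.s c1 J)) : m ∈ D.H0k F J n ↔ m ∈ (D.tc F J).H0 n :=
  (D.mem_tc_H0 F J n m).symm

/-- the coefficient on the chart `e` of the multiplication by `f : L ^ n → L ^ n'` followed by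
the restriction from `J` to `J'` -/
def cf (e : Ch) (J J' : ObZ) (n n' : ℤ) (f : K) : K :=
  f * D.gen (D.s e J) ^ n * D.gen (D.s e J') ^ (-n')

lemma cf_mem (e : Ch) {J J' : ObZ} (h : J ≤ J') {n n' : ℤ} {f : K}
    (hf : f ∈ pw (D.A (D.s e J')) (D.gen (D.s e J')) (n' - n)) :
    D.cf e J J' n n' f ∈ D.A (D.s e J') := by
  have h1 : (D.gen (D.s e J) / D.gen (D.s e J')) ^ n ∈ D.A (D.s e J') :=
    zpow_mem_of (D.cart (D.s_mono e h)).1 (by
      rw [inv_div]; exact (D.cart (D.s_mono e h)).2) n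
  have h2 := (D.A (D.s e J')).mul_mem (mem_pw.mp hf) h1
  have e2 : f * D.gen (D.s e J') ^ (-(n' - n)) * (D.gen (D.s e J) / D.gen (D.s e J')) ^ n =
      D.cf e J J' n n' f := by
    unfold cf
    rw [div_zpow, show -(n' - n) = -n' + n by ring, zpow_add₀ (D.gen_ne _)]
    have := zpow_ne_zero n (D.gen_ne (D.s e J'))
    field_simp
  rwa [e2] at h2

lemma cf_mem0 {J J' : ObZ} (h : J ≤ J') {n n' : ℤ} {f : K} (hf : f ∈ D.HH (n' - n) J') :
    D.cf c0 J J' n n' f ∈ D.A (D.s c0 J') := D.cf_mem c0 h hf.1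

lemma cf_mem1 {J J' : ObZ} (h : J ≤ J') {n n' : ℤ} {f : K} (hf : f ∈ D.HH (n' - n) J') :
    D.cf c1 J J' n n' f ∈ D.A (D.s c1 J') := D.cf_mem c1 h hf.2

/-- compatibility of the coefficients on the two charts -/
lemma cf_compat (J J' : ObZ) (n n' : ℤ) (f : K) :
    D.u J ^ n * D.cf c0 J J' n n' f = D.cf c1 J J' n n' f * D.u J' ^ n' := by
  unfold cf u
  rw [div_zpow, div_zpow, zpow_neg, zpow_neg]
  have h0 := zpow_ne_zero n (D.gen_ne (D.s c0 J))
  have h1 := zpow_ne_zero n (D.gen_ne (D.s c1 J))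
  have h2 := zpow_ne_zero n' (D.gen_ne (D.s c0 J'))
  have h3 := zpow_ne_zero n' (D.gen_ne (D.s c1 J'))
  field_simp

lemma cf_mul (e : Ch) (J J' J'' : ObZ) (n n' n'' : ℤ) (f g : K) :
    D.cf e J J' n n' f * D.cf e J' J'' n' n'' g = D.cf e J J'' n n'' (f * g) := by
  unfold cf
  rw [zpow_neg, zpow_neg]
  have h2 := zpow_ne_zero n' (D.gen_ne (D.s e J'))
  field_simp

lemma cf_self (e : Ch) (J : ObZ) (n : ℤ) (f : K) : D.cf e J J n n f = f := by
  unfold cf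
  rw [zpow_neg]
  have h2 := zpow_ne_zero n (D.gen_ne (D.s e J))
  field_simp

lemma cf_add (e : Ch) (J J' : ObZ) (n n' : ℤ) (f g : K) :
    D.cf e J J' n n' (f + g) = D.cf e J J' n n' f + D.cf e J J' n n' g := by
  unfold cf; ring

lemma cf_smul (e : Ch) (J J' : ObZ) (n n' : ℤ) (r : k) (f : K) :
    D.cf e J J' n n' (r • f) = r • D.cf e J J' n n' f := by
  unfold cf
  rw [smul_mul_assoc, smul_mul_assoc]

lemma cf_zero (e : Ch) (J J' : ObZ) (n n' : ℤ) : D.cf e J J' n n' 0 = 0 := by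
  unfold cf; ring

/-- multiplication by `f : L ^ n → L ^ n'` and restriction from `J` to `J'` -/
def resH (F : CohRep D.src) {J J' : ObZ} (h : J ≤ J') {n n' : ℤ} (f : K)
    (hf : f ∈ D.HH (n' - n) J') : D.H0k F J n →ₗ[k] D.H0k F J' n' where
  toFun m := ⟨(D.ac F (D.s_mono c0 h) _ (D.cf_mem0 h hf) m.1.1,
    D.ac F (D.s_mono c1 h) _ (D.cf_mem1 h hf) m.1.2), by
      rw [mem_H0k]
      dsimp only
      have a1 : D.ac F (D.le0 J') 1 (D.A _).one_mem
          (D.ac F (D.s_mono c0 h) _ (D.cf_mem0 h hf) m.1.1) =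
          D.ac F (D.s_mono c01 h) _ (D.mono (D.le0 J') (D.cf_mem0 h hf))
            (D.ac F (D.le0 J) 1 (D.A _).one_mem m.1.1) :=
        ac_comm _ _ _ _ _ _ _ _ (mul_comm _ _) _
      rw [a1, (D.mem_H0k F J n m.1).mp m.2]
      exact ac_comm _ _ _ _ _ _ _ _ (D.cf_compat J J' n n' f) _⟩
  map_add' x y := by
    apply Subtype.ext
    exact Prod.ext (map_add _ _ _) (map_add _ _ _)
  map_smul' r x := by
    apply Subtype.ext
    exact Prod.ext (map_smul _ _ _) (map_smul _ _ _)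

@[simp] lemma resH_fst (F : CohRep D.src) {J J' : ObZ} (h : J ≤ J') {n n' : ℤ} (f : K)
    (hf : f ∈ D.HH (n' - n) J') (m : D.H0k F J n) : (D.resH F h f hf m).1.1 =
      D.ac F (D.s_mono c0 h) _ (D.cf_mem0 h hf) m.1.1 := rfl

@[simp] lemma resH_snd (F : CohRep D.src) {J J' : ObZ} (h : J ≤ J') {n n' : ℤ} (f : K)
    (hf : f ∈ D.HH (n' - n) J') (m : D.H0k F J n) : (D.resH F h f hf m).1.2 =
      D.ac F (D.s_mono c1 h) _ (D.cf_mem1 h hf) m.1.2 := rfl

lemma H0k_ext {F : CohRep D.src} {J : ObZ} {n : ℤ} {x y : D.H0k F J n}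
    (h0 : x.1.1 = y.1.1) (h1 : x.1.2 = y.1.2) : x = y := Subtype.ext (Prod.ext h0 h1)

open Classical in
/-- the action of a hom of `D.targ b` on sections -/
noncomputable def pmap (b : Bool) (F : CohRep D.src) {x y : ObZ × Bool} (f : K)
    (hf : f ∈ (D.targ b).H x y) :
    D.H0k F x.1 (lab b x.2) →ₗ[k] D.H0k F y.1 (lab b y.2) :=
  if h : x.1 ≤ y.1 then D.resH F h f hf.1 else 0

lemma pmap_of_le (b : Bool) (F : CohRep D.src) {x y : ObZ × Bool} (f : K)
    (hf : f ∈ (D.targ b).H x y) (h : x.1 ≤ y.1) : D.pmap b F f hf = D.resH F h f hf.1 :=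
  dif_pos h

lemma pmap_zero (b : Bool) (F : CohRep D.src) {x y : ObZ × Bool} (f : K)
    (hf : f ∈ (D.targ b).H x y) (h0 : f = 0) : D.pmap b F f hf = 0 := by
  unfold pmap
  split_ifs with h
  · ext m
    · rw [resH_fst, ac_congr _ _ (show D.cf c0 x.1 y.1 (lab b x.2) (lab b y.2) f = 0 by
        rw [h0, cf_zero]), ac_zero]
      rfl
    · rw [resH_snd, ac_congr _ _ (show D.cf c1 x.1 y.1 (lab b x.2) (lab b y.2) f = 0 by
        rw [h0, cf_zero]), ac_zero]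
      rfl
  · rfl

lemma pmap_congr (b : Bool) (F : CohRep D.src) {x y : ObZ × Bool} {f g : K}
    (hf : f ∈ (D.targ b).H x y) (e : f = g) : D.pmap b F f hf = D.pmap b F g (e ▸ hf) := by
  subst e; rfl

lemma pmap_mul (b : Bool) (F : CohRep D.src) {x y z : ObZ × Bool} {f g : K}
    (hf : f ∈ (D.targ b).H x y) (hg : g ∈ (D.targ b).H y z) (m : D.H0k F x.1 (lab b x.2)) :
    D.pmap b F (f * g) ((D.targ b).mul_mem hf hg) m = D.pmap b F g hg (D.pmap b F f hf m) := by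
  rcases hf.2 with hxy | hf0
  · rcases hg.2 with hyz | hg0
    · rw [D.pmap_of_le b F _ _ (hxy.trans hyz), D.pmap_of_le b F _ _ hxy,
        D.pmap_of_le b F _ _ hyz]
      apply D.H0k_ext
      · rw [resH_fst, resH_fst, resH_fst, ac_ac]
        exact ac_congr _ _ (D.cf_mul c0 _ _ _ _ _ _ _ _).symm _
      · rw [resH_snd, resH_snd, resH_snd, ac_ac]
        exact ac_congr _ _ (D.cf_mul c1 _ _ _ _ _ _ _ _).symm _
    · rw [D.pmap_zero b F _ _ (show f * g = 0 by rw [hg0, mul_zero]),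
        D.pmap_zero b F _ hg hg0]
      rfl
  · rw [D.pmap_zero b F _ _ (show f * g = 0 by rw [hf0, zero_mul]),
      D.pmap_zero b F _ hf hf0, LinearMap.zero_apply, LinearMap.zero_apply, map_zero]

lemma pmap_one (b : Bool) (F : CohRep D.src) {x : ObZ × Bool} (h1 : (1 : K) ∈ (D.targ b).H x x)
    (m : D.H0k F x.1 (lab b x.2)) : D.pmap b F 1 h1 m = m := by
  rw [D.pmap_of_le b F _ _ le_rfl]
  apply D.H0k_ext
  · rw [resH_fst, ac_congr _ _ (D.cf_self c0 _ _ _), ac_one']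
  · rw [resH_snd, ac_congr _ _ (D.cf_self c1 _ _ _), ac_one']

/-- the sections functor on objects -/
noncomputable def psiObj (b : Bool) (F : CohRep D.src) : Cat (D.targ b) ⥤ ModuleCat.{0} k where
  obj x := ModuleCat.of k (D.H0k F x.of.1 (lab b x.of.2))
  map f := ModuleCat.ofHom (D.pmap b F (val f) (val_mem f))
  map_id x := by
    ext m : 2
    exact D.pmap_one b F (LocData.one_mem x.of) m
  map_comp f g := by
    ext m : 2
    exact D.pmap_mul b F (val_mem f) (val_mem g) m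

lemma act_psiObj (b : Bool) (F : CohRep D.src) {x y : ObZ × Bool} {f : K}
    (hf : f ∈ (D.targ b).H x y) (m : D.H0k F x.1 (lab b x.2)) :
    act (D.psiObj b F) f hf m = D.pmap b F f hf m := rfl

lemma pmap_add (b : Bool) (F : CohRep D.src) {x y : ObZ × Bool} {f g : K}
    (hf : f ∈ (D.targ b).H x y) (hg : g ∈ (D.targ b).H x y) (m : D.H0k F x.1 (lab b x.2)) :
    D.pmap b F (f + g) (add_mem hf hg) m = D.pmap b F f hf m + D.pmap b F g hg m := by
  by_cases h : x.1 ≤ y.1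
  · rw [D.pmap_of_le b F _ _ h, D.pmap_of_le b F _ _ h, D.pmap_of_le b F _ _ h]
    apply D.H0k_ext
    · change D.ac F _ _ _ _ = D.ac F _ _ _ _ + D.ac F _ _ _ _
      rw [ac_congr _ _ (D.cf_add c0 _ _ _ _ _ _)]
      exact ac_add _ _ _ _
    · change D.ac F _ _ _ _ = D.ac F _ _ _ _ + D.ac F _ _ _ _
      rw [ac_congr _ _ (D.cf_add c1 _ _ _ _ _ _)]
      exact ac_add _ _ _ _
  · have hf0 : f = 0 := hf.2.resolve_left h
    have hg0 : g = 0 := hg.2.resolve_left h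
    rw [D.pmap_zero b F _ _ (show f + g = 0 by rw [hf0, hg0, add_zero]),
      D.pmap_zero b F _ hf hf0, D.pmap_zero b F _ hg hg0]
    simp

lemma pmap_smul (b : Bool) (F : CohRep D.src) {x y : ObZ × Bool} (r : k) {f : K}
    (hf : f ∈ (D.targ b).H x y) (m : D.H0k F x.1 (lab b x.2)) :
    D.pmap b F (r • f) (Submodule.smul_mem _ r hf) m = r • D.pmap b F f hf m := by
  by_cases h : x.1 ≤ y.1
  · rw [D.pmap_of_le b F _ _ h, D.pmap_of_le b F _ _ h]
    apply D.H0k_ext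
    · change D.ac F _ _ _ _ = r • D.ac F _ _ _ _
      rw [ac_congr _ _ (D.cf_smul c0 _ _ _ _ _ _)]
      exact ac_smul _ _ _ _
    · change D.ac F _ _ _ _ = r • D.ac F _ _ _ _
      rw [ac_congr _ _ (D.cf_smul c1 _ _ _ _ _ _)]
      exact ac_smul _ _ _ _
  · have hf0 : f = 0 := hf.2.resolve_left h
    rw [D.pmap_zero b F _ _ (show r • f = 0 by rw [hf0, smul_zero]),
      D.pmap_zero b F _ hf hf0, LinearMap.zero_apply, smul_zero]

/-- the denominators act as expected -/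
lemma pmap_R (b : Bool) (F : CohRep D.src) {x : ObZ × Bool} {g : K} (hg : g ∈ D.R x.1)
    (hg' : g ∈ (D.targ b).H x x) (m : D.H0k F x.1 (lab b x.2)) :
    (D.pmap b F g hg' m).1 = (D.ac F le_rfl g (D.R_le c0 x.1 hg) m.1.1,
      D.ac F le_rfl g (D.R_le c1 x.1 hg) m.1.2) := by
  rw [D.pmap_of_le b F _ _ le_rfl]
  apply Prod.ext
  · rw [resH_fst]
    exact ac_congr _ _ (D.cf_self c0 _ _ _) _
  · rw [resH_snd]
    exact ac_congr _ _ (D.cf_self c1 _ _ _) _

lemma mem_targ_R (b : Bool) {x : ObZ × Bool} {g : K} (hg : g ∈ D.R x.1) :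
    g ∈ (D.targ b).H x x := mem_R.mpr hg

lemma psi_fin (b : Bool) (F : CohRep D.src) (a : ObZ × Bool) :
    ∃ (n : ℕ) (e : Fin n → (D.psiObj b F).obj ⟨a⟩), ∀ m : (D.psiObj b F).obj ⟨a⟩,
      ∃ c : Fin n → (D.targ b).R a, m = ∑ i, act (D.psiObj b F) (c i).1 (mem_R.mpr (c i).2) (e i) := by
  have hfg := D.tc_H0_fg F a.1 (lab b a.2)
  rw [Submodule.fg_iff_exists_fin_generating_family] at hfg
  obtain ⟨n, e, he⟩ := hfg
  have hmem : ∀ i, e i ∈ D.H0k F a.1 (lab b a.2) := by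
    intro i
    rw [mem_H0k_iff, ← he]
    exact Submodule.subset_span ⟨i, rfl⟩
  refine ⟨n, fun i => (⟨e i, hmem i⟩ : D.H0k F a.1 (lab b a.2)), fun m => ?_⟩
  have hm : (m : D.H0k F a.1 (lab b a.2)).1 ∈ Submodule.span (D.R a.1) (Set.range e) := by
    rw [he, ← mem_H0k_iff]
    exact (m : D.H0k F a.1 (lab b a.2)).2
  rw [Submodule.mem_span_range_iff_exists_fun] at hm
  obtain ⟨c, hc⟩ := hm
  refine ⟨c, ?_⟩
  change (m : D.H0k F a.1 (lab b a.2)) = ∑ i, D.pmap b F (c i).1 (D.mem_targ_R b (c i).2)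
    (⟨e i, hmem i⟩ : D.H0k F a.1 (lab b a.2))
  apply Subtype.ext
  rw [← hc, AddSubmonoidClass.coe_finsetSum]
  apply Finset.sum_congr rfl
  intro i _
  rw [D.pmap_R b F (c i).2]
  rfl

/-- change of the trivialisation from `J'` to `J` on `J'` -/
lemma v_mem (e : Ch) {J J' : ObZ} (h : J ≤ J') (n : ℤ) :
    (D.gen (D.s e J) / D.gen (D.s e J')) ^ n ∈ D.A (D.s e J') :=
  zpow_mem_of (D.cart (D.s_mono e h)).1 (by
    rw [inv_div]; exact (D.cart (D.s_mono e h)).2) n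

lemma psi_loc_surj (F : CohRep D.src) {J J' : ObZ} (h : J ≤ J') (n : ℤ)
    (m : D.H0k F J' n) (h1 : (1 : K) ∈ D.HH (n - n) J') :
    ∃ (g : K) (hg : D.Den J J' g) (x : D.H0k F J n),
      (D.ac F le_rfl g (D.R_le c0 J' (D.R_mono h hg.mem)) m.1.1,
        D.ac F le_rfl g (D.R_le c1 J' (D.R_mono h hg.mem)) m.1.2) = (D.resH F h 1 h1 x).1 := by
  have hw0 : D.u J ^ n ≠ 0 := zpow_ne_zero _ (D.u_ne J)
  have hwi : (D.u J ^ n)⁻¹ ∈ D.A (D.s c01 J) := by
    rw [← zpow_neg]; exact D.u_zpow_mem J (-n)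
  have hm := (D.mem_H0k F J' n m.1).mp m.2
  obtain ⟨g, hg, x0, x1, r, e0, e1⟩ := surj_pair h (D.u J ^ n) hw0 (D.u_zpow_mem J n) hwi
    (D.ac F le_rfl _ (D.v_mem c0 h (-n)) m.1.1) (D.ac F le_rfl _ (D.v_mem c1 h (-n)) m.1.2) (by
      have a1 : D.ac F (D.le0 J') 1 (D.A _).one_mem
          (D.ac F le_rfl _ (D.v_mem c0 h (-n)) m.1.1) =
          D.ac F le_rfl _ (D.mono (D.le0 J') (D.v_mem c0 h (-n)))
            (D.ac F (D.le0 J') 1 (D.A _).one_mem m.1.1) :=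
        ac_comm _ _ _ _ _ _ _ _ (mul_comm _ _) _
      rw [a1, hm]
      apply ac_comm
      unfold u
      have h0 := zpow_ne_zero n (D.gen_ne (D.s c0 J))
      have h1 := zpow_ne_zero n (D.gen_ne (D.s c1 J))
      have h2 := zpow_ne_zero n (D.gen_ne (D.s c0 J'))
      have h3 := zpow_ne_zero n (D.gen_ne (D.s c1 J'))
      simp only [div_zpow, zpow_neg]
      field_simp)
  refine ⟨g, hg, ⟨(x0, x1), r⟩, ?_⟩
  have key : ∀ (e : Ch) (m : D.V F (D.s e J')) (x : D.V F (D.s e J))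
      (hc : D.cf e J J' n n 1 ∈ D.A (D.s e J')),
      D.ac F le_rfl g (D.R_le e J' (D.R_mono h hg.mem))
        (D.ac F le_rfl _ (D.v_mem e h (-n)) m) = D.ac F (D.s_mono e h) 1 (D.A _).one_mem x →
      D.ac F le_rfl g (D.R_le e J' (D.R_mono h hg.mem)) m =
        D.ac F (D.s_mono e h) (D.cf e J J' n n 1) hc x := by
    intro e m x hc hx
    have a := congrArg (D.ac F le_rfl _ (D.v_mem e h n)) hx
    rw [ac_ac, ac_ac, ac_ac] at a
    have h2 := zpow_ne_zero n (D.gen_ne (D.s e J'))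
    have h3 := zpow_ne_zero n (D.gen_ne (D.s e J))
    rw [ac_congr _ _ (show (D.gen (D.s e J) / D.gen (D.s e J')) ^ (-n) *
      (g * (D.gen (D.s e J) / D.gen (D.s e J')) ^ n) = g by
        simp only [div_zpow, zpow_neg]; field_simp)] at a
    rw [a]
    apply ac_congr
    unfold cf
    simp only [div_zpow, zpow_neg]
    field_simp
  exact Prod.ext (key c0 _ _ _ e0) (key c1 _ _ _ e1)

lemma psi_loc_inj (F : CohRep D.src) {J J' : ObZ} (h : J ≤ J') (n : ℤ)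
    (x : D.H0k F J n) (h1 : (1 : K) ∈ D.HH (n - n) J') (hx : D.resH F h 1 h1 x = 0) :
    ∃ (g : K) (hg : D.Den J J' g), D.ac F le_rfl g (D.R_le c0 J hg.mem) x.1.1 = 0 ∧
      D.ac F le_rfl g (D.R_le c1 J hg.mem) x.1.2 = 0 := by
  have hw0 : D.u J ^ n ≠ 0 := zpow_ne_zero _ (D.u_ne J)
  have hwi : (D.u J ^ n)⁻¹ ∈ D.A (D.s c01 J) := by
    rw [← zpow_neg]; exact D.u_zpow_mem J (-n)
  have hx2 : (D.resH F h 1 h1 x).1 = 0 := congrArg Subtype.val hx
  have key : ∀ (e : Ch) (x : D.V F (D.s e J))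
      (hc : D.cf e J J' n n 1 ∈ D.A (D.s e J')),
      D.ac F (D.s_mono e h) (D.cf e J J' n n 1) hc x = 0 →
      D.ac F (D.s_mono e h) 1 (D.A _).one_mem x = 0 := by
    intro e x hc hx
    have a := congrArg (D.ac F le_rfl _ (D.v_mem e h (-n))) hx
    have h2 := zpow_ne_zero n (D.gen_ne (D.s e J'))
    have h3 := zpow_ne_zero n (D.gen_ne (D.s e J))
    rw [ac_ac, map_zero, ac_congr _ _ (show D.cf e J J' n n 1 *
      (D.gen (D.s e J) / D.gen (D.s e J')) ^ (-n) = 1 by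
        unfold cf; simp only [div_zpow, zpow_neg]; field_simp)] at a
    exact a
  exact inj_pair h (D.u J ^ n) hw0 (D.u_zpow_mem J n) hwi x.1.1 x.1.2 x.2
    (key c0 _ _ (congrArg Prod.fst hx2)) (key c1 _ _ (congrArg Prod.snd hx2))

lemma one_mem_HH (b c : Bool) (J : ObZ) : (1 : K) ∈ D.HH (lab b c - lab b c) J := by
  rw [sub_self, HH_zero]
  exact (D.R J).one_mem

lemma psi_loc_surj' (b : Bool) (F : CohRep D.src) {J J' : ObZ} (h : J ≤ J') (c : Bool)
    (h1 : (1 : K) ∈ (D.targ b).H (J, c) (J', c)) (m : D.H0k F J' (lab b c)) :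
    ∃ (g : K) (hb : g ∈ (D.targ b).H (J', c) (J', c)) (x : D.H0k F J (lab b c)),
      g ∈ D.R J ∧ g ≠ 0 ∧ g⁻¹ ∈ D.R J' ∧
      D.pmap b F (x := (J', c)) (y := (J', c)) g hb m =
        D.pmap b F (x := (J, c)) (y := (J', c)) 1 h1 x := by
  obtain ⟨g, hg, x, e⟩ := D.psi_loc_surj F h (lab b c) m (D.one_mem_HH b c J')
  refine ⟨g, D.mem_targ_R b (x := (J', c)) (D.R_mono h hg.mem), x, hg.mem, hg.ne, hg.inv, ?_⟩
  apply Subtype.ext
  rw [D.pmap_R b F (x := (J', c)) (D.R_mono h hg.mem),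
    D.pmap_of_le b F (x := (J, c)) (y := (J', c)) _ _ h]
  exact e

lemma psi_loc_inj' (b : Bool) (F : CohRep D.src) {J J' : ObZ} (h : J ≤ J') (c : Bool)
    (h1 : (1 : K) ∈ (D.targ b).H (J, c) (J', c)) (x : D.H0k F J (lab b c))
    (hx : D.pmap b F (x := (J, c)) (y := (J', c)) 1 h1 x = 0) :
    ∃ (g : K) (ha : g ∈ (D.targ b).R (J, c)), g ≠ 0 ∧ g⁻¹ ∈ D.R J' ∧
      D.pmap b F (x := (J, c)) (y := (J, c)) g (mem_R.mpr ha) x = 0 := by
  rw [D.pmap_of_le b F (x := (J, c)) (y := (J', c)) _ _ h] at hx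
  obtain ⟨g, hg, e0, e1⟩ := D.psi_loc_inj F h (lab b c) x (D.one_mem_HH b c J') hx
  refine ⟨g, hg.mem, hg.ne, hg.inv, ?_⟩
  apply Subtype.ext
  rw [D.pmap_R b F (x := (J, c)) hg.mem]
  exact Prod.ext e0 e1

theorem isCohRep_psiObj (b : Bool) (F : CohRep D.src) : IsCohRep (D.psiObj b F) where
  map_add {x y} f g := by
    ext m : 2
    exact D.pmap_add b F (val_mem f) (val_mem g) m
  map_smul {x y} r f := by
    ext m : 2
    exact D.pmap_smul b F r (val_mem f) m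
  fin := D.psi_fin b F
  loc_surj := by
    rintro ⟨J, c⟩ ⟨J', c'⟩ ⟨h, hc⟩ m
    dsimp only at h hc
    subst hc
    obtain ⟨g, hb, x, hg, h0, hi, e⟩ := D.psi_loc_surj' b F h c
      ((D.targ b).rel_one (a := (J, c)) (b := (J', c)) ⟨h, rfl⟩) m
    exact ⟨g, mem_R.mp hb, x, hg, h0, hi, e⟩
  loc_inj := by
    rintro ⟨J, c⟩ ⟨J', c'⟩ ⟨h, hc⟩ x hx
    dsimp only at h hc
    subst hc
    obtain ⟨g, hg, h0, hi, e⟩ := D.psi_loc_inj' b F h c
      ((D.targ b).rel_one (a := (J, c)) (b := (J', c)) ⟨h, rfl⟩) x hx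
    exact ⟨g, hg, h0, hi, e⟩

/-- the sections functor on morphisms -/
noncomputable def psiHom {F G : CohRep D.src} (φ : F ⟶ G) (J : ObZ) (n : ℤ) :
    D.H0k F J n →ₗ[k] D.H0k G J n where
  toFun m := ⟨(co φ _ m.1.1, co φ _ m.1.2), by
    rw [mem_H0k]
    dsimp only
    rw [← co_ac, ← co_ac, (D.mem_H0k F J n m.1).mp m.2]⟩
  map_add' x y := by
    apply Subtype.ext
    exact Prod.ext (map_add _ _ _) (map_add _ _ _)
  map_smul' r x := by
    apply Subtype.ext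
    exact Prod.ext (map_smul _ _ _) (map_smul _ _ _)

lemma psiHom_coe {F G : CohRep D.src} (φ : F ⟶ G) (J : ObZ) (n : ℤ) (m : D.H0k F J n) :
    (D.psiHom φ J n m).1 = (co φ _ m.1.1, co φ _ m.1.2) := rfl

lemma psiHom_pmap (b : Bool) {F G : CohRep D.src} (φ : F ⟶ G) {x y : ObZ × Bool} {f : K}
    (hf : f ∈ (D.targ b).H x y) (m : D.H0k F x.1 (lab b x.2)) :
    D.psiHom φ y.1 (lab b y.2) (D.pmap b F f hf m) =
      D.pmap b G f hf (D.psiHom φ x.1 (lab b x.2) m) := by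
  by_cases h : x.1 ≤ y.1
  · rw [D.pmap_of_le b F _ _ h, D.pmap_of_le b G _ _ h]
    apply D.H0k_ext
    · exact co_ac φ _ _ _ _
    · exact co_ac φ _ _ _ _
  · have hf0 : f = 0 := hf.2.resolve_left h
    rw [D.pmap_zero b F _ hf hf0, D.pmap_zero b G _ hf hf0, LinearMap.zero_apply,
      LinearMap.zero_apply, map_zero]

/-- the sections functor -/
noncomputable def Psi (b : Bool) : CohRep D.src ⥤ CohRep (D.targ b) where
  obj F := ⟨D.psiObj b F, D.isCohRep_psiObj b F⟩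
  map {F G} φ := ObjectProperty.homMk
    { app := fun x => ModuleCat.ofHom (D.psiHom φ x.of.1 (lab b x.of.2))
      naturality := by
        intro x y f
        ext m : 2
        exact D.psiHom_pmap b φ (val_mem f) m }
  map_id F := by
    ext x m
    rfl
  map_comp φ ψ := by
    ext x m
    rfl

instance (b : Bool) : (D.Psi b).Additive where
  map_add {F G φ ψ} := by
    ext x m
    rfl

instance (b : Bool) : (D.Psi b).Linear k where
  map_smul {F G} φ r := by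
    ext x m
    rfl

/-- the components of `Psi φ` -/
lemma Psi_map_app (b : Bool) {F G : CohRep D.src} (φ : F ⟶ G) (x : ObZ × Bool)
    (m : D.H0k F x.1 (lab b x.2)) :
    ((((D.Psi b).map φ).hom.app ⟨x⟩).hom m : D.H0k G x.1 (lab b x.2)) =
      D.psiHom φ x.1 (lab b x.2) m := rfl

end TCSys

end BadRed
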