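/-
MP_55c1e7_ag, box B3b: the functor `D.Psi b` is left exact, and its behaviour on the class `D.E`.
-/
import Pool.Agent.Lib.MP_55c1e7_ag.Psi

open CategoryTheory CategoryTheory.Limits MP55c1e7

namespace BadRed

open Ch LocData

theorem exact_full_iff_pt {J : Type} [SmallCategory J] {k : Type} [Field k]
    (P : ObjectProperty (J ⥤ ModuleCat.{0} k)) [PtClosed P]
    (S : ShortComplex P.FullSubcategory) : S.Exact ↔
      ∀ (j : J) (m : S.X₂.obj.obj j), (S.g.hom.app j).hom m = 0 →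
        ∃ n, (S.f.hom.app j).hom n = m := by
  rw [← S.exact_map_iff_of_faithful P.ι, exact_iff_pt]
  rfl

variable {k K : Type} [Field k] [Field K] [Algebra k K]

namespace TCSys

variable {ObX ObZ I Lam : Type} [Preorder ObX] [SemilatticeSup ObZ] (D : TCSys k K ObX ObZ I Lam)

lemma psi_exact (b : Bool) (S : ShortComplex (CohRep D.src)) (hS : S.ShortExact) :
    (S.map (D.Psi b)).Exact ∧ Mono ((D.Psi b).map S.f) := by
  constructor
  · rw [exact_full_iff_pt]
    intro x m hm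
    have hm' : D.psiHom S.g x.of.1 (lab b x.of.2) (show D.H0k S.X₂ x.of.1 (lab b x.of.2) from m) = 0 :=
      hm
    have h0 := congrArg Subtype.val hm'
    obtain ⟨m', h1, h2⟩ := ker_H0 (fun U => shortExact_inj hS U) (fun U => shortExact_ex hS U)
      x.of.1 ((D.mem_H0k_iff _ _ _ _).mp (show D.H0k S.X₂ x.of.1 (lab b x.of.2) from m).2) h0
    refine ⟨(⟨m', (D.mem_H0k_iff _ _ _ _).mpr h1⟩ : D.H0k S.X₁ x.of.1 (lab b x.of.2)), ?_⟩
    exact Subtype.ext h2
  · rw [mono_full_iff_pt]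
    intro x m m' h
    have h' : D.psiHom S.f x.of.1 (lab b x.of.2)
        (show D.H0k S.X₁ x.of.1 (lab b x.of.2) from m) =
      D.psiHom S.f x.of.1 (lab b x.of.2) (show D.H0k S.X₁ x.of.1 (lab b x.of.2) from m') := h
    have h0 := congrArg Subtype.val h'
    have h1 := shortExact_inj hS _ (congrArg Prod.fst h0)
    have h2 := shortExact_inj hS _ (congrArg Prod.snd h0)
    exact D.H0k_ext h1 h2

theorem psi_left (b : Bool) : PreservesFiniteLimits (D.Psi b) :=
  ((D.Psi b).preservesFiniteLimits_tfae.out 0 3).mp (fun S hS => D.psi_exact b S hS)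

lemma lab_ge (b c : Bool) : -1 ≤ lab b c := by
  unfold lab
  split_ifs <;> norm_num

theorem psi_epi (b : Bool) (S : ShortComplex (CohRep D.src)) (hS : S.ShortExact)
    (h : D.E S.X₁) : Epi ((D.Psi b).map S.g) := by
  rw [epi_full_iff_pt]
  intro x m
  obtain ⟨m', h1, h2⟩ := E.surj hS h x.of.1 (lab_ge b x.of.2)
    ((D.mem_H0k_iff _ _ _ _).mp (show D.H0k S.X₃ x.of.1 (lab b x.of.2) from m).2)
  refine ⟨(⟨m', (D.mem_H0k_iff _ _ _ _).mpr h1⟩ : D.H0k S.X₂ x.of.1 (lab b x.of.2)), ?_⟩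
  exact Subtype.ext h2

theorem psi_ker (b : Bool) (S : ShortComplex (CohRep D.src)) (hS : S.ShortExact)
    (h : D.E S.X₂) (he : Epi ((D.Psi b).map S.g)) : D.E S.X₁ := by
  rw [epi_full_iff_pt] at he
  refine E.ker_mem hS h fun J m hm => ?_
  have hl : lab b b = -1 := if_pos rfl
  obtain ⟨m', hm'⟩ := he ⟨(J, b)⟩ (⟨m, (D.mem_H0k_iff _ _ _ _).mpr (by rw [hl]; exact hm)⟩ :
    D.H0k S.X₃ J (lab b b))
  have key : ∀ (n : ℤ) (_ : n = -1) (x : D.H0k S.X₂ J n), x.1 ∈ (D.tc S.X₂ J).H0 (-1) := by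
    rintro n rfl x
    exact (D.mem_H0k_iff _ _ _ _).mp x.2
  exact ⟨(show D.H0k S.X₂ J (lab b b) from m').1, key _ hl _, congrArg Subtype.val hm'⟩

theorem psi_cons (b : Bool) (X : CohRep D.src) (h : D.E X) (h0 : IsZero ((D.Psi b).obj X)) :
    IsZero X := by
  rw [isZero_full_iff_pt] at h0
  refine E.cons h fun J m hm => ?_
  have hl : lab b (!b) = 0 := if_neg (by cases b <;> decide)
  have h1 := h0 ⟨(J, !b)⟩ (⟨m, (D.mem_H0k_iff _ _ _ _).mpr (by rw [hl]; exact hm)⟩ :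
    D.H0k X J (lab b (!b)))
  exact congrArg Subtype.val h1

end TCSys

end BadRed
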