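import Pool.Agent.Lib.MP_55c1e7_ag.T.TestHom

/-!
# Box B3c: test objects
-/

open CategoryTheory CategoryTheory.Limits

namespace BadRed

variable {k K : Type} [Field k] [Field K] [Algebra k K]

namespace TCSys

variable {ObX ObZ I Lam : Type} [Preorder ObX] [SemilatticeSup ObZ] (D : TCSys k K ObX ObZ I Lam)

theorem exists_test [Finite I] (b : Bool) : ∃ P : ObjectProperty (CohRep D.src),
    (∀ X, P X → D.E X) ∧
    (∀ (X Y : CohRep D.src), P X → ∀ (f : X ⟶ Y), (D.Psi b).map f = 0 → f = 0) ∧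
    (∀ (X Y : CohRep D.src), P X → ∀ (g : (D.Psi b).obj X ⟶ (D.Psi b).obj Y),
      ∃ f : X ⟶ Y, (D.Psi b).map f = g) ∧
    (∀ (M : CohRep (D.targ b)), ∃ (X : CohRep D.src) (_ : P X) (p : (D.Psi b).obj X ⟶ M),
      Epi p) := by
  refine ⟨fun X => ∃ (ι : Type) (_ : Finite ι) (c : ι → Bool) (n : ι → ℕ),
    X = (D.tg b c n).E, ?_, ?_, ?_, ?_⟩
  · rintro X ⟨ι, _, c, n, rfl⟩
    exact D.test_E b c n
  · rintro X Y ⟨ι, _, c, n, rfl⟩ f hf
    exact D.test_inj b c n f hf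
  · rintro X Y ⟨ι, _, c, n, rfl⟩ g
    exact D.test_surj b c n g
  · intro M
    obtain ⟨ι, hι, c, n, p, hp⟩ := D.exists_gen b M
    exact ⟨_, ⟨ι, hι, c, n, rfl⟩, p, hp⟩

end TCSys

end BadRed
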