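/-
MP_55c1e7_ag, box B3: the twists of a coherent representation of a two-chart system by the powers
of an ample line bundle, and Serre vanishing.
-/
import Pool.Agent.Lib.MP_55c1e7_ag.LocPair
import Pool.Agent.Lib.MP_55c1e7_ag.B3b

open CategoryTheory CategoryTheory.Limits MP55c1e7

namespace BadRed

open Ch LocData

variable {k K : Type} [Field k] [Field K] [Algebra k K]
variable {ObX ObZ I Lam : Type} [Preorder ObX] [SemilatticeSup ObZ]

namespace TCSys

variable (D : TCSys k K ObX ObZ I Lam)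

/-- local generators of a line bundle on `X` -/
structure Coc (th : ObX → K) : Prop where
  ne : ∀ S, th S ≠ 0
  mem : ∀ {S T : ObX}, S ≤ T → th S / th T ∈ D.A T
  mem' : ∀ {S T : ObX}, S ≤ T → th T / th S ∈ D.A T

variable {D}

lemma Coc.pow {th : ObX → K} (h : D.Coc th) (n : ℕ) : D.Coc (fun S => th S ^ n) where
  ne S := pow_ne_zero n (h.ne S)
  mem {S T} hST := by
    rw [← div_pow]; exact (D.A T).pow_mem (h.mem hST) n
  mem' {S T} hST := by
    rw [← div_pow]; exact (D.A T).pow_mem (h.mem' hST) n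

lemma Coc.mem_H {th : ObX → K} (h : D.Coc th) {S T : ObX} {f : K} (hf : f ∈ D.src.H S T) :
    f * (th S / th T) ∈ D.src.H S T := by
  obtain ⟨h1, h2⟩ := hf
  rcases h2 with h2 | h2
  · exact ⟨(D.A T).mul_mem h1 (h.mem h2), Or.inl h2⟩
  · refine ⟨?_, Or.inr ?_⟩
    · rw [h2, zero_mul]; exact (D.A T).zero_mem
    · rw [h2, zero_mul]

/-- the twist of a representation by the line bundle with local generators `th` -/
def twF {th : ObX → K} (h : D.Coc th) (F : Cat D.src ⥤ ModuleCat.{0} k) :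
    Cat D.src ⥤ ModuleCat.{0} k where
  obj x := F.obj x
  map {x y} f := F.map (homMk (val f * (th x.of / th y.of)) (h.mem_H (val_mem f)))
  map_id x := by
    have e : homMk (val (𝟙 x) * (th x.of / th x.of)) (h.mem_H (val_mem (𝟙 x))) = 𝟙 x := by
      apply LocData.hom_ext
      rw [val_homMk, val_id, one_mul, div_self (h.ne _)]
    rw [e, F.map_id]
  map_comp {x y z} f g := by
    rw [← F.map_comp]
    congr 1
    apply LocData.hom_ext
    change (val f * val g) * (th x.of / th z.of) =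
      (val f * (th x.of / th y.of)) * (val g * (th y.of / th z.of))
    have h1 := h.ne y.of
    field_simp

lemma act_twF {th : ObX → K} (h : D.Coc th) (F : Cat D.src ⥤ ModuleCat.{0} k) {S T : ObX}
    {f : K} (hf : f ∈ D.src.H S T) (m : F.obj ⟨S⟩) :
    (act (twF h F) f hf : F.obj ⟨S⟩ →ₗ[k] F.obj ⟨T⟩) m =
      act F (f * (th S / th T)) (h.mem_H hf) m := rfl

lemma tw_surj {th : ObX → K} (h : D.Coc th) {F : Cat D.src ⥤ ModuleCat.{0} k}
    (hF : IsCohRep F) {a b : ObX} (r : D.src.rel a b) (m : F.obj ⟨b⟩) :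
    ∃ (g : K) (_ : g ∈ D.src.R b) (n : F.obj ⟨a⟩) (h1 : g * (th b / th b) ∈ D.src.H b b)
      (h2 : 1 * (th a / th b) ∈ D.src.H a b), g ∈ D.src.R a ∧ g ≠ 0 ∧ g⁻¹ ∈ D.src.R b ∧
      act F (g * (th b / th b)) h1 m = act F (1 * (th a / th b)) h2 n := by
  have hab : a ≤ b := r
  have h1 : th b / th a ∈ D.src.H b b := ⟨h.mem' hab, Or.inl le_rfl⟩
  have h2 : th a / th b ∈ D.src.H b b := ⟨h.mem hab, Or.inl le_rfl⟩
  obtain ⟨g, hgb, n, hga, hg0, hgi, e⟩ := hF.loc_surj r (act F (th b / th a) h1 m)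
  refine ⟨g, hgb, n, h.mem_H (mem_R.mpr hgb), h.mem_H (D.src.rel_one r), hga, hg0, hgi, ?_⟩
  have e2 := congrArg (act F (th a / th b) h2) e
  rw [act_mul, act_mul, act_mul] at e2
  rw [← e2]
  apply act_congr
  have h3 := h.ne a
  have h4 := h.ne b
  field_simp

lemma tw_inj {th : ObX → K} (h : D.Coc th) {F : Cat D.src ⥤ ModuleCat.{0} k}
    (hF : IsCohRep F) {a b : ObX} (r : D.src.rel a b) (n : F.obj ⟨a⟩)
    (h2 : 1 * (th a / th b) ∈ D.src.H a b) (hn : act F (1 * (th a / th b)) h2 n = 0) :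
    ∃ (g : K) (_ : g ∈ D.src.R a) (h1 : g * (th a / th a) ∈ D.src.H a a),
      g ≠ 0 ∧ g⁻¹ ∈ D.src.R b ∧ act F (g * (th a / th a)) h1 n = 0 := by
  have hab : a ≤ b := r
  have h1 : th b / th a ∈ D.src.H b b := ⟨h.mem' hab, Or.inl le_rfl⟩
  have e2 := congrArg (act F (th b / th a) h1) hn
  rw [act_mul, map_zero] at e2
  obtain ⟨g, hga, hg0, hgi, e⟩ := hF.loc_inj r n (by
    rw [← e2]
    apply act_congr
    have h3 := h.ne a
    have h4 := h.ne b
    field_simp)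
  refine ⟨g, hga, h.mem_H (mem_R.mpr hga), hg0, hgi, ?_⟩
  rw [← e]
  exact (act_congr F _ (by rw [div_self (h.ne _), mul_one]) n).symm

lemma isCohRep_twF {th : ObX → K} (h : D.Coc th) {F : Cat D.src ⥤ ModuleCat.{0} k}
    (hF : IsCohRep F) : IsCohRep (twF h F) where
  map_add {x y} f g := by
    have e : homMk (val (f + g) * (th x.of / th y.of)) (h.mem_H (val_mem (f + g))) =
        homMk (val f * (th x.of / th y.of)) (h.mem_H (val_mem f)) +
        homMk (val g * (th x.of / th y.of)) (h.mem_H (val_mem g)) := by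
      apply LocData.hom_ext
      exact add_mul (val f) (val g) (th x.of / th y.of)
    exact (congrArg F.map e).trans (hF.map_add _ _)
  map_smul {x y} r f := by
    have e : homMk (val (r • f) * (th x.of / th y.of)) (h.mem_H (val_mem (r • f))) =
        r • homMk (val f * (th x.of / th y.of)) (h.mem_H (val_mem f)) := by
      apply LocData.hom_ext
      exact smul_mul_assoc r (val f) (th x.of / th y.of)
    exact (congrArg F.map e).trans (hF.map_smul _ _)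
  fin a := by
    obtain ⟨n, e, he⟩ := hF.fin a
    refine ⟨n, e, fun m => ?_⟩
    obtain ⟨c, hc⟩ := he m
    refine ⟨c, hc.trans ?_⟩
    apply Finset.sum_congr rfl
    intro i _
    change _ = act F ((c i).1 * (th a / th a)) _ (e i)
    exact act_congr F _ (by rw [div_self (h.ne _), mul_one]) (e i)
  loc_surj {a b} r m := by
    obtain ⟨g, hgb, n, h1, h2, hga, hg0, hgi, e⟩ := tw_surj h hF r m
    exact ⟨g, hgb, n, hga, hg0, hgi, e⟩
  loc_inj {a b} r n hn := by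
    obtain ⟨g, hga, h1, hg0, hgi, e⟩ := tw_inj h hF r n (h.mem_H (D.src.rel_one r)) hn
    exact ⟨g, hga, hg0, hgi, e⟩

/-- the twist of a coherent representation -/
def twR {th : ObX → K} (h : D.Coc th) (F : CohRep D.src) : CohRep D.src :=
  ⟨twF h F.obj, isCohRep_twF h F.property⟩

lemma ac_twR {th : ObX → K} (h : D.Coc th) (F : CohRep D.src) {S T : ObX} (hST : S ≤ T)
    (f : K) (hf : f ∈ D.A T) (m : D.V F S) :
    (D.ac (twR h F) hST f hf : D.V F S →ₗ[k] D.V F T) m =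
      D.ac F hST (f * (th S / th T)) ((D.A T).mul_mem hf (h.mem hST)) m := rfl

/-- multiplication by a global section `s` of the line bundle with generators `th` -/
def twMap {th : ObX → K} (h : D.Coc th) (s : K) (hs : ∀ S, s / th S ∈ D.A S) (F : CohRep D.src) :
    F ⟶ twR h F :=
  ObjectProperty.homMk
    { app := fun x => ModuleCat.ofHom (D.ac F le_rfl (s / th x.of) (hs x.of))
      naturality := by
        intro x y f
        apply ModuleCat.hom_ext
        apply LinearMap.ext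
        intro m
        change act F.obj _ _ (act F.obj (val f) (val_mem f) m) =
          act F.obj (val f * (th x.of / th y.of)) _ (act F.obj _ _ m)
        rw [act_mul, act_mul]
        apply act_congr
        have h1 := h.ne x.of
        have h2 := h.ne y.of
        field_simp }

lemma co_twMap {th : ObX → K} (h : D.Coc th) (s : K) (hs : ∀ S, s / th S ∈ D.A S)
    (F : CohRep D.src) (S : ObX) (m : D.V F S) :
    (co (twMap h s hs F) S m : D.V F S) = D.ac F le_rfl (s / th S) (hs S) m := rfl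

variable (D)

/-- local generators of the ample line bundle `L ⊗ M ^ m` -/
def th (S : ObX) : K := D.gen S * D.sig (D.pr S) ^ D.m

lemma sig_src {S T : ObX} (h : S ≤ T) : D.sig (D.pr S) / D.sig (D.pr T) ∈ D.A T ∧
    D.sig (D.pr T) / D.sig (D.pr S) ∈ D.A T := by
  obtain ⟨e, he⟩ := D.s_pr T
  have h1 := D.sig_cart (D.pr_mono h)
  have h2 := D.R_le e (D.pr T)
  rw [he] at h2
  exact ⟨h2 h1.1, h2 h1.2⟩

lemma coc_gen : D.Coc D.gen where
  ne := D.gen_ne
  mem h := (D.cart h).1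
  mem' h := (D.cart h).2

lemma coc_th : D.Coc D.th where
  ne S := mul_ne_zero (D.gen_ne S) (pow_ne_zero _ (D.sig_ne _))
  mem {S T} h := by
    have e : D.th S / D.th T = D.gen S / D.gen T * (D.sig (D.pr S) / D.sig (D.pr T)) ^ D.m := by
      unfold th
      rw [div_pow, div_mul_div_comm]
    rw [e]
    exact (D.A T).mul_mem (D.cart h).1 ((D.A T).pow_mem (D.sig_src h).1 _)
  mem' {S T} h := by
    have e : D.th T / D.th S = D.gen T / D.gen S * (D.sig (D.pr T) / D.sig (D.pr S)) ^ D.m := by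
      unfold th
      rw [div_pow, div_mul_div_comm]
    rw [e]
    exact (D.A T).mul_mem (D.cart h).2 ((D.A T).pow_mem (D.sig_src h).2 _)

/-- the twist of `F` by the `n`-th power of the ample line bundle `L ⊗ M ^ m` -/
def tw (n : ℕ) (F : CohRep D.src) : CohRep D.src := twR (D.coc_th.pow n) F

/-- multiplication by the `n`-th power of the section `eta l` -/
def twEta (l : Lam) (n : ℕ) (F : CohRep D.src) : F ⟶ D.tw n F :=
  twMap (D.coc_th.pow n) (D.eta l ^ n)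
    (fun S => by
      rw [← div_pow]; exact (D.A S).pow_mem (D.eta_mem l S) n) F

lemma co_twEta (l : Lam) (n : ℕ) (F : CohRep D.src) (S : ObX) (m : D.V F S) :
    (co (D.twEta l n F) S m : D.V F S) =
      D.ac F le_rfl ((D.eta l / D.th S) ^ n) ((D.A S).pow_mem (D.eta_mem l S) n) m :=
  ac_congr (F := F) le_rfl (by
    change D.eta l ^ n / D.th S ^ n ∈ D.A S
    rw [← div_pow]; exact (D.A S).pow_mem (D.eta_mem l S) n) (div_pow _ _ _).symm m

lemma th_u (J : ObZ) : D.th (D.s c1 J) / D.th (D.s c0 J) = D.u J := by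
  unfold th u
  rw [D.pr_s, D.pr_s]
  have h1 := pow_ne_zero D.m (D.sig_ne J)
  have h2 := D.gen_ne (D.s c0 J)
  field_simp

/-- `H¹` of the twist by the ample line bundle -/
lemma van_tw {F : CohRep D.src} {J : ObZ} {n : ℕ} {i : ℤ} (h : (D.tc F J).Van (n + i)) :
    (D.tc (D.tw n F) J).Van i := by
  have c := D.coc_th.pow n
  have key : ∀ z : D.V F (D.s c01 J), ∃ (a : D.V F (D.s c0 J)) (b : D.V F (D.s c1 J)),
      z = D.ac F (D.le0 J) (1 * (D.th (D.s c0 J) ^ n / D.th (D.s c01 J) ^ n))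
          ((D.A _).mul_mem (D.A _).one_mem (c.mem (D.le0 J))) a +
        D.ac F le_rfl (D.u J ^ i * (D.th (D.s c01 J) ^ n / D.th (D.s c01 J) ^ n))
          ((D.A _).mul_mem (D.u_zpow_mem J i) (c.mem le_rfl))
          (D.ac F (D.le1 J) (1 * (D.th (D.s c1 J) ^ n / D.th (D.s c01 J) ^ n))
            ((D.A _).mul_mem (D.A _).one_mem (c.mem (D.le1 J))) b) := by
    intro z
    obtain ⟨a, b, e⟩ := h (D.ac F le_rfl (D.th (D.s c01 J) ^ n / D.th (D.s c0 J) ^ n)
      (c.mem' (D.le0 J)) z)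
    refine ⟨a, b, ?_⟩
    rw [tc_T, Tequiv_zpow, tc_r1, tc_r2, ac_ac] at e
    have e2 := congrArg (D.ac F le_rfl (D.th (D.s c0 J) ^ n / D.th (D.s c01 J) ^ n)
      (c.mem (D.le0 J))) e
    have h0 := c.ne (D.s c0 J)
    have h1 := c.ne (D.s c1 J)
    have h01 := c.ne (D.s c01 J)
    rw [ac_ac, map_add, ac_ac, ac_ac, ac_congr _ _ (show D.th (D.s c01 J) ^ n / D.th (D.s c0 J) ^ n *
      (D.th (D.s c0 J) ^ n / D.th (D.s c01 J) ^ n) = 1 by field_simp), ac_one'] at e2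
    rw [e2, ac_ac]
    congr 1
    apply ac_congr
    have e3 : D.u J ^ ((n : ℤ) + i) = D.u J ^ i * (D.th (D.s c1 J) ^ n / D.th (D.s c0 J) ^ n) := by
      rw [← div_pow, th_u, zpow_add₀ (D.u_ne J), zpow_natCast, mul_comm]
    rw [e3]
    field_simp
  intro z
  obtain ⟨a, b, e⟩ := key z
  refine ⟨a, b, ?_⟩
  rw [tc_T, Tequiv_zpow]
  exact e

lemma gen_zpow_mem (e : Ch) {J J' : ObZ} (h : J ≤ J') (n : ℤ) :
    (D.gen (D.s e J) / D.gen (D.s e J')) ^ n ∈ D.A (D.s e J') :=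
  zpow_mem_of (D.cart (D.s_mono e h)).1 (by
    rw [inv_div]; exact (D.cart (D.s_mono e h)).2) n

lemma u_zpow_mem' {J J' : ObZ} (h : J ≤ J') (n : ℤ) : D.u J ^ n ∈ D.A (D.s c01 J') :=
  D.mono (D.s_mono c01 h) (D.u_zpow_mem J n)

/-- sufficient condition for the vanishing of `H¹` over `J'` in terms of sections over `J` -/
lemma van_of_dec {F : CohRep D.src} {J J' : ObZ} (h : J ≤ J') {n : ℤ}
    (H : ∀ z : D.V F (D.s c01 J'), ∃ (a : D.V F (D.s c0 J)) (b : D.V F (D.s c1 J)) (x y : K)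
      (hx : x ∈ D.A (D.s c0 J')) (hy : y ∈ D.A (D.s c1 J')),
      z = D.ac F (D.s_mono c01 h |>.trans' (D.le0 J)) x (D.mono (D.le0 J') hx) a +
        D.ac F (D.s_mono c01 h |>.trans' (D.le1 J)) (y * D.u J ^ n)
          ((D.A _).mul_mem (D.mono (D.le1 J') hy) (D.u_zpow_mem' h n)) b) :
    (D.tc F J').Van n := by
  intro z
  have g0 := D.gen_zpow_mem c0 h n
  have g0' := D.gen_zpow_mem c0 h (-n)
  have g1 := D.gen_zpow_mem c1 h n
  obtain ⟨a, b, x, y, hx, hy, e⟩ := H (D.ac F le_rfl _ (D.mono (D.le0 J') g0') z)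
  refine ⟨D.ac F (D.s_mono c0 h) (x * (D.gen (D.s c0 J) / D.gen (D.s c0 J')) ^ n)
    ((D.A _).mul_mem hx g0) a,
    D.ac F (D.s_mono c1 h) (y * (D.gen (D.s c1 J) / D.gen (D.s c1 J')) ^ n)
    ((D.A _).mul_mem hy g1) b, ?_⟩
  have e2 := congrArg (D.ac F le_rfl _ (D.mono (D.le0 J') g0)) e
  have n0 := D.gen_ne (D.s c0 J)
  have n0' := D.gen_ne (D.s c0 J')
  have n1' := D.gen_ne (D.s c1 J')
  have n1 := D.gen_ne (D.s c1 J)
  rw [ac_ac, ac_congr _ _ (show (D.gen (D.s c0 J) / D.gen (D.s c0 J')) ^ (-n) *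
    (D.gen (D.s c0 J) / D.gen (D.s c0 J')) ^ n = 1 by
      rw [← zpow_add₀ (div_ne_zero n0 n0'), neg_add_cancel, zpow_zero]), ac_one'] at e2
  rw [e2, tc_T, Tequiv_zpow, tc_r1, tc_r2, ac_ac, ac_ac, ac_ac, map_add, ac_ac, ac_ac]
  congr 1
  · exact ac_congr _ _ (by rw [mul_one]) a
  · apply ac_congr
    unfold u
    rw [div_zpow, div_zpow, div_zpow, div_zpow]
    have m0 := zpow_ne_zero n n0
    have m0' := zpow_ne_zero n n0'
    have m1 := zpow_ne_zero n n1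
    have m1' := zpow_ne_zero n n1'
    field_simp

lemma van_same {F : CohRep D.src} {J J' : ObZ} (h : J ≤ J') (hs : D.special J' → D.special J)
    {n : ℤ} (hV : (D.tc F J).Van n) : (D.tc F J').Van n := by
  refine D.van_of_dec h (fun z => ?_)
  obtain ⟨g, hg, x, e⟩ := surj_e h hs c01 z
  obtain ⟨a, b, e1⟩ := hV x
  rw [tc_T, Tequiv_zpow, tc_r1, tc_r2, ac_ac] at e1
  refine ⟨a, b, g⁻¹, g⁻¹, D.R_le c0 J' hg.inv, D.R_le c1 J' hg.inv, ?_⟩
  have e2 := congrArg (D.ac F le_rfl g⁻¹ (D.R_le c01 J' hg.inv)) e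
  rw [ac_ac, ac_congr _ _ (mul_inv_cancel₀ hg.ne), ac_one'] at e2
  rw [e2, e1, map_add, map_add, ac_ac, ac_ac, ac_ac, ac_ac]
  congr 1
  · exact ac_congr _ _ (by ring) a
  · exact ac_congr _ _ (by ring) b

lemma van_part {F : CohRep D.src} {J J' : ObZ} (h : J ≤ J') (hJ : ¬ D.special J)
    (hJ' : D.special J') (n : ℤ) : (D.tc F J').Van n := by
  refine D.van_of_dec h (fun z => ?_)
  obtain ⟨hde0, hde1⟩ := D.degen J hJ
  obtain ⟨t0, ht0, t1, ht1, ht00, ht10, hti0, hti1, p0, p1, p01, hp⟩ := D.part h hJ hJ'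
  obtain ⟨f, hf, y, hf0, hfi, e1⟩ := D.ex_surj F (D.s_mono c01 h) z
  obtain ⟨N, q, hq, hq0, hqi, hr⟩ := p01 _ hfi
  obtain ⟨g, hg, b0, hb0, b1, hb1, eg⟩ := exists_partition h ht0 ht1 hp N N
  have hu : D.u J ^ (-n) ∈ D.A (D.s c1 J) := D.mono hde1 (D.u_zpow_mem J (-n))
  have hr0 : q * (t0 * t1) ^ N * f⁻¹ ∈ D.A (D.s c0 J) := D.R_le c0 J hr
  have hr1 : q * (t0 * t1) ^ N * f⁻¹ ∈ D.A (D.s c1 J) := D.R_le c1 J hr
  have hx : g⁻¹ * q⁻¹ * b1 * t0⁻¹ ^ N ∈ D.A (D.s c0 J') :=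
    (D.A _).mul_mem ((D.A _).mul_mem ((D.A _).mul_mem (D.R_le c0 J' hg.inv)
      (D.R_le c0 J' hqi)) (D.R_le c0 J' (D.R_mono h hb1))) ((D.A _).pow_mem hti0 N)
  have hy : g⁻¹ * q⁻¹ * b0 * t1⁻¹ ^ N ∈ D.A (D.s c1 J') :=
    (D.A _).mul_mem ((D.A _).mul_mem ((D.A _).mul_mem (D.R_le c1 J' hg.inv)
      (D.R_le c1 J' hqi)) (D.R_le c1 J' (D.R_mono h hb0))) ((D.A _).pow_mem hti1 N)
  refine ⟨D.ac F hde0 _ hr0 y, D.ac F hde1 _ ((D.A _).mul_mem hr1 hu) y,
    g⁻¹ * q⁻¹ * b1 * t0⁻¹ ^ N, g⁻¹ * q⁻¹ * b0 * t1⁻¹ ^ N, hx, hy, ?_⟩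
  have e2 := congrArg (D.ac F le_rfl f⁻¹ hfi) e1
  rw [ac_ac, ac_ac, ac_congr _ _ (mul_inv_cancel₀ hf0), ac_one'] at e2
  rw [e2, ac_ac, ac_ac]
  have hr01 := D.R_le c01 J' (D.R_mono h hr)
  have hA : q * (t0 * t1) ^ N * f⁻¹ * (g⁻¹ * q⁻¹ * b1 * t0⁻¹ ^ N) ∈ D.A (D.s c01 J') :=
    (D.A _).mul_mem hr01 (D.mono (D.le0 J') hx)
  have hB : q * (t0 * t1) ^ N * f⁻¹ * D.u J ^ (-n) *
      (g⁻¹ * q⁻¹ * b0 * t1⁻¹ ^ N * D.u J ^ n) ∈ D.A (D.s c01 J') :=
    (D.A _).mul_mem ((D.A _).mul_mem hr01 (D.u_zpow_mem' h (-n)))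
      ((D.A _).mul_mem (D.mono (D.le1 J') hy) (D.u_zpow_mem' h n))
  have hu0 := zpow_ne_zero n (D.u_ne J)
  have hg0 := hg.ne
  have e4 : q * (t0 * t1) ^ N * f⁻¹ * (g⁻¹ * q⁻¹ * b1 * t0⁻¹ ^ N) +
      q * (t0 * t1) ^ N * f⁻¹ * D.u J ^ (-n) * (g⁻¹ * q⁻¹ * b0 * t1⁻¹ ^ N * D.u J ^ n) =
      f⁻¹ * (g⁻¹ * (b0 * t0 ^ N + b1 * t1 ^ N)) := by
    rw [zpow_neg, mul_pow, inv_pow, inv_pow]
    field_simp
    ring
  have e3 : 1 * f⁻¹ = q * (t0 * t1) ^ N * f⁻¹ * (g⁻¹ * q⁻¹ * b1 * t0⁻¹ ^ N) +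
      q * (t0 * t1) ^ N * f⁻¹ * D.u J ^ (-n) * (g⁻¹ * q⁻¹ * b0 * t1⁻¹ ^ N * D.u J ^ n) := by
    rw [e4, ← eg, inv_mul_cancel₀ hg0, one_mul, mul_one]
  rw [ac_congr _ _ e3, ac_add _ hA hB]

/-- base change of the vanishing of `H¹` -/
lemma van_base {F : CohRep D.src} {J J' : ObZ} (h : J ≤ J') {n : ℤ}
    (hV : (D.tc F J).Van n) : (D.tc F J').Van n := by
  by_cases hs : D.special J' → D.special J
  · exact D.van_same h hs hV
  · push Not at hs
    exact D.van_part h hs.2 hs.1 n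

/-- vanishing for a large twist, over one open set -/
lemma exists_van (F : CohRep D.src) (J : ObZ) : ∃ n : ℕ, (D.tc F J).Van n := by
  obtain ⟨s, hs, h⟩ := D.exists_gen1 F J
  obtain ⟨t, rfl⟩ := hs.exists_finset_coe
  exact (D.tc F J).van_large t h

/-- Serre vanishing -/
theorem exists_van_all [Finite I] (F : CohRep D.src) :
    ∃ n : ℕ, ∀ m : ℤ, (n : ℤ) ≤ m → ∀ J, (D.tc F J).Van m := by
  classical
  choose N hN using fun i : I => D.exists_van F (D.pt i)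
  obtain ⟨M, hM⟩ := (Set.finite_range N).bddAbove
  refine ⟨M, fun m hm J => ?_⟩
  obtain ⟨i, hi⟩ := D.cover J
  refine D.van_base hi (TC.van_mono _ (hN i) ?_)
  have := hM ⟨i, rfl⟩
  exact le_trans (by exact_mod_cast this) hm

/-- the large twists are in `E` -/
theorem exists_E_tw [Finite I] (F : CohRep D.src) : ∃ N : ℕ, ∀ n : ℕ, N ≤ n → D.E (D.tw n F) := by
  obtain ⟨M, hM⟩ := D.exists_van_all F
  refine ⟨M + 1, fun n hn J => D.van_tw (hM _ ?_ J)⟩
  have : (M : ℤ) + 1 ≤ n := by exact_mod_cast hn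
  linarith

end TCSys

end BadRed
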