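/-
MP_55c1e7_ag, box B3d: every coherent representation embeds into one with vanishing `H¹(F(-1))`.
-/
import Pool.Agent.Lib.MP_55c1e7_ag.B3e

open CategoryTheory CategoryTheory.Limits MP55c1e7

namespace BadRed

open Ch LocData

variable {k K : Type} [Field k] [Field K] [Algebra k K]
variable {ObX ObZ I Lam : Type} [Preorder ObX] [SemilatticeSup ObZ]

namespace TCSys

variable {D : TCSys k K ObX ObZ I Lam}

attribute [local instance] Abelian.hasFiniteBiproducts

lemma co_sum {ι : Type} (s : Finset ι) {F G : CohRep D.src} (φ : ι → (F ⟶ G)) (S : ObX)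
    (m : D.V F S) : co (∑ i ∈ s, φ i) S m = ∑ i ∈ s, co (φ i) S m := by
  classical
  induction s using Finset.induction_on with
  | empty => simp
  | insert i s hi ih => rw [Finset.sum_insert hi, Finset.sum_insert hi, co_add, ih]

lemma E.biproduct {ι : Type} [Fintype ι] (G : ι → CohRep D.src) (h : ∀ i, D.E (G i)) :
    D.E (⨁ G) := by
  intro J z
  have ht : z = ∑ i, co (biproduct.ι G i) _ (co (biproduct.π G i) _ z) := by
    have e := congrArg (fun φ => co φ (D.s c01 J) z) (biproduct.total (f := G))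
    rw [co_sum, co_id] at e
    exact e.symm
  choose a b hab using fun i => h i J (co (biproduct.π G i) _ z)
  refine ⟨∑ i, co (biproduct.ι G i) _ (a i), ∑ i, co (biproduct.ι G i) _ (b i), ?_⟩
  rw [map_sum, map_sum, map_sum, ← Finset.sum_add_distrib]
  refine ht.trans (Finset.sum_congr rfl fun i _ => ?_)
  rw [hab i, map_add]
  congr 1
  · exact ((tcm (biproduct.ι G i) J).c1 (a i)).symm
  · have e1 := (tcm (biproduct.ι G i) J).cT_zpow (-1) ((D.tc (G i) J).r2 (b i))
    rw [← (tcm (biproduct.ι G i) J).c2 (b i)] at e1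
    exact e1.symm

lemma ac_eq_zero {F : CohRep D.src} {S : ObX} {f g : K} (hf : f ∈ D.A S) (hg : g ∈ D.A S)
    (hfg : f * g = 1) {m : D.V F S} (h : D.ac F le_rfl f hf m = 0) : m = 0 := by
  have e := congrArg (D.ac F le_rfl g hg) h
  rw [ac_ac, map_zero, ac_congr _ _ hfg, ac_one'] at e
  exact e

variable (D)

/-- BOX B3d -/
theorem exists_emb [Finite I] [Finite Lam] (X : CohRep D.src) :
    ∃ (Y : CohRep D.src) (i : X ⟶ Y), D.E Y ∧ Mono i := by
  classical
  have := Fintype.ofFinite Lam
  obtain ⟨N, hN⟩ := D.exists_E_tw X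
  refine ⟨⨁ (fun _ : Lam => D.tw N X), biproduct.lift (fun l => D.twEta l N X),
    E.biproduct _ (fun _ => hN N le_rfl), ?_⟩
  rw [mono_iff]
  intro S
  rw [injective_iff_map_eq_zero]
  intro m hm
  obtain ⟨l, hl, hl'⟩ := D.eta_cov S
  have e1 : co (D.twEta l N X) S m = 0 := by
    rw [← biproduct.lift_π (fun l => D.twEta l N X) l, co_comp, hm, map_zero]
  have e2 : D.ac X le_rfl ((D.eta l / D.th S) ^ N) ((D.A S).pow_mem (D.eta_mem l S) N) m = 0 :=
    (D.co_twEta l N X S m).symm.trans e1
  have h1 := D.coc_th.ne S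
  refine ac_eq_zero _ ((D.A S).pow_mem hl' N) ?_ e2
  change (D.eta l / D.th S) ^ N * (D.th S / D.eta l) ^ N = 1
  rw [← mul_pow, div_mul_div_comm, mul_comm (D.th S), div_self (mul_ne_zero hl h1), one_pow]

end TCSys

end BadRed
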