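import Pool.Agent.Lib.MP_55c1e7_ag.Defs
import Pool.Agent.Lib.MP_55c1e7_ag.B0.C

/-!
The category of coherent sheaves of a locally noetherian scheme is abelian.
-/

set_option autoImplicit false

open AlgebraicGeometry CategoryTheory Limits TopologicalSpace Opposite

namespace BadRed

open MP55c1e7.B0

lemma isCoh_eq (X : Scheme.{0}) : isCoh X = cohP X := rfl

section

variable {X : Scheme.{0}}

instance : (isCoh X).IsClosedUnderIsomorphisms :=
  inferInstanceAs (cohP X).IsClosedUnderIsomorphisms

instance : (isCoh X).ContainsZero :=
  inferInstanceAs (cohP X).ContainsZero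

instance [IsLocallyNoetherian X] : (isCoh X).IsClosedUnderKernels :=
  inferInstanceAs (cohP X).IsClosedUnderKernels

instance : (isCoh X).IsClosedUnderCokernels :=
  inferInstanceAs (cohP X).IsClosedUnderCokernels

instance : (isCoh X).IsClosedUnderFiniteProducts :=
  inferInstanceAs (cohP X).IsClosedUnderFiniteProducts

variable {k : Type} [CommRing k] (f : X ⟶ Spec (CommRingCat.of k))

noncomputable instance [IsLocallyNoetherian X] : Abelian (Coh f) :=
  inferInstanceAs (Abelian (isCoh X).FullSubcategory)

/-- The two preadditive structures agree. -/
example [IsLocallyNoetherian X] :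
    (Abelian.toPreadditive : Preadditive (Coh f)) = instPreadditiveCoh f := by
  with_reducible_and_instances rfl

noncomputable example [IsLocallyNoetherian X] :
    @Linear k _ (Coh f) _ (Abelian.toPreadditive) := inferInstance

/-- The inclusion of coherent modules into modules. -/
noncomputable def cohι : Coh f ⥤ X.Modules := (isCoh X).ι

end

end BadRed
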