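import Pool.Agent.Lib.MP_55c1e7_ag.Sys
import Pool.Agent.Lib.MP_55c1e7_ag.CohAb

/-!
# Čech data, charted schemes, flop data
-/

open CategoryTheory CategoryTheory.Limits AlgebraicGeometry

namespace BadRed

/-- Nonempty finite subsets. -/
abbrev NF (α : Type) : Type := {S : Finset α // S.Nonempty}

instance {α : Type} [DecidableEq α] : SemilatticeSup (NF α) :=
  Subtype.semilatticeSup fun ⦃_ _⦄ h _ => h.mono Finset.subset_union_left

/-- The one-element set. -/
def NF.single {α : Type} (a : α) : NF α := ⟨{a}, Finset.singleton_nonempty a⟩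

section Cech

variable {k K : Type} [Field k] [Field K] [Algebra k K] {Lam : Type}

/-- The ring of the intersection of the charts in `S`. -/
def cechRing (A : Lam → Subalgebra k K) (S : NF Lam) : Subalgebra k K := ⨆ l ∈ S.1, A l

lemma le_cechRing (A : Lam → Subalgebra k K) (S : NF Lam) {l : Lam} (h : l ∈ S.1) :
    A l ≤ cechRing A S := le_iSup₂_of_le l h le_rfl

lemma cechRing_mono (A : Lam → Subalgebra k K) : Monotone (cechRing A) := by
  intro S T h
  exact iSup₂_le fun l hl => le_cechRing A T (h hl)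

lemma cechRing_fg (A : Lam → Subalgebra k K) (hA : ∀ l, (A l).FG) (S : NF Lam) :
    (cechRing A S).FG := by
  classical
  choose t ht using hA
  refine ⟨S.1.biUnion t, ?_⟩
  apply le_antisymm
  · rw [Algebra.adjoin_le_iff]
    intro x hx
    rw [Finset.coe_biUnion, Set.mem_iUnion₂] at hx
    obtain ⟨l, hl, hx⟩ := hx
    exact le_cechRing A S hl (by rw [← ht l]; exact Algebra.subset_adjoin hx)
  · refine iSup₂_le fun l hl => ?_
    rw [← ht l]
    apply Algebra.adjoin_mono
    intro x hx
    rw [Finset.coe_biUnion, Set.mem_iUnion₂]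
    exact ⟨l, hl, hx⟩

lemma noeth_of_fg {A : Subalgebra k K} (hA : A.FG) : IsNoetherianRing A :=
  have : Algebra.FiniteType k A := A.fg_iff_finiteType.mp hA
  Algebra.FiniteType.isNoetherianRing k A

/-- The Čech site: nonempty finite sets of charts, `Hom(S,T) = A_T` if `S ⊆ T`. -/
def cech (A : Lam → Subalgebra k K) (hA : ∀ l, (A l).FG) : LocData k K (NF Lam) :=
  posetData (cechRing A) (cechRing_mono A) (fun S => noeth_of_fg (cechRing_fg A hA S))

/-! ## Charted schemes (interface between the schemes of box C and box B) -/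

/-- Intersections of a family of open sets. -/
def interV {X : Scheme.{0}} (V : Lam → X.Opens) (S : NF Lam) : X.Opens := S.1.inf V

lemma interV_anti {X : Scheme.{0}} (V : Lam → X.Opens) {S T : NF Lam} (h : S ≤ T) :
    interV V T ≤ interV V S := Finset.inf_mono h

/-- A scheme over `k` with an affine cover whose rings are the subrings of `K` generated
by the `A l`. -/
structure Charted {X : Scheme.{0}} (f : X ⟶ Spec (CommRingCat.of k))
    (A : Lam → Subalgebra k K) where
  V : Lam → X.Opens
  cover : ⨆ l, V l = ⊤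
  affine : ∀ S : NF Lam, IsAffineOpen (interV V S)
  phi : ∀ S : NF Lam, Γ(X, interV V S) →+* K
  inj : ∀ S, Function.Injective (phi S)
  range : ∀ S, (phi S).range = (cechRing A S).toSubring
  res : ∀ (S T : NF Lam) (h : S ≤ T) (s : Γ(X, interV V S)),
    phi T (X.presheaf.map (homOfLE (interV_anti V h)).op s) = phi S s
  alg : ∀ (S : NF Lam) (c : k), phi S (resTop (scalars f c) (interV V S)) = algebraMap k K c

end Cech

/-! ## Flop data -/

variable {k K : Type} [Field k] [Field K] [Algebra k K] {ι : Type}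

/-- rings of the charts of `X` -/
def chr (R : Option ι → Subalgebra k K) (g0 g1 : K) : ι ⊕ Bool → Subalgebra k K
  | Sum.inl i => R (some i)
  | Sum.inr false => R none ⊔ Algebra.adjoin k {g1 / g0}
  | Sum.inr true => R none ⊔ Algebra.adjoin k {g0 / g1}

/-- generators of `L` on the charts of `X` -/
def genl (g : ι → K) (g0 g1 : K) : ι ⊕ Bool → K
  | Sum.inl i => g i
  | Sum.inr false => g0
  | Sum.inr true => g1

/-- homogeneous coordinates on the charts of `X` -/
def sigl (sig : Option ι → K) : ι ⊕ Bool → K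
  | Sum.inl i => sig (some i)
  | Sum.inr _ => sig none

/-- Concrete data: a morphism `X → Z`, the charts of `Z` are indexed by `Option ι`; over the charts
`some i` it is an isomorphism, over the chart `none` there are two charts. -/
structure FlopData (k K ι : Type) [Field k] [Field K] [Algebra k K] where
  /-- the rings of the charts of `Z` -/
  R : Option ι → Subalgebra k K
  /-- homogeneous coordinates of `Z` -/
  sig : Option ι → K
  /-- local generators of the relatively ample line bundle `L` -/
  g : ι → K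
  g0 : K
  g1 : K
  fg : ∀ i, (R i).FG
  sig_ne : ∀ i, sig i ≠ 0
  g_ne : ∀ i, g i ≠ 0
  g0_ne : g0 ≠ 0
  g1_ne : g1 ≠ 0
  sig_mem : ∀ i j, sig j / sig i ∈ R i
  loc : ∀ i j, ∀ f ∈ R j, ∃ n : ℕ, (sig j / sig i) ^ n * f ∈ R i
  inter : (R none ⊔ Algebra.adjoin k {g1 / g0}) ⊓ (R none ⊔ Algebra.adjoin k {g0 / g1}) ≤ R none
  m : ℕ
  /-- `L ⊗ M^m` is generated by the global sections `genl l * sigl l ^ m` -/
  gl : ∀ l l' : ι ⊕ Bool, (genl g g0 g1 l * sigl sig l ^ m) / (genl g g0 g1 l' * sigl sig l' ^ m) ∈
    chr R g0 g1 l'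
  part : ∀ i : ι, ∃ a0 ∈ R (some i) ⊔ R none, ∃ a1 ∈ R (some i) ⊔ R none, a0 * g0 + a1 * g1 = g i

namespace FlopData

/-- the rings of the charts of `X` -/
def ch (D : FlopData k K ι) : ι ⊕ Bool → Subalgebra k K := chr D.R D.g0 D.g1

lemma ch_fg (D : FlopData k K ι) (l : ι ⊕ Bool) : (D.ch l).FG := by
  rcases l with i | b
  · exact D.fg _
  · cases b
    · exact (D.fg none).sup ⟨{D.g1 / D.g0}, by rw [Finset.coe_singleton]⟩
    · exact (D.fg none).sup ⟨{D.g0 / D.g1}, by rw [Finset.coe_singleton]⟩

/-- sections of `L^n` over the preimage of the special chart -/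
def Ha (D : FlopData k K ι) (n : ℤ) : Submodule k K :=
  pw (D.ch (Sum.inr false)) D.g0 n ⊓ pw (D.ch (Sum.inr true)) D.g1 n

end FlopData

end BadRed
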