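import Pool.Agent.Lib.MP_55c1e7_ag.Psi
import Pool.Agent.Lib.MP_55c1e7_ag.B3b
import Pool.Agent.Lib.MP_55c1e7_ag.B3G
import Pool.Agent.Lib.MP_55c1e7_ag.B3c
import Pool.Agent.Lib.MP_55c1e7_ag.B3d
import Pool.Agent.Lib.MP_55c1e7_ag.Cech
import Pool.Agent.Lib.MP_55c1e7_ag.B.GlueB

/-!
# Box B3: a two-chart system gives a derived equivalence with the target category
-/

open CategoryTheory CategoryTheory.Limits AlgebraicGeometry

namespace BadRed

variable {k K : Type} [Field k] [Field K] [Algebra k K]

namespace TCSys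

variable {ObX ObZ I Lam : Type} [Preorder ObX] [SemilatticeSup ObZ] (D : TCSys k K ObX ObZ I Lam)

theorem dbEq [Finite I] [Finite Lam] (b : Bool) :
    MP55c1e7.DbEq k (CohRep D.src) (CohRep (D.targ b)) := by
  have := D.psi_left b
  obtain ⟨P, h1, h2, h3, h4⟩ := D.exists_test b
  refine MP55c1e7.DbEq.of_tilt k (D.Psi b) D.E P ?_ D.exists_emb
  exact { quot := fun f hf h => E.quot f hf h
          right_epi := D.psi_epi b
          ker_mem := D.psi_ker b
          cons := D.psi_cons b
          test_mem := h1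
          test_inj := h2
          test_surj := h3
          gen := h4 }

end TCSys

/-- BOX B3 -/
theorem TCSys.dbEquivalent {ObX ObZ I Lam : Type} [Preorder ObX] [SemilatticeSup ObZ] [Finite I]
    [Finite Lam] (D : TCSys k K ObX ObZ I Lam) (b : Bool) :
    DbEquivalent k (CohRep D.src) (CohRep (D.targ b)) :=
  (D.dbEq b).dbEquivalent

end BadRed
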