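import Pool.Agent.Lib.MP_55c1e7_ag.L2.Targ

open CategoryTheory CategoryTheory.Limits AlgebraicGeometry

namespace BadRed

variable {k K : Type} [Field k] [Field K] [Algebra k K] {ι : Type}

namespace FlopData

/-- BOX L2 : flop data give two-chart systems; two flop data with opposite `L` have the same
target category. -/
theorem exists_sys [Finite ι] [DecidableEq ι] (D D' : FlopData k K ι) (hR : D'.R = D.R)
    (hsig : D'.sig = D.sig) (hg : ∀ i, D'.g i = (D.g i)⁻¹) (h1 : D'.Ha (-1) = D.Ha 1)
    (h2 : D'.Ha 1 = D.Ha (-1)) :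
    ∃ (S S' : TCSys k K (NF (ι ⊕ Bool)) (NF (Option ι)) (Option ι) (ι ⊕ Bool)),
      S.src = cech D.ch D.ch_fg ∧ S'.src = cech D'.ch D'.ch_fg ∧ S.targ true = S'.targ false :=
  exists_sys' D D' hR hsig hg h1 h2

end FlopData

end BadRed
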