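import Pool.Agent.Lib.MP_55c1e7_ag.LemmaE

/-!
An equivalence of abelian categories induces an equivalence of the bounded derived categories.
-/

set_option autoImplicit false

open CategoryTheory CategoryTheory.Limits

namespace Pool.Agent.Lib.MP_55c1e7_ag

universe w w' v v' u u'

/-- A linear equivalence of abelian categories induces a linear triangulated equivalence of the
bounded derived categories. -/
theorem Db_congr (k : Type*) [Ring k] {A : Type u} [Category.{v} A] [Abelian A] [Linear k A]
    [HasDerivedCategory.{w} A] {B : Type u'} [Category.{v'} B] [Abelian B] [Linear k B]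
    [HasDerivedCategory.{w'} B] (e : A ≌ B) [e.functor.Additive] [e.functor.Linear k] :
    ∃ (e' : Db A ≌ Db B) (_ : e'.functor.CommShift ℤ),
      e'.functor.IsTriangulated ∧ e'.functor.Linear k := by
  have h₁ : (𝟭 A).essImage = ⊤ := by
    ext X
    simpa using! ⟨X, ⟨Iso.refl _⟩⟩
  have h₂ : e.functor.essImage = ⊤ := by
    ext X
    simpa using! e.functor.essImage.prop_of_iso (e.counitIso.app X)
      (e.functor.obj_mem_essImage _)
  have : (𝟭 A).essImage.IsClosedUnderQuotients := by
    rw [h₁]
    infer_instance
  have : e.functor.essImage.IsClosedUnderSubobjects := by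
    rw [h₂]
    infer_instance
  refine exists_equiv_Db (𝟭 A) e.functor ?_ k (fun X => ⟨X, 𝟙 X, inferInstance⟩)
    (fun X => ⟨e.inverse.obj X, e.counitIso.hom.app X, inferInstance⟩)
  intro S
  have hS : S.map (𝟭 A) = S := rfl
  rw [hS]
  constructor
  · intro h
    exact h.map_of_exact e.functor
  · intro h
    have h' := h.map_of_exact e.inverse
    refine ShortComplex.shortExact_of_iso ?_ h'
    exact ShortComplex.isoMk (e.unitIso.app _).symm (e.unitIso.app _).symm
      (e.unitIso.app _).symm (e.unitIso.inv.naturality S.f).symm
      (e.unitIso.inv.naturality S.g).symm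

end Pool.Agent.Lib.MP_55c1e7_ag
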