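import Pool.Agent.Lib.MP_55c1e7_ag.B.GlueB
import Pool.Agent.Lib.MP_55c1e7_ag.DbEquiv

/-!
Box T: the relation of having equivalent bounded derived categories is an equivalence relation which
contains the linear equivalences of abelian categories and the tilting data.
-/

set_option autoImplicit false

open CategoryTheory CategoryTheory.Limits

namespace MP55c1e7

variable (k : Type) [CommRing k]

/-- A linear equivalence of abelian categories gives an equivalence of the bounded derived
categories. -/
theorem DbEq.of_equivalence {C D : Type 1} [Category.{0} C] [Abelian C]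
    [Linear k C] [Category.{0} D] [Abelian D] [Linear k D] (e : C ≌ D)
    [e.functor.Linear k] : DbEq k C D := by
  have : e.functor.Additive := Functor.additive_of_preserves_binary_products _
  let _ := HasDerivedCategory.standard C
  let _ := HasDerivedCategory.standard D
  exact Pool.Agent.Lib.MP_55c1e7_ag.Db_congr k e

theorem DbEq.refl (C : Type 1) [Category.{0} C] [Abelian C] [Linear k C] : DbEq k C C :=
  have : (CategoryTheory.Equivalence.refl (C := C)).functor.Linear k :=
    inferInstanceAs ((𝟭 C).Linear k)
  DbEq.of_equivalence k (CategoryTheory.Equivalence.refl (C := C))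

variable {k}

theorem DbEq.symm {C D : Type 1} [Category.{0} C] [Abelian C] [Linear k C] [Category.{0} D]
    [Abelian D] [Linear k D] (h : DbEq k C D) : DbEq k D C :=
  DbEq.trans_symm k (DbEq.refl k D) h

theorem DbEq.trans {C₁ C₂ C₃ : Type 1} [Category.{0} C₁] [Abelian C₁] [Linear k C₁]
    [Category.{0} C₂] [Abelian C₂] [Linear k C₂] [Category.{0} C₃] [Abelian C₃] [Linear k C₃]
    (h₁ : DbEq k C₁ C₂) (h₂ : DbEq k C₂ C₃) : DbEq k C₁ C₃ :=
  DbEq.trans_symm k h₁ h₂.symm

/-- The two forms are equivalent. -/
theorem dbEq_iff_dbEquivalent {C D : Type 1} [Category.{0} C] [Abelian C] [Linear k C]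
    [Category.{0} D] [Abelian D] [Linear k D] : DbEq k C D ↔ BadRed.DbEquivalent k C D := by
  refine ⟨DbEq.dbEquivalent k, ?_⟩
  let _ := HasDerivedCategory.standard C
  let _ := HasDerivedCategory.standard D
  rintro ⟨F, s, h1, h2, _, h4⟩
  exact ⟨F.asEquivalence, s, h2, h4⟩

end MP55c1e7

namespace BadRed

open MP55c1e7

variable {k : Type} [CommRing k] {C D E : Type 1} [Category.{0} C] [Abelian C] [Linear k C]
    [Category.{0} D] [Abelian D] [Linear k D] [Category.{0} E] [Abelian E] [Linear k E]

theorem DbEquivalent.refl : DbEquivalent k C C := (DbEq.refl k C).dbEquivalent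

theorem DbEquivalent.symm (h : DbEquivalent k C D) : DbEquivalent k D C :=
  dbEq_iff_dbEquivalent.1 (dbEq_iff_dbEquivalent.2 h).symm

theorem DbEquivalent.trans (h : DbEquivalent k C D) (h' : DbEquivalent k D E) :
    DbEquivalent k C E :=
  dbEq_iff_dbEquivalent.1 ((dbEq_iff_dbEquivalent.2 h).trans (dbEq_iff_dbEquivalent.2 h'))

theorem DbEquivalent.of_equivalence (e : C ≌ D) [e.functor.Additive] [e.functor.Linear k] :
    DbEquivalent k C D :=
  (DbEq.of_equivalence k e).dbEquivalent

theorem DbEquivalent.of_functor (F : C ⥤ D) [F.IsEquivalence] [F.Additive] [F.Linear k] :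
    DbEquivalent k C D := by
  have : F.asEquivalence.functor.Additive := inferInstanceAs F.Additive
  have : F.asEquivalence.functor.Linear k := inferInstanceAs (F.Linear k)
  exact DbEquivalent.of_equivalence F.asEquivalence

theorem DbEquivalent.of_tilt (Psi : C ⥤ D) [Psi.Additive]
    [Psi.Linear k] [PreservesFiniteLimits Psi] (E P : ObjectProperty C) (h : TiltData Psi E P)
    (hemb : ∀ X : C, ∃ (Y : C) (i : X ⟶ Y), E Y ∧ Mono i) : DbEquivalent k C D :=
  (DbEq.of_tilt k Psi E P h hemb).dbEquivalent

end BadRed
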