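import Pool.Agent.Lib.MP_55c1e7_ag.BoxB2
import Pool.Agent.Lib.MP_55c1e7_ag.BoxL2
import Pool.Agent.Lib.MP_55c1e7_ag.BoxB3
import Pool.Agent.Lib.MP_55c1e7_ag.BoxT

open CategoryTheory CategoryTheory.Limits AlgebraicGeometry

namespace BadRed

variable {k K : Type} [Field k] [Field K] [Algebra k K] {ι : Type}

/-- BOX B -/
theorem dbEquivalent_of_flop [Finite ι] [DecidableEq ι] (D D' : FlopData k K ι) (hR : D'.R = D.R)
    (hsig : D'.sig = D.sig) (hg : ∀ i, D'.g i = (D.g i)⁻¹) (h1 : D'.Ha (-1) = D.Ha 1)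
    (h2 : D'.Ha 1 = D.Ha (-1)) {X X' : Scheme.{0}} [IsLocallyNoetherian X]
    [IsLocallyNoetherian X'] {f : X ⟶ Spec (CommRingCat.of k)} {f' : X' ⟶ Spec (CommRingCat.of k)}
    (C : Charted f D.ch) (C' : Charted f' D'.ch) : DbEquivalent k (Coh f) (Coh f') := by
  obtain ⟨S, S', hS, hS', hT⟩ := FlopData.exists_sys D D' hR hsig hg h1 h2
  have e1 := S.dbEquivalent true
  have e2 := S'.dbEquivalent false
  have hA : S.A = cechRing D.ch := congrArg LocData.R hS
  have hA' : S'.A = cechRing D'.ch := congrArg LocData.R hS'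
  have hd := @S.denX
  have hd' := @S'.denX
  rw [hA] at hd
  rw [hA'] at hd'
  rw [hS] at e1
  rw [hS', ← hT] at e2
  obtain ⟨e, he, he'⟩ := C.coh_equiv D.ch_fg (fun S T h => hd h)
  obtain ⟨e', he₁, he₁'⟩ := C'.coh_equiv D'.ch_fg (fun S T h => hd' h)
  exact (((DbEquivalent.of_equivalence e).trans e1).trans e2.symm).trans
    (DbEquivalent.of_equivalence e').symm

end BadRed
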