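import Pool.Agent.Lib.MP_55c1e7_ag.B0.Q7

open CategoryTheory CategoryTheory.Limits AlgebraicGeometry

namespace BadRed

variable {k K : Type} [Field k] [Field K] [Algebra k K] {Lam : Type}

/-- BOX B2a -/
theorem Charted.isLocallyNoetherian {X : Scheme.{0}} {f : X ⟶ Spec (CommRingCat.of k)}
    {A : Lam → Subalgebra k K} (C : Charted f A) (hA : ∀ l, (A l).FG) :
    IsLocallyNoetherian X :=
  C.isLocallyNoetherian' hA

/-- BOX B2 (helper65) -/
theorem Charted.coh_equiv {X : Scheme.{0}} [IsLocallyNoetherian X]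
    {f : X ⟶ Spec (CommRingCat.of k)}
    {A : Lam → Subalgebra k K} (C : Charted f A) (hA : ∀ l, (A l).FG)
    (hden : ∀ S T : NF Lam, S ≤ T → ∀ x ∈ cechRing A T, ∃ h ∈ cechRing A S,
      h ≠ 0 ∧ h⁻¹ ∈ cechRing A T ∧ h * x ∈ cechRing A S) :
    ∃ (e : Coh f ≌ CohRep (cech A hA)) (_ : e.functor.Additive), e.functor.Linear k :=
  C.coh_equiv' hA hden

end BadRed
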