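import Pool.Agent.Lib.MP_55c1e7_ag.Cech

/-!
Charted schemes are locally noetherian.
-/

open CategoryTheory CategoryTheory.Limits AlgebraicGeometry

namespace BadRed

variable {k K : Type} [Field k] [Field K] [Algebra k K] {Lam : Type}

lemma interV_single {X : Scheme.{0}} (V : Lam → X.Opens) (l : Lam) :
    interV V (NF.single l) = V l := Finset.inf_singleton

/-- BOX B2a -/
theorem Charted.isLocallyNoetherian {X : Scheme.{0}} {f : X ⟶ Spec (CommRingCat.of k)}
    {A : Lam → Subalgebra k K} (C : Charted f A) (hA : ∀ l, (A l).FG) :
    IsLocallyNoetherian X := by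
  refine isLocallyNoetherian_of_affine_cover
    (S := fun l : Lam => ⟨interV C.V (NF.single l), C.affine _⟩) ?_ fun l => ?_
  · rw [← C.cover]
    exact iSup_congr fun l => interV_single C.V l
  · have h1 : IsNoetherianRing (cechRing A (NF.single l)) := noeth_of_fg (cechRing_fg A hA _)
    have h2 : IsNoetherianRing (C.phi (NF.single l)).range := by
      rw [C.range]
      exact h1
    exact isNoetherianRing_of_ringEquiv _
      (RingEquiv.ofBijective (C.phi (NF.single l)).rangeRestrict
        ⟨fun x y h => C.inj _ (congrArg Subtype.val h), RingHom.rangeRestrict_surjective _⟩).symm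

end BadRed
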