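import Pool.Agent.Lib.MP_55c1e7_ag.CK.Main

/-!
# Box C: smooth projective varieties, good reduction
-/

set_option autoImplicit false

open CategoryTheory CategoryTheory.Limits AlgebraicGeometry
open MP55c1e7.CG Pool.Agent.Lib.MP_55c1e7_ag.CK

namespace BadRed

theorem boxC_smX {k K : Type} [Field k] [Field K] [Algebra k K] (h2 : (2 : k) ≠ 0)
    (h3 : (3 : k) ≠ 0) (h41 : (41 : k) ≠ 0) (P : Pt k K) (hP : P.Gen) :
    IsSmoothProjectiveVariety (PM.toSpec k (hX P)) :=
  X_smoothProjective P h2 h3 h41 hP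

theorem boxC_smY {k K : Type} [Field k] [Field K] [Algebra k K] (h2 : (2 : k) ≠ 0)
    (h3 : (3 : k) ≠ 0) (h41 : (41 : k) ≠ 0) (P : Pt k K) (hP : P.Gen) :
    IsSmoothProjectiveVariety (PM.toSpec k (hY P)) :=
  Y_smoothProjective P h2 h3 h41 hP

theorem boxC_good {O k K : Type} [CommRing O] [IsDomain O] [IsDiscreteValuationRing O] [Field k]
    [Algebra O k] [IsFractionRing O k] [Field K] [Algebra k K]
    (h3 : Irreducible (3 : O)) (h2 : IsUnit (2 : O)) (h41 : IsUnit (41 : O)) (hk : (3 : k) ≠ 0)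
    (P : Pt k K) (hP : P.Gen) : HasGoodModel O k (PM.toSpec k (hX P)) := by
  let _ : Algebra O K := ((algebraMap k K).comp (algebraMap O k)).toAlgebra
  have : IsScalarTower O k K := IsScalarTower.of_algebraMap_eq fun _ => rfl
  exact X_hasGoodModel P O h2 h41 hk hP

end BadRed
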