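import Mathlib

/-! Regular local rings: quotient by a parameter, regular local rings are domains. -/

open IsLocalRing

universe u

namespace MP55c1e7.Reg

/-- a parameter together with `dim - 1` further elements generates the maximal ideal -/
theorem exists_generators {R : Type u} [CommRing R] [IsLocalRing R] [IsNoetherianRing R]
    {t : R} (ht : t ∈ maximalIdeal R) (ht2 : t ∉ maximalIdeal R ^ 2) :
    ∃ S : Set R, S.Finite ∧ S.ncard + 1 ≤ (maximalIdeal R).spanFinrank ∧
      Ideal.span (insert t S) = maximalIdeal R := by
  classical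
  let v : CotangentSpace R := (maximalIdeal R).toCotangent ⟨t, ht⟩
  have hv : v ≠ 0 := by
    intro h
    apply ht2
    exact (Ideal.toCotangent_eq_zero _ _).1 h
  have hfin : FiniteDimensional (ResidueField R) (CotangentSpace R) := inferInstance
  have hW : Module.finrank (ResidueField R)
      (CotangentSpace R ⧸ (Submodule.span (ResidueField R) {v})) + 1 =
      Module.finrank (ResidueField R) (CotangentSpace R) := by
    have h1 := Submodule.finrank_quotient_add_finrank (Submodule.span (ResidueField R) {v})
    have h2 : Module.finrank (ResidueField R) (Submodule.span (ResidueField R) {v}) = 1 :=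
      finrank_span_singleton hv
    rw [h2] at h1
    exact h1
  let b := Module.finBasis (ResidueField R)
      (CotangentSpace R ⧸ (Submodule.span (ResidueField R) {v}))
  -- lift the basis to the maximal ideal
  have hlift : ∀ i, ∃ s : maximalIdeal R,
      (Submodule.span (ResidueField R) {v}).mkQ ((maximalIdeal R).toCotangent s) = b i := by
    intro i
    obtain ⟨w, hw⟩ := Submodule.mkQ_surjective (Submodule.span (ResidueField R) {v}) (b i)
    obtain ⟨s, hs⟩ := Ideal.toCotangent_surjective (maximalIdeal R) w
    exact ⟨s, by rw [hs, hw]⟩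
  choose s hs using hlift
  refine ⟨Set.range (fun i => (s i : R)), Set.finite_range _, ?_, ?_⟩
  · rw [spanFinrank_maximalIdeal_eq_finrank_cotangentSpace, ← hW]
    have : (Set.range (fun i => (s i : R))).ncard ≤ Module.finrank (ResidueField R)
      (CotangentSpace R ⧸ (Submodule.span (ResidueField R) {v})) := by
      rw [← Set.image_univ]
      refine (Set.ncard_image_le Set.finite_univ).trans ?_
      simp
    omega
  · -- Nakayama
    have hle : Ideal.span (insert t (Set.range (fun i => (s i : R)))) ≤ maximalIdeal R := by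
      rw [Ideal.span_le]
      intro x hx
      rcases hx with rfl | ⟨i, rfl⟩
      · exact ht
      · exact (s i).2
    apply le_antisymm hle
    -- it is enough to prove m ≤ span ⊔ m • m
    apply Submodule.le_of_le_smul_of_le_jacobson_bot (IsNoetherian.noetherian (maximalIdeal R))
      (IsLocalRing.maximalIdeal_le_jacobson ⊥)
    intro x hx
    -- the class of x in the quotient
    let w := (maximalIdeal R).toCotangent ⟨x, hx⟩
    have h1 := b.sum_repr ((Submodule.span (ResidueField R) {v}).mkQ w)
    -- lift the coefficients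
    have h2 : ∀ i, ∃ a : R, IsLocalRing.residue R a =
        b.repr ((Submodule.span (ResidueField R) {v}).mkQ w) i :=
      fun i => IsLocalRing.residue_surjective _
    choose a ha using h2
    let y : maximalIdeal R := ∑ i, a i • s i
    have h3 : (Submodule.span (ResidueField R) {v}).mkQ (w - (maximalIdeal R).toCotangent y) = 0 := by
      rw [map_sub, sub_eq_zero, ← h1]
      simp only [y, map_sum, map_smul]
      apply Finset.sum_congr rfl
      intro i _
      rw [← ha i, ← hs i]
      rfl
    rw [← LinearMap.mem_ker, Submodule.ker_mkQ, Submodule.mem_span_singleton] at h3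
    obtain ⟨c, hc⟩ := h3
    obtain ⟨c', rfl⟩ := IsLocalRing.residue_surjective c
    have h4 : (maximalIdeal R).toCotangent (⟨x, hx⟩ - y - c' • ⟨t, ht⟩) = 0 := by
      rw [map_sub, map_sub, map_smul, sub_eq_zero]
      exact hc.symm
    rw [Ideal.toCotangent_eq_zero] at h4
    have h5 : x = (y : R) + c' * t + ((⟨x, hx⟩ - y - c' • (⟨t, ht⟩ : maximalIdeal R) :
        maximalIdeal R) : R) := by
      simp only [Submodule.coe_sub, Submodule.coe_smul, smul_eq_mul]
      ring
    rw [h5]
    apply Submodule.add_mem_sup
    · apply Ideal.add_mem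
      · have : (y : R) = ∑ i, a i * (s i : R) := by
          simp [y]
        rw [this]
        apply Ideal.sum_mem
        intro i _
        apply Ideal.mul_mem_left
        apply Ideal.subset_span
        exact Or.inr ⟨i, rfl⟩
      · apply Ideal.mul_mem_left
        apply Ideal.subset_span
        exact Or.inl rfl
    · rw [smul_eq_mul, ← pow_two]
      exact h4


theorem mem_span_quot {R : Type u} [CommRing R] [IsLocalRing R] [IsNoetherianRing R]
    {t : R} (ht : t ∈ maximalIdeal R) : Nontrivial (R ⧸ Ideal.span {t}) := by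
  apply Ideal.Quotient.nontrivial_iff.2
  intro h
  have : (1 : R) ∈ Ideal.span {t} := by rw [h]; trivial
  have h2 : (1 : R) ∈ maximalIdeal R := (Ideal.span_le.2 (by simpa using ht)) this
  exact (Ideal.ne_top_iff_one _).1 (IsLocalRing.maximalIdeal.isMaximal R).ne_top h2

theorem map_maximalIdeal {R : Type u} [CommRing R] [IsLocalRing R] (I : Ideal R)
    [Nontrivial (R ⧸ I)] [IsLocalRing (R ⧸ I)] :
    (maximalIdeal R).map (Ideal.Quotient.mk I) = maximalIdeal (R ⧸ I) := by
  have hI : I ≤ maximalIdeal R := by
    apply IsLocalRing.le_maximalIdeal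
    exact Ideal.Quotient.nontrivial_iff.1 inferInstance
  have hmax : ((maximalIdeal R).map (Ideal.Quotient.mk I)).IsMaximal := by
    rcases Ideal.map_eq_top_or_isMaximal_of_surjective (Ideal.Quotient.mk I)
      Ideal.Quotient.mk_surjective (maximalIdeal.isMaximal R) with h | h
    · exfalso
      have h1 : (1 : R ⧸ I) ∈ (maximalIdeal R).map (Ideal.Quotient.mk I) := by rw [h]; trivial
      rw [Ideal.mem_map_iff_of_surjective _ Ideal.Quotient.mk_surjective] at h1
      obtain ⟨x, hx, hx1⟩ := h1
      have h2 : x - 1 ∈ I := by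
        rw [← Ideal.Quotient.eq_zero_iff_mem, map_sub, hx1, map_one, sub_self]
      have h3 : (1 : R) ∈ maximalIdeal R := by
        have := Ideal.sub_mem _ hx (hI h2)
        simpa using this
      exact (Ideal.ne_top_iff_one _).1 (maximalIdeal.isMaximal R).ne_top h3
    · exact h
  exact IsLocalRing.eq_maximalIdeal hmax

/-- the Krull dimension of a noetherian local ring is a natural number -/
theorem exists_dim (R : Type u) [CommRing R] [IsLocalRing R] [IsNoetherianRing R] :
    ∃ n : ℕ, ringKrullDim R = n := by
  have h1 : ringKrullDim R ≤ ((maximalIdeal R).spanFinrank : WithBot ℕ∞) :=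
    ringKrullDim_le_spanFinrank_maximalIdeal _
  have h2 : (0 : WithBot ℕ∞) ≤ ringKrullDim R := ringKrullDim_nonneg_of_nontrivial
  obtain ⟨a, ha⟩ := WithBot.ne_bot_iff_exists.1 (show ringKrullDim R ≠ ⊥ by
    intro h; rw [h] at h2; simp at h2)
  rw [← ha] at h1 ⊢
  have h3 : a ≤ ((maximalIdeal R).spanFinrank : ℕ∞) := by exact_mod_cast h1
  obtain ⟨n, hn⟩ := ENat.ne_top_iff_exists.1 (ne_top_of_le_ne_top (ENat.natCast_ne_top _) h3)
  exact ⟨n, by rw [← hn]; rfl⟩

/-- the quotient of a regular local ring by a parameter outside the square of the maximal ideal -/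
theorem quotient_regular {R : Type u} [CommRing R] [IsRegularLocalRing R]
    {t : R} (ht : t ∈ maximalIdeal R) (ht2 : t ∉ maximalIdeal R ^ 2) {n : ℕ}
    (hn : ringKrullDim R = n + 1) :
    IsRegularLocalRing (R ⧸ Ideal.span {t}) ∧
      ringKrullDim (R ⧸ Ideal.span {t}) = n := by
  classical
  have : Nontrivial (R ⧸ Ideal.span {t}) := mem_span_quot ht
  have hloc : IsLocalRing (R ⧸ Ideal.span {t}) :=
    IsLocalRing.of_surjective' (Ideal.Quotient.mk _) Ideal.Quotient.mk_surjective
  obtain ⟨S, hSf, hS, hspan⟩ := exists_generators ht ht2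
  have h1 : (maximalIdeal (R ⧸ Ideal.span {t})).spanFinrank ≤ S.ncard := by
    rw [← map_maximalIdeal, ← hspan, Ideal.map_span, Set.image_insert_eq]
    have h0 : Ideal.Quotient.mk (Ideal.span {t}) t = 0 := by
      rw [Ideal.Quotient.eq_zero_iff_mem]
      exact Ideal.mem_span_singleton_self t
    rw [h0, Ideal.span_insert_zero]
    exact (Submodule.spanFinrank_span_le_ncard_of_finite (hSf.image _)).trans
      (Set.ncard_image_le hSf)
  have h2 : ((maximalIdeal R).spanFinrank : WithBot ℕ∞) = ringKrullDim R :=
    IsRegularLocalRing.spanFinrank_maximalIdeal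
  have h3 : ringKrullDim R ≤ ringKrullDim (R ⧸ Ideal.span {t}) + 1 := by
    have := ringKrullDim_le_ringKrullDim_quotient_add_encard ({t} : Set R) (by
      intro x hx
      rw [Set.mem_singleton_iff] at hx
      rw [hx, IsLocalRing.ringJacobson_eq_maximalIdeal]
      exact ht)
    simpa using this
  have h4 : ringKrullDim (R ⧸ Ideal.span {t}) ≤
      ((maximalIdeal (R ⧸ Ideal.span {t})).spanFinrank : WithBot ℕ∞) :=
    ringKrullDim_le_spanFinrank_maximalIdeal _
  -- all numbers are natural numbers
  obtain ⟨m, hm⟩ := exists_dim (R ⧸ Ideal.span {t})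
  rw [hn] at h2 h3
  rw [hm] at h3 h4
  have h2' : (maximalIdeal R).spanFinrank = n + 1 := by exact_mod_cast h2
  have h3' : n + 1 ≤ m + 1 := by exact_mod_cast h3
  have h4' : m ≤ (maximalIdeal (R ⧸ Ideal.span {t})).spanFinrank := by exact_mod_cast h4
  have hmn : m = n := by omega
  subst hmn
  refine ⟨⟨?_⟩, hm⟩
  rw [hm]
  have : (maximalIdeal (R ⧸ Ideal.span {t})).spanFinrank = m := by omega
  exact_mod_cast this

/-- a regular local ring of dimension zero is a field -/
theorem isField_of_dim_zero {R : Type u} [CommRing R] [IsRegularLocalRing R]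
    (h : ringKrullDim R = 0) : IsField R := by
  rw [IsLocalRing.isField_iff_maximalIdeal_eq]
  have h2 : ((maximalIdeal R).spanFinrank : WithBot ℕ∞) = ringKrullDim R :=
    IsRegularLocalRing.spanFinrank_maximalIdeal
  rw [h] at h2
  have h3 : (maximalIdeal R).spanFinrank = 0 := by exact_mod_cast h2
  exact (Submodule.spanFinrank_eq_zero_iff_eq_bot (IsNoetherian.noetherian _)).1 h3

/-- existence of a parameter outside `m ^ 2` and outside all minimal primes -/
theorem exists_parameter {R : Type u} [CommRing R] [IsLocalRing R] [IsNoetherianRing R] {n : ℕ}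
    (hn : ringKrullDim R = n + 1) :
    ∃ t ∈ maximalIdeal R, t ∉ maximalIdeal R ^ 2 ∧ ∀ p ∈ minimalPrimes R, t ∉ p := by
  classical
  by_contra hcon
  push Not at hcon
  have hfin : (minimalPrimes R).Finite := minimalPrimes.finite_of_isNoetherianRing R
  have hdim : (maximalIdeal R).height = (n + 1 : ℕ) := by
    have := IsLocalRing.maximalIdeal_height_eq_ringKrullDim (R := R)
    rw [hn] at this
    exact_mod_cast this
  have h1 : ((maximalIdeal R : Ideal R) : Set R) ⊆
      ⋃ i ∈ insert (maximalIdeal R ^ 2) (minimalPrimes R), (i : Set R) := by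
    intro t ht
    simp only [Set.mem_iUnion]
    by_cases h : t ∈ maximalIdeal R ^ 2
    · exact ⟨_, Set.mem_insert _ _, h⟩
    · obtain ⟨p, hp, hpt⟩ := hcon t ht h
      exact ⟨p, Set.mem_insert_of_mem _ hp, hpt⟩
  rw [Ideal.subset_union_prime_finite (hfin.insert _) (maximalIdeal R ^ 2) (maximalIdeal R ^ 2)] at h1
  · obtain ⟨p, hp, hle⟩ := h1
    rcases hp with rfl | hp
    · have h2 : maximalIdeal R = ⊥ := by
        apply Submodule.eq_bot_of_le_smul_of_le_jacobson_bot (maximalIdeal R) (maximalIdeal R)
          (IsNoetherian.noetherian _)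
        · rw [smul_eq_mul, ← pow_two]; exact hle
        · exact IsLocalRing.maximalIdeal_le_jacobson ⊥
      have h3 : (maximalIdeal R).height = 0 := by
        rw [h2]
        have : IsField R := IsLocalRing.isField_iff_maximalIdeal_eq.2 h2
        letI := this.toField
        exact Ideal.height_bot
      rw [h3] at hdim
      exact absurd hdim.symm (by exact_mod_cast Nat.succ_ne_zero n)
    · have h2 : (maximalIdeal R).height = 0 := by
        have hpp : p.IsPrime := hp.1.1
        have h4 : p = maximalIdeal R := le_antisymm (IsLocalRing.le_maximalIdeal hpp.ne_top) hle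
        rw [← h4]
        exact Ideal.height_eq_zero_iff.2 hp
      rw [h2] at hdim
      exact absurd hdim.symm (by exact_mod_cast Nat.succ_ne_zero n)
  · intro i hi hne _
    rcases hi with rfl | hi
    · exact absurd rfl hne
    · exact hi.1.1

/-- a regular local ring is a domain -/
theorem isDomain_of_dim (n : ℕ) : ∀ (R : Type u) [CommRing R] [IsRegularLocalRing R],
    ringKrullDim R = n → IsDomain R := by
  induction n with
  | zero =>
    intro R _ _ h
    exact (isField_of_dim_zero (by simpa using h)).isDomain
  | succ n ih =>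
    intro R _ _ h
    obtain ⟨t, ht, ht2, htm⟩ := exists_parameter (R := R) (n := n) (by simpa using h)
    obtain ⟨h1, h2⟩ := quotient_regular ht ht2 (n := n) (by simpa using h)
    have h3 : IsDomain (R ⧸ Ideal.span {t}) := ih _ h2
    have h4 : (Ideal.span {t}).IsPrime := (Ideal.Quotient.isDomain_iff_prime _).1 h3
    obtain ⟨p, hp, hpt⟩ := Ideal.exists_minimalPrimes_le (I := (⊥ : Ideal R))
      (J := Ideal.span {t}) bot_le
    have hpp : p.IsPrime := hp.1.1
    have htp : t ∉ p := htm p hp
    have h5 : p = ⊥ := by
      apply Submodule.eq_bot_of_le_smul_of_le_jacobson_bot (maximalIdeal R) p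
          (IsNoetherian.noetherian _)
      · intro a ha
        obtain ⟨b, hb⟩ := Ideal.mem_span_singleton.1 (hpt ha)
        have hbp : b ∈ p := by
          rw [hb] at ha
          exact (hpp.mem_or_mem ha).resolve_left htp
        rw [hb]
        exact Submodule.smul_mem_smul ht hbp
      · exact IsLocalRing.maximalIdeal_le_jacobson ⊥
    rw [h5] at hpp
    exact IsDomain.of_bot_isPrime R

theorem isDomain (R : Type u) [CommRing R] [IsRegularLocalRing R] : IsDomain R := by
  obtain ⟨n, hn⟩ := exists_dim R
  exact isDomain_of_dim n R hn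

/-- a parameter outside `m ^ 2` is a prime element -/
theorem prime_of_parameter {R : Type u} [CommRing R] [IsRegularLocalRing R]
    {t : R} (ht : t ∈ maximalIdeal R) (ht2 : t ∉ maximalIdeal R ^ 2) : Prime t := by
  have hdom := isDomain R
  have ht0 : t ≠ 0 := by
    rintro rfl
    exact ht2 (Ideal.zero_mem _)
  obtain ⟨n, hn⟩ := exists_dim R
  have hn0 : n ≠ 0 := by
    rintro rfl
    have := isField_of_dim_zero (R := R) (by simpa using hn)
    rw [IsLocalRing.isField_iff_maximalIdeal_eq] at this
    rw [this] at ht
    exact ht0 (by simpa using ht)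
  obtain ⟨k, rfl⟩ := Nat.exists_eq_succ_of_ne_zero hn0
  obtain ⟨h1, -⟩ := quotient_regular ht ht2 (n := k) (by simpa using hn)
  rw [← Ideal.span_singleton_prime ht0, ← Ideal.Quotient.isDomain_iff_prime]
  exact isDomain _

end MP55c1e7.Reg
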