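import Mathlib
import Pool.Agent.Lib.MP_55c1e7_ag.Reg1

universe u
open IsLocalRing

namespace MP55c1e7.Reg

/-- finite free resolutions of length at most `n`, for all choices of the generators -/
def FFR (R : Type u) [CommRing R] : ℕ → ∀ (M : Type u) [AddCommGroup M] [Module R M], Prop
  | 0, M, _, _ => Module.Free R M ∧ Module.Finite R M
  | n + 1, M, _, _ => ∀ (k : ℕ) (f : (Fin k → R) →ₗ[R] M), Function.Surjective f →
      FFR R n (LinearMap.ker f)

theorem FFR.equiv {R : Type u} [CommRing R] (n : ℕ) : ∀ {M N : Type u} [AddCommGroup M]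
    [Module R M] [AddCommGroup N] [Module R N] (_ : M ≃ₗ[R] N), FFR R n M → FFR R n N := by
  induction n with
  | zero =>
    intro M N _ _ _ _ e h
    obtain ⟨h1, h2⟩ := h
    exact ⟨Module.Free.of_equiv e, Module.Finite.equiv e⟩
  | succ n ih =>
    intro M N _ _ _ _ e h k f hf
    have h1 := h k (e.symm.toLinearMap ∘ₗ f) (e.symm.surjective.comp hf)
    exact ih (LinearEquiv.ofEq _ _ (by
      ext x
      simp)) h1

theorem FFR.lift {R R' : Type u} [CommRing R] [IsLocalRing R] [IsNoetherianRing R] [IsDomain R]
    [CommRing R'] [Algebra R R'] (hs : Function.Surjective (algebraMap R R')) {t : R}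
    (ht : t ∈ maximalIdeal R) (ht0 : t ≠ 0)
    (htt : algebraMap R R' t = 0)
    (hk : ∀ x : R, algebraMap R R' x = 0 → ∃ y, x = t * y) (n : ℕ) :
    ∀ (N N' : Type u) [AddCommGroup N] [Module R N] [AddCommGroup N'] [Module R N'] [Module R' N']
      [IsScalarTower R R' N'] [Module.Finite R N] (π : N →ₗ[R] N') (_ : Function.Surjective π)
      (_ : ∀ x, π x = 0 → ∃ y, x = t • y) (_ : ∀ x : N, t • x = 0 → x = 0),
      FFR R' n N' → FFR R n N := by
  classical
  have hker : ∀ {k : ℕ} {N : Type u} [AddCommGroup N] [Module R N]
      (_ : ∀ x : N, t • x = 0 → x = 0) (f : (Fin k → R) →ₗ[R] N) (x : Fin k → R)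
      (_ : f x = 0) (_ : ∀ i, algebraMap R R' (x i) = 0), ∃ y, x = t • y ∧ f y = 0 := by
    intro k N _ _ hreg f x hx h0
    choose y hy using fun i => hk _ (h0 i)
    have h1 : x = t • y := by
      ext i
      rw [hy i]; rfl
    refine ⟨y, h1, ?_⟩
    apply hreg
    rw [← map_smul, ← h1, hx]
  induction n with
  | zero =>
    intro N N' _ _ _ _ _ _ _ π hπ hkπ hreg h
    obtain ⟨hfree, hfin⟩ := h
    rcases subsingleton_or_nontrivial R' with hsub | hnon
    · -- `R' = 0` is impossible
      exfalso
      obtain ⟨y, hy⟩ := hk 1 (Subsingleton.elim _ _)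
      have h1 : (1 : R) ∈ maximalIdeal R := by
        rw [hy]
        exact Ideal.mul_mem_right _ _ ht
      exact (Ideal.ne_top_iff_one _).1 (maximalIdeal.isMaximal R).ne_top h1
    · let b := Module.finBasis R' N'
      choose v hv using fun i => hπ (b i)
      let f : (Fin (Module.finrank R' N') → R) →ₗ[R] N := Fintype.linearCombination R v
      have hf : ∀ x, π (f x) = b.equivFun.symm (fun i => algebraMap R R' (x i)) := by
        intro x
        simp only [f, Fintype.linearCombination_apply, map_sum, map_smul, hv,
          Module.Basis.equivFun_symm_apply, algebraMap_smul]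
      have hsurj : Function.Surjective f := by
        rw [← LinearMap.range_eq_top, eq_top_iff]
        apply Submodule.le_of_le_smul_of_le_jacobson_bot (I := maximalIdeal R)
          (Module.Finite.fg_top) (IsLocalRing.maximalIdeal_le_jacobson ⊥)
        intro z _
        obtain ⟨y, hy⟩ : ∃ y : Fin (Module.finrank R' N') → R,
            ∀ i, algebraMap R R' (y i) = b.equivFun (π z) i :=
          ⟨fun i => (hs (b.equivFun (π z) i)).choose, fun i => (hs (b.equivFun (π z) i)).choose_spec⟩
        have h1 : π (z - f y) = 0 := by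
          rw [map_sub, hf, sub_eq_zero]
          have : (fun i => algebraMap R R' (y i)) = b.equivFun (π z) := funext hy
          rw [this, LinearEquiv.symm_apply_apply]
        obtain ⟨w, hw⟩ := hkπ _ h1
        have h2 : z = f y + t • w := by rw [← hw]; abel
        rw [h2]
        exact Submodule.add_mem_sup ⟨y, rfl⟩ (Submodule.smul_mem_smul ht trivial)
      have hinj : LinearMap.ker f = ⊥ := by
        apply Submodule.eq_bot_of_le_smul_of_le_jacobson_bot (maximalIdeal R) (LinearMap.ker f)
          (IsNoetherian.noetherian _) _ (IsLocalRing.maximalIdeal_le_jacobson ⊥)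
        intro x hx
        have h0 : ∀ i, algebraMap R R' (x i) = 0 := by
          have h1 := hf x
          rw [LinearMap.mem_ker.1 hx, map_zero] at h1
          have h2 : (fun i => algebraMap R R' (x i)) = 0 := by
            apply b.equivFun.symm.injective
            rw [← h1, map_zero]
          exact fun i => congrFun h2 i
        obtain ⟨y, hy, hy0⟩ := hker hreg f x (LinearMap.mem_ker.1 hx) h0
        rw [hy]
        exact Submodule.smul_mem_smul ht hy0
      let e := LinearEquiv.ofBijective f ⟨LinearMap.ker_eq_bot.1 hinj, hsurj⟩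
      exact ⟨Module.Free.of_equiv e, inferInstance⟩
  | succ n ih =>
    intro N N' _ _ _ _ _ _ _ π hπ hkπ hreg h k f hf
    let f' : (Fin k → R') →ₗ[R'] N' :=
      Fintype.linearCombination R' (fun i => π (f (Pi.single i 1)))
    have hff : ∀ x, π (f x) = f' (fun i => algebraMap R R' (x i)) := by
      intro x
      have hx : x = ∑ i, x i • (Pi.single i 1 : Fin k → R) := by
        ext j
        simp [Finset.sum_apply, Pi.single_apply]
      conv_lhs => rw [hx]
      simp only [f', Fintype.linearCombination_apply, map_sum, map_smul, algebraMap_smul]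
    have hlift : ∀ y' : Fin k → R', ∃ y : Fin k → R, (fun i => algebraMap R R' (y i)) = y' := by
      intro y'
      exact ⟨fun i => (hs (y' i)).choose, funext fun i => (hs (y' i)).choose_spec⟩
    have hf' : Function.Surjective f' := by
      intro z
      obtain ⟨y, rfl⟩ := hπ z
      obtain ⟨x, rfl⟩ := hf y
      exact ⟨_, (hff x).symm⟩
    let πK : LinearMap.ker f →ₗ[R] LinearMap.ker f' :=
      { toFun := fun x => ⟨fun i => algebraMap R R' (x.1 i), by
          rw [LinearMap.mem_ker, ← hff, LinearMap.mem_ker.1 x.2, map_zero]⟩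
        map_add' := fun x y => by
          ext i
          simp
        map_smul' := fun r x => by
          ext i
          simp [Algebra.smul_def] }
    refine ih (LinearMap.ker f) (LinearMap.ker f') πK ?_ ?_ ?_ (h k f' hf')
    · rintro ⟨y', hy'⟩
      obtain ⟨y, rfl⟩ := hlift y'
      rw [LinearMap.mem_ker, ← hff] at hy'
      obtain ⟨z, hz⟩ := hkπ _ hy'
      obtain ⟨w, rfl⟩ := hf z
      refine ⟨⟨y - t • w, ?_⟩, ?_⟩
      · rw [LinearMap.mem_ker, map_sub, map_smul, hz, sub_self]
      · ext i
        simp [πK, htt]
    · rintro ⟨x, hx⟩ h0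
      have h1 : ∀ i, algebraMap R R' (x i) = 0 := fun i => congrFun (congrArg Subtype.val h0) i
      obtain ⟨y, hy, hy0⟩ := hker hreg f x (LinearMap.mem_ker.1 hx) h1
      exact ⟨⟨y, hy0⟩, Subtype.ext hy⟩
    · rintro ⟨x, hx⟩ h0
      apply Subtype.ext
      have h1 : t • x = 0 := congrArg Subtype.val h0
      exact (smul_eq_zero.1 h1).resolve_left ht0

theorem ffr_of_dim (d : ℕ) : ∀ (R : Type u) [CommRing R] [IsRegularLocalRing R],
    ringKrullDim R = d → ∀ (M : Type u) [AddCommGroup M] [Module R M] [Module.Finite R M],
      FFR R d M := by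
  induction d with
  | zero =>
    intro R _ _ hd M _ _ _
    have hF := isField_of_dim_zero (R := R) (by simpa using hd)
    letI := hF.toField
    exact ⟨inferInstance, inferInstance⟩
  | succ d ih =>
    intro R _ _ hd M _ _ _ k f hf
    have hdom := isDomain R
    obtain ⟨t, ht, ht2, htm⟩ := exists_parameter (R := R) (n := d) (by simpa using hd)
    obtain ⟨h1, h2⟩ := quotient_regular ht ht2 (n := d) (by simpa using hd)
    have ht0 : t ≠ 0 := by
      rintro rfl
      exact ht2 (Ideal.zero_mem _)
    let K := LinearMap.ker f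
    let N' := K ⧸ (Ideal.span {t} • ⊤ : Submodule R K)
    have hmem : ∀ x : K, Submodule.mkQ (Ideal.span {t} • ⊤ : Submodule R K) x = 0 →
        ∃ y, x = t • y := by
      intro x hx
      rw [Submodule.mkQ_apply, Submodule.Quotient.mk_eq_zero,
        Submodule.ideal_span_singleton_smul] at hx
      obtain ⟨y, -, hy⟩ := hx
      exact ⟨y, hy.symm⟩
    refine FFR.lift (R := R) (R' := R ⧸ Ideal.span {t}) Ideal.Quotient.mk_surjective ht ht0 ?_ ?_ d
      K N' (Submodule.mkQ _) (Submodule.mkQ_surjective _) hmem ?_ (ih (R ⧸ Ideal.span {t}) h2 N')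
    · exact Ideal.Quotient.eq_zero_iff_mem.2 (Ideal.mem_span_singleton_self t)
    · intro x hx
      exact Ideal.mem_span_singleton.1 (Ideal.Quotient.eq_zero_iff_mem.1 hx)
    · rintro ⟨x, hx⟩ h0
      apply Subtype.ext
      have h1 : t • x = 0 := congrArg Subtype.val h0
      exact (smul_eq_zero.1 h1).resolve_left ht0

theorem exists_ffr (R : Type u) [CommRing R] [IsRegularLocalRing R] :
    ∃ d : ℕ, ∀ (M : Type u) [AddCommGroup M] [Module R M] [Module.Finite R M], FFR R d M := by
  obtain ⟨d, hd⟩ := exists_dim R
  exact ⟨d, fun M _ _ _ => ffr_of_dim d R hd M⟩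

/-- stably free modules: two out of three in the form needed here -/
theorem stablyFree_of_prod {B : Type u} [CommRing B] {K P : Type u} [AddCommGroup K] [Module B K]
    [AddCommGroup P] [Module B P] {k : ℕ} (e : (Fin k → B) ≃ₗ[B] K × P)
    (h : Module.IsStablyFree B K) : Module.IsStablyFree B P := by
  obtain ⟨N, _, _, _, _, hN⟩ := Module.IsStablyFree.exist_free_prod B K
  -- `P × (K × N)` is `B ^ k × N`
  have hfin : Module.Finite B (K × N) := by
    have h1 : Module.Finite B K := by
      have h2 : Module.Finite B (K × P) := Module.Finite.equiv e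
      exact Module.Finite.of_surjective (LinearMap.fst B K P) Prod.fst_surjective
    infer_instance
  let e2 : ((Fin k → B) × N) ≃ₗ[B] (K × N) × P :=
    ((e.prodCongr (LinearEquiv.refl B N)) ≪≫ₗ (LinearEquiv.prodAssoc B K P N) ≪≫ₗ
      ((LinearEquiv.refl B K).prodCongr (LinearEquiv.prodComm B P N)) ≪≫ₗ
      (LinearEquiv.prodAssoc B K N P).symm)
  have hfree : Module.Free B ((K × N) × P) := Module.Free.of_equiv e2
  exact Module.IsStablyFree.of_free_prod' B P (K × N)

theorem projective_of_prod {B : Type u} [CommRing B] {K P : Type u} [AddCommGroup K] [Module B K]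
    [AddCommGroup P] [Module B P] {k : ℕ} (e : (Fin k → B) ≃ₗ[B] K × P) :
    Module.Projective B K := by
  refine Module.Projective.of_split (e.symm.toLinearMap ∘ₗ LinearMap.inl B K P)
    ((LinearMap.fst B K P) ∘ₗ e.toLinearMap) ?_
  ext x
  simp

/-- localizations which are projective are stably free -/
theorem stablyFree_of_ffr {A B : Type u} [CommRing A] [IsNoetherianRing A] [CommRing B]
    [Algebra A B] (S : Submonoid A)
    [IsLocalization S B] (n : ℕ) : ∀ (M P : Type u) [AddCommGroup M] [Module A M] [AddCommGroup P]
      [Module A P] [Module B P] [IsScalarTower A B P] (g : M →ₗ[A] P) [IsLocalizedModule S g]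
      [Module.Finite A M], FFR A n M → Module.Projective B P → Module.IsStablyFree B P := by
  induction n with
  | zero =>
    intro M P _ _ _ _ _ _ g _ _ h _
    obtain ⟨h1, h2⟩ := h
    have : Module.Free B P :=
      Module.Free.of_basis ((Module.Free.chooseBasis A M).ofIsLocalizedModule B S g)
    infer_instance
  | succ n ih =>
    intro M P _ _ _ _ _ _ g _ _ h hP
    obtain ⟨k, f, hf⟩ := Module.Finite.exists_fin' A M
    let gF : (Fin k → A) →ₗ[A] (Fin k → B) :=
      LinearMap.pi fun i => (Algebra.linearMap A B) ∘ₗ (LinearMap.proj i)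
    have hgF : IsLocalizedModule S gF :=
      IsLocalizedModule.pi S (fun _ : Fin k => Algebra.linearMap A B)
    let F0 : (Fin k → B) →ₗ[A] P := IsLocalizedModule.map S gF g f
    let F : (Fin k → B) →ₗ[B] P := F0.extendScalarsOfIsLocalization S B
    have hF : Function.Surjective F := IsLocalizedModule.map_surjective S gF g f hf
    obtain ⟨s, hs⟩ := Module.projective_lifting_property F LinearMap.id hF
    have hs' : ∀ p, F (s p) = p := fun p => LinearMap.congr_fun hs p
    let e : (Fin k → B) ≃ₗ[B] (LinearMap.ker F) × P :=
      { toFun := fun x => (⟨x - s (F x), by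
          rw [LinearMap.mem_ker, map_sub, hs', sub_self]⟩, F x)
        invFun := fun y => y.1.1 + s y.2
        map_add' := fun x y => by
          apply Prod.ext
          · apply Subtype.ext
            simp only [map_add, Prod.mk_add_mk, AddMemClass.mk_add_mk]
            abel
          · simp
        map_smul' := fun r x => by
          apply Prod.ext
          · apply Subtype.ext
            simp [smul_sub]
          · simp
        left_inv := fun x => by simp
        right_inv := fun y => by
          have h0 : F y.1.1 = 0 := LinearMap.mem_ker.1 y.1.2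
          apply Prod.ext
          · apply Subtype.ext
            simp [h0, hs']
          · simp [h0, hs'] }
    have hK : Module.Projective B (LinearMap.ker F) := projective_of_prod e
    let e0 : LinearMap.ker F0 ≃ₗ[A] LinearMap.ker F :=
      { toFun := fun x => ⟨x.1, x.2⟩
        invFun := fun x => ⟨x.1, x.2⟩
        map_add' := fun x y => rfl
        map_smul' := fun r x => rfl
        left_inv := fun x => rfl
        right_inv := fun x => rfl }
    have h1 : IsLocalizedModule S (LinearMap.toKerIsLocalized S gF g f) :=
      LinearMap.toKerLocalized_isLocalizedModule B S gF g f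
    have h2 : IsLocalizedModule S
        (e0.toLinearMap ∘ₗ (LinearMap.toKerIsLocalized S gF g f)) :=
      IsLocalizedModule.of_linearEquiv S _ e0
    have h3 := ih (LinearMap.ker f) (LinearMap.ker F)
      (e0.toLinearMap ∘ₗ (LinearMap.toKerIsLocalized S gF g f)) (h k f hf) hK
    exact stablyFree_of_prod e h3

end MP55c1e7.Reg
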