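import Mathlib
import Pool.Agent.Lib.MP_55c1e7_ag.Reg2

universe u
open IsLocalRing

namespace MP55c1e7.Reg

/-- the local structure of a height one prime in a ring whose localizations are factorial -/
theorem locally_principal {B : Type u} [CommRing B] [IsDomain B] [IsNoetherianRing B]
    (q : Ideal B) [q.IsPrime] [UniqueFactorizationMonoid (Localization.AtPrime q)]
    (P : Ideal B) [P.IsPrime] (hP : P.height = 1) :
    ∃ a ∈ P, a ≠ 0 ∧ ∃ s, s ∉ q ∧ ∀ p ∈ P, ∃ b, s * p = a * b := by
  classical
  by_cases hPq : P ≤ q
  · have hdis : Disjoint (q.primeCompl : Set B) (P : Set B) := by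
      rw [Set.disjoint_left]
      intro x hx hxP
      exact hx (hPq hxP)
    have hprime : (P.map (algebraMap B (Localization.AtPrime q))).IsPrime :=
      IsLocalization.isPrime_of_isPrime_disjoint q.primeCompl (Localization.AtPrime q) P
        inferInstance hdis
    have hht : (P.map (algebraMap B (Localization.AtPrime q))).height = 1 := by
      rw [← IsLocalization.height_under q.primeCompl,
        IsLocalization.under_map_of_isPrime_disjoint q.primeCompl (Localization.AtPrime q)
          inferInstance hdis, hP]
    obtain ⟨g, hg⟩ := UniqueFactorizationMonoid.isPrincipal_of_height_eq_one hht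
    have hgmem : g ∈ P.map (algebraMap B (Localization.AtPrime q)) := by
      rw [hg]; exact Submodule.mem_span_singleton_self g
    obtain ⟨⟨⟨a, ha⟩, s⟩, has⟩ := (IsLocalization.mem_map_algebraMap_iff q.primeCompl
      (Localization.AtPrime q)).1 hgmem
    have hinj : Function.Injective (algebraMap B (Localization.AtPrime q)) :=
      IsLocalization.injective _ q.primeCompl_le_nonZeroDivisors
    simp only at has
    -- one element at a time
    have h1 : ∀ p ∈ P, ∃ s', s' ∉ q ∧ ∃ b, s' * p = a * b := by
      intro p hp
      have h2 : algebraMap B (Localization.AtPrime q) p ∈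
          P.map (algebraMap B (Localization.AtPrime q)) := Ideal.mem_map_of_mem _ hp
      rw [hg] at h2
      obtain ⟨c, hc⟩ := Ideal.mem_span_singleton.1 h2
      obtain ⟨⟨b, s2⟩, hb⟩ := IsLocalization.surj q.primeCompl c
      simp only at hb
      refine ⟨s * s2, fun h => ?_, b, ?_⟩
      · exact (s * s2).2 h
      · apply hinj
        rw [map_mul, map_mul, map_mul, hc, ← hb, ← has]
        ring
    obtain ⟨T, hT⟩ := (inferInstance : IsNoetherianRing B).noetherian P
    have hTP : ∀ p ∈ T, p ∈ P := fun p hp => by rw [← hT]; exact Submodule.subset_span hp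
    choose! σ hσ β hβ using h1
    let S := ∏ p ∈ T, σ p
    have hS : S ∉ q := by
      intro hS
      obtain ⟨p, hp, hpq⟩ := (Ideal.IsPrime.prod_mem_iff (s := T) (x := σ)).1 hS
      exact hσ p (hTP p hp) hpq
    refine ⟨a, ha, ?_, S, hS, ?_⟩
    · rintro rfl
      have h3 : P.map (algebraMap B (Localization.AtPrime q)) = ⊥ := by
        rw [hg]
        have hs : algebraMap B (Localization.AtPrime q) s ≠ 0 := by
          intro h0
          have : (s : B) = 0 := hinj (by rw [h0, map_zero])
          exact s.2 (by rw [this]; exact q.zero_mem)
        have h4 : g = 0 := by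
          rw [map_zero] at has
          exact (mul_eq_zero.1 has).resolve_right hs
        rw [h4]; simp
      have h5 := hht
      rw [h3, Ideal.height_bot] at h5
      exact absurd h5 (by norm_num)
    · intro p hp
      rw [← hT] at hp
      induction hp using Submodule.span_induction with
      | mem p hp =>
        have hS2 : S = σ p * ∏ x ∈ T.erase p, σ x := (Finset.mul_prod_erase T σ hp).symm
        refine ⟨β p * ∏ x ∈ T.erase p, σ x, ?_⟩
        have := hβ p (hTP p hp)
        rw [hS2]
        calc σ p * (∏ x ∈ T.erase p, σ x) * p = (σ p * p) * ∏ x ∈ T.erase p, σ x := by ring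
          _ = _ := by rw [this]; ring
      | zero => exact ⟨0, by simp⟩
      | add x y _ _ hx hy =>
        obtain ⟨b1, h1⟩ := hx
        obtain ⟨b2, h2⟩ := hy
        exact ⟨b1 + b2, by rw [mul_add, h1, h2]; ring⟩
      | smul r x _ hx =>
        obtain ⟨b1, h1⟩ := hx
        exact ⟨r * b1, by rw [smul_eq_mul, mul_left_comm, h1]; ring⟩
  · obtain ⟨s, hs, hsq⟩ := Set.not_subset.1 hPq
    refine ⟨s, hs, ?_, s, hsq, fun p _ => ⟨p, rfl⟩⟩
    rintro rfl
    exact hsq q.zero_mem

theorem invertible_of_mul_eq_one {B K : Type u} [CommRing B] [Field K] [Algebra B K]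
    [FaithfulSMul B K] (I J : Submodule B K) (h : I * J = 1) : Module.Invertible B I := by
  obtain ⟨u, hu⟩ : IsUnit I := IsUnit.of_mul_eq_one J h
  rw [← hu]
  infer_instance

theorem invertible_of_height_one_aux {B : Type u} [CommRing B] [IsDomain B] [IsNoetherianRing B]
    (K : Type u) [Field K] [Algebra B K] [IsFractionRing B K]
    (hB : ∀ (q : Ideal B) [q.IsPrime], UniqueFactorizationMonoid (Localization.AtPrime q))
    (P : Ideal B) [P.IsPrime] (hP : P.height = 1) : Module.Invertible B P := by
  classical
  have hinj : Function.Injective (algebraMap B K) := IsFractionRing.injective B K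
  let I : Submodule B K := Submodule.map (Algebra.linearMap B K) P
  have h1 : I * (1 / I) = 1 := by
    apply le_antisymm Submodule.mul_one_div_le_one
    let 𝔞 : Ideal B := (I * (1 / I)).comap (Algebra.linearMap B K)
    have h2 : 𝔞 = ⊤ := by
      by_contra hne
      obtain ⟨q, hq, hle⟩ := Ideal.exists_le_maximal 𝔞 hne
      have hqp : q.IsPrime := hq.isPrime
      have := hB q
      obtain ⟨a, ha, ha0, s, hs, hsa⟩ := locally_principal q P hP
      apply hs
      apply hle
      have ha0' : algebraMap B K a ≠ 0 := by
        intro h
        exact ha0 (hinj (by rw [h, map_zero]))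
      have h3 : algebraMap B K s / algebraMap B K a ∈ (1 / I : Submodule B K) := by
        rw [Submodule.mem_div_iff_forall_mul_mem]
        rintro _ ⟨p, hp, rfl⟩
        obtain ⟨b, hb⟩ := hsa p hp
        rw [Submodule.mem_one]
        refine ⟨b, ?_⟩
        have h4 := congrArg (algebraMap B K) hb
        rw [map_mul, map_mul] at h4
        rw [Algebra.linearMap_apply, div_mul_eq_mul_div, eq_div_iff ha0', h4]
        ring
      have h5 : algebraMap B K a * (algebraMap B K s / algebraMap B K a) ∈ I * (1 / I) :=
        Submodule.mul_mem_mul ⟨a, ha, rfl⟩ h3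
      have h6 : algebraMap B K a * (algebraMap B K s / algebraMap B K a) = algebraMap B K s :=
        mul_div_cancel₀ _ ha0'
      rw [h6] at h5
      exact h5
    rw [Submodule.one_le]
    have h7 : (1 : B) ∈ 𝔞 := by rw [h2]; trivial
    have h8 : Algebra.linearMap B K 1 ∈ I * (1 / I) := h7
    simpa using h8
  have hfs : FaithfulSMul B K := (faithfulSMul_iff_algebraMap_injective B K).2 hinj
  have h9 : Module.Invertible B I := invertible_of_mul_eq_one I (1 / I) h1
  exact Module.Invertible.congr (M := I)
    (Submodule.equivMapOfInjective (Algebra.linearMap B K) hinj P).symm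

theorem invertible_of_height_one {B : Type u} [CommRing B] [IsDomain B] [IsNoetherianRing B]
    (hB : ∀ (q : Ideal B) [q.IsPrime], UniqueFactorizationMonoid (Localization.AtPrime q))
    (P : Ideal B) [P.IsPrime] (hP : P.height = 1) : Module.Invertible B P :=
  invertible_of_height_one_aux (FractionRing B) hB P hP

/-- a height one prime of `A[1/t]` for `A` regular local is stably free as soon as it is
projective -/
theorem stablyFree_ideal {A B : Type u} [CommRing A] [IsRegularLocalRing A] [CommRing B]
    [Algebra A B] [IsDomain A] [IsDomain B] (S : Submonoid A) (hS : S ≤ nonZeroDivisors A)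
    [IsLocalization S B] (P : Ideal B)
    (hP : Module.Projective B P) : Module.IsStablyFree B P := by
  have hinj : Function.Injective (algebraMap A B) := IsLocalization.injective B hS
  obtain ⟨d, hd⟩ := exists_ffr A
  let p : Ideal A := P.comap (algebraMap A B)
  let g : p →ₗ[A] P :=
    { toFun := fun x => ⟨algebraMap A B x.1, x.2⟩
      map_add' := fun x y => by ext; simp
      map_smul' := fun r x => by ext; simp [Algebra.smul_def] }
  have hg : IsLocalizedModule S g := by
    constructor
    · intro s
      have hu : IsUnit (algebraMap A B s) := IsLocalization.map_units B s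
      obtain ⟨v, hv⟩ := hu
      refine ⟨⟨algebraMap A (Module.End A P) s, ?_, ?_, ?_⟩, rfl⟩
      · exact
          { toFun := fun x => (↑v⁻¹ : B) • x
            map_add' := fun x y => smul_add _ _ _
            map_smul' := fun r x => by
              rw [RingHom.id_apply, smul_comm] }
      · ext x
        simp [Module.algebraMap_end_apply, Algebra.smul_def, ← hv]
      · ext x
        simp [Module.algebraMap_end_apply, Algebra.smul_def, ← hv]
    · rintro ⟨y, hy⟩
      obtain ⟨⟨a, s⟩, ha⟩ := IsLocalization.surj S y
      simp only at ha
      refine ⟨⟨⟨a, ?_⟩, s⟩, ?_⟩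
      · change algebraMap A B a ∈ P
        rw [← ha]
        exact Ideal.mul_mem_right _ _ hy
      · apply Subtype.ext
        change (s : A) • y = algebraMap A B a
        rw [Algebra.smul_def, mul_comm, ha]
    · intro x y hxy
      refine ⟨1, ?_⟩
      have : x = y := by
        apply Subtype.ext
        apply hinj
        exact congrArg Subtype.val hxy
      rw [this]
  exact stablyFree_of_ffr S d p P g (hd p) hP

/-- an ideal which is a free module of rank one is principal -/
theorem principal_of_free {B : Type u} [CommRing B] (P : Ideal B) [Module.Invertible B P]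
    (h : Module.Free B P) : P.IsPrincipal := by
  obtain ⟨e⟩ := Module.Invertible.free_iff_linearEquiv.1 h
  refine ⟨(e.symm 1).1, ?_⟩
  ext x
  rw [Submodule.mem_span_singleton]
  constructor
  · intro hx
    refine ⟨e ⟨x, hx⟩, ?_⟩
    have h1 : e ⟨x, hx⟩ • e.symm 1 = ⟨x, hx⟩ := by
      rw [← map_smul, smul_eq_mul, mul_one, LinearEquiv.symm_apply_apply]
    exact congrArg Subtype.val h1
  · rintro ⟨a, rfl⟩
    exact P.mul_mem_left a (e.symm 1).2

theorem localization_equiv {A B : Type u} [CommRing A] [CommRing B] [Algebra A B]
    (S : Submonoid A) [IsLocalization S B] (q : Ideal B) [q.IsPrime] :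
    Nonempty (Localization.AtPrime q ≃+* Localization.AtPrime (q.comap (algebraMap A B))) := by
  have : IsScalarTower A B (Localization.AtPrime q) := inferInstance
  have h1 : IsLocalization.AtPrime (Localization.AtPrime q) (q.comap (algebraMap A B)) :=
    IsLocalization.isLocalization_isLocalization_atPrime_isLocalization S
      (Localization.AtPrime q) q
  exact ⟨(IsLocalization.algEquiv (q.comap (algebraMap A B)).primeCompl (Localization.AtPrime q)
    (Localization.AtPrime (q.comap (algebraMap A B)))).toRingEquiv⟩

theorem isRegularRing_localization {A B : Type u} [CommRing A] [IsRegularRing A] [CommRing B]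
    [Algebra A B] (S : Submonoid A) [IsLocalization S B] : IsRegularRing B := by
  have : IsNoetherianRing B := IsLocalization.isNoetherianRing S B inferInstance
  rw [isRegularRing_iff]
  intro q hq
  obtain ⟨e⟩ := localization_equiv S q
  exact IsRegularLocalRing.of_ringEquiv e.symm

theorem ufd_of_dim (d : ℕ) : ∀ (A : Type u) [CommRing A] [IsLocalRing A] [IsRegularRing A]
    [IsDomain A], ringKrullDim A = d → UniqueFactorizationMonoid A := by
  induction d using Nat.strong_induction_on with
  | _ d ih =>
    intro A _ _ _ _ hd
    have hreg : IsRegularLocalRing A := IsRegularLocalRing.of_isRegularRing_of_isLocalRing A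
    rcases Nat.eq_zero_or_pos d with rfl | hpos
    · have hF := isField_of_dim_zero (R := A) (by simpa using hd)
      letI := hF.toField
      infer_instance
    · obtain ⟨n, rfl⟩ := Nat.exists_eq_succ_of_ne_zero hpos.ne'
      obtain ⟨t, ht, ht2, htm⟩ := exists_parameter (R := A) (n := n) (by simpa using hd)
      have htp : Prime t := prime_of_parameter ht ht2
      have ht0 : t ≠ 0 := htp.ne_zero
      rw [UniqueFactorizationMonoid.iff_localizationAway_of_prime htp]
      have hle : Submonoid.powers t ≤ nonZeroDivisors A :=
        powers_le_nonZeroDivisors_of_noZeroDivisors ht0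
      have hdomB : IsDomain (Localization.Away t) := IsLocalization.Away.isDomain _ ht0
      have hnoeth : IsNoetherianRing (Localization.Away t) :=
        IsLocalization.isNoetherianRing (Submonoid.powers t) _ inferInstance
      have hloc : ∀ (q : Ideal (Localization.Away t)) [q.IsPrime],
          UniqueFactorizationMonoid (Localization.AtPrime q) := by
        intro q hq
        obtain ⟨e⟩ := localization_equiv (A := A) (Submonoid.powers t) q
        let p := q.comap (algebraMap A (Localization.Away t))
        have htq : t ∉ p := by
          intro h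
          have h1 : algebraMap A (Localization.Away t) t ∈ q := h
          exact hq.ne_top (Ideal.eq_top_of_isUnit_mem _ h1
            (IsLocalization.Away.algebraMap_isUnit t))
        have hreg2 : IsRegularRing (Localization.AtPrime p) :=
          isRegularRing_localization p.primeCompl
        have hdom2 : IsDomain (Localization.AtPrime p) := inferInstance
        have hdim : ∃ k : ℕ, k < n + 1 ∧ ringKrullDim (Localization.AtPrime p) = k := by
          obtain ⟨k, hk⟩ := exists_dim (Localization.AtPrime p)
          refine ⟨k, ?_, hk⟩
          rw [IsLocalization.AtPrime.ringKrullDim_eq_height p] at hk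
          have hlt : p < maximalIdeal A := by
            refine lt_of_le_of_ne (IsLocalRing.le_maximalIdeal (Ideal.IsPrime.ne_top inferInstance))
              ?_
            intro h
            exact htq (h ▸ ht)
          have h2 : p.height < (maximalIdeal A).height :=
            Ideal.height_strict_mono_of_isPrime_of_isPrime hlt
          have h3 := IsLocalRing.maximalIdeal_height_eq_ringKrullDim (R := A)
          rw [hd] at h3
          have h4 : (maximalIdeal A).height = ((n + 1 : ℕ) : ℕ∞) := by exact_mod_cast h3
          have h5 : p.height = (k : ℕ∞) := by exact_mod_cast hk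
          rw [h4, h5] at h2
          exact_mod_cast h2
        obtain ⟨k, hk, hk2⟩ := hdim
        have hufd := ih k hk (Localization.AtPrime p) hk2
        exact e.symm.toMulEquiv.uniqueFactorizationMonoid hufd
      apply UniqueFactorizationMonoid.of_forall_isPrincipal_of_height_eq_one
      intro P hP hP1
      have hinv := invertible_of_height_one hloc P hP1
      have hst := stablyFree_ideal (A := A) (Submonoid.powers t) hle P inferInstance
      exact principal_of_free P (Module.free_of_isStablyFree_of_invertible _ P)

/-- regular local rings (all of whose localizations are regular) are factorial -/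
theorem ufd (A : Type u) [CommRing A] [IsLocalRing A] [IsRegularRing A] :
    IsDomain A ∧ UniqueFactorizationMonoid A := by
  have hreg : IsRegularLocalRing A := IsRegularLocalRing.of_isRegularRing_of_isLocalRing A
  have hdom : IsDomain A := isDomain A
  obtain ⟨d, hd⟩ := exists_dim A
  exact ⟨hdom, ufd_of_dim d A hd⟩

end MP55c1e7.Reg
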