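import Mathlib
import Pool.Agent.Lib.MP_55c1e7_ag.DS.P
import Pool.Agent.Lib.MP_55c1e7_ag.CK.Ed
import Pool.Agent.Lib.MP_55c1e7_ag.D.CubR

/-! Box D: bad reduction of `Y`. -/

set_option autoImplicit false

open CategoryTheory CategoryTheory.Limits AlgebraicGeometry
open MP55c1e7.CG Pool.Agent.Lib.MP_55c1e7_ag

namespace BadRed

namespace BoxD

theorem isLR_reindex {R K : Type} [CommRing R] [Field K] [Algebra R K] {ι κ : Type} (e : ι ≃ κ)
    (h : ι → K) (g : κ → K) (he : ∀ i, h i = g (e i)) (B : Subring K) :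
    D.IsLR R h B ↔ D.IsLR R g B := by
  have hr : ∀ i, (Set.range fun j => h j / h i) = Set.range fun j => g j / g (e i) := by
    intro i
    ext x
    constructor
    · rintro ⟨j, rfl⟩
      exact ⟨e j, by simp only [he]⟩
    · rintro ⟨j, rfl⟩
      obtain ⟨j, rfl⟩ := e.surjective j
      exact ⟨j, by simp only [he]⟩
  rw [MP55c1e7.DS.isLR_iff, MP55c1e7.DS.isLR_iff]
  constructor
  · rintro ⟨i, hi, h1⟩
    rw [hr i] at h1
    exact ⟨e i, by rwa [← he], h1⟩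
  · rintro ⟨i, hi, h1⟩
    obtain ⟨i, rfl⟩ := e.surjective i
    rw [← hr i] at h1
    exact ⟨i, by rwa [he], h1⟩

/-- The reindexing of the product lists. -/
def eY : ((Fin 4 × Fin 4 × Fin 4 × Fin 5 × Fin 4) × Fin 3) ≃
    Fin 4 × (Fin 4 × (Fin 4 × (Fin 3 × (Fin 5 × Fin 4)))) where
  toFun := fun p => (p.1.1, p.1.2.1, p.1.2.2.1, p.2, p.1.2.2.2.1, p.1.2.2.2.2)
  invFun := fun q => ((q.1, q.2.1, q.2.2.1, q.2.2.2.2.1, q.2.2.2.2.2), q.2.2.2.1)
  left_inv := fun _ => rfl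
  right_inv := fun _ => rfl

theorem hY_eq {k K : Type} [Field k] [Field K] [Algebra k K] (P : CK.Pt k K)
    (p : (Fin 4 × Fin 4 × Fin 4 × Fin 5 × Fin 4) × Fin 3) :
    CK.hY P p = D.hY (P.x 0 - 3) (P.x 0) (P.x 1) (P.x 2) (P.w 0) (P.w 1) (P.w 2) (eY p) := by
  obtain ⟨⟨a, b, c, d, e⟩, f⟩ := p
  simp only [CK.hY, CK.hZ, D.hY, eY, Equiv.coe_fn_mk]
  have h1 : ∀ (x w : K) i, CK.lE x w i = D.fE x w i := fun _ _ _ => rfl
  have h2 : ∀ (x z : K) i, CK.lyz x z i = D.g1 x z i := fun _ _ _ => rfl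
  have h3 : ∀ (x y z : K) i, CK.lxyz x y z i = D.g2 x y z i := fun _ _ _ _ => rfl
  have h4 : ∀ (x y z : K) i, CK.l4 x y z i = D.g3 (x - 3) x y z i := fun _ _ _ _ => rfl
  rw [h1, h1, h1, h2, h3, h4]
  ring

theorem isFractionRing_of_adjoin {k K : Type} [Field k] [Field K] [Algebra k K] (S : Set K)
    (hS : IntermediateField.adjoin k S = ⊤) (A : Subalgebra k K) (hA : S ⊆ A) :
    IsFractionRing A K := by
  refine IsFractionRing.of_field A K fun z => ?_
  have hz : z ∈ IntermediateField.adjoin k S := by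
    rw [hS]
    trivial
  obtain ⟨a, ha, b, hb, rfl⟩ := IntermediateField.mem_adjoin_iff_div.mp hz
  have hle : Algebra.adjoin k S ≤ A := Algebra.adjoin_le hA
  exact ⟨⟨a, hle ha⟩, ⟨b, hle hb⟩, rfl⟩

section ne

variable {k K : Type} [Field k] [Field K] [Algebra k K] (P : CK.Pt k K)

theorem x_tr (i : Fin 3) : Transcendental k (P.x i) := P.ind.transcendental i

theorem x_ne (i : Fin 3) : P.x i ≠ 0 := by
  intro h
  apply x_tr P i
  rw [h]
  exact isAlgebraic_zero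

theorem x3_ne : P.x 0 - 3 ≠ 0 := by
  intro h
  apply x_tr P 0
  rw [sub_eq_zero.mp h]
  exact isAlgebraic_natCast (R := k) 3

theorem w_ne (i : Fin 3) : P.w i ≠ 0 := by
  intro h
  apply x_tr P i
  refine ⟨Polynomial.X ^ 4 + Polynomial.C 1, ?_, ?_⟩
  · exact (Polynomial.monic_X_pow_add_C (1 : k) (by norm_num)).ne_zero
  · rw [map_add, map_pow, Polynomial.aeval_X, Polynomial.aeval_C, map_one, ← P.sq i, h]
    ring

theorem lE_ne (i : Fin 3) (j : Fin 4) : CK.lE (P.x i) (P.w i) j ≠ 0 := by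
  have h1 := x_ne P i
  have h2 := w_ne P i
  fin_cases j <;> simp [CK.lE, h1, h2]

theorem hY_ne (i) : CK.hY P i ≠ 0 := by
  obtain ⟨⟨a, b, c, d, e⟩, f⟩ := i
  have h0 := x_ne P 0
  have h1 := x_ne P 1
  have h2 := x_ne P 2
  have h3 := x3_ne P
  have g1 : CK.lxyz (P.x 0) (P.x 1) (P.x 2) d ≠ 0 := by
    fin_cases d <;> simp [CK.lxyz, h0, h1, h2]
  have g2 : CK.l4 (P.x 0) (P.x 1) (P.x 2) e ≠ 0 := by
    fin_cases e <;> simp [CK.l4, h0, h1, h2, h3]
  have g3 : CK.lyz (P.x 0) (P.x 2) f ≠ 0 := by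
    fin_cases f <;> simp [CK.lyz, h0, h2]
  exact mul_ne_zero (mul_ne_zero (mul_ne_zero (mul_ne_zero (mul_ne_zero (lE_ne P 0 a)
    (lE_ne P 1 b)) (lE_ne P 2 c)) g1) g2) g3

end ne

theorem isFractionRing_chart {k K : Type} [Field k] [Field K] [Algebra k K] (P : CK.Pt k K)
    (hP : P.Gen) (h0 : ∀ i, CK.hY P i ≠ 0) :
    IsFractionRing (chart k (CK.hY P) ((0, 0, 0, 0, 0), 0)) K := by
  refine isFractionRing_of_adjoin _ hP _ ?_
  have key : ∀ j, CK.hY P j / CK.hY P ((0, 0, 0, 0, 0), 0) ∈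
      chart k (CK.hY P) ((0, 0, 0, 0, 0), 0) := fun j => Algebra.subset_adjoin ⟨j, rfl⟩
  rintro _ (⟨i, rfl⟩ | ⟨i, rfl⟩)
  · fin_cases i
    · have h1 := key ((1, 0, 0, 0, 0), 0)
      have h2 : CK.hY P ((1, 0, 0, 0, 0), 0) = P.x 0 * CK.hY P ((0, 0, 0, 0, 0), 0) := by
        simp [CK.hY, CK.hZ, CK.lE]
        ring
      rw [h2, mul_div_cancel_right₀ _ (h0 _)] at h1
      exact h1
    · have h1 := key ((0, 1, 0, 0, 0), 0)
      have h2 : CK.hY P ((0, 1, 0, 0, 0), 0) = P.x 1 * CK.hY P ((0, 0, 0, 0, 0), 0) := by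
        simp [CK.hY, CK.hZ, CK.lE]
        ring
      rw [h2, mul_div_cancel_right₀ _ (h0 _)] at h1
      exact h1
    · have h1 := key ((0, 0, 1, 0, 0), 0)
      have h2 : CK.hY P ((0, 0, 1, 0, 0), 0) = P.x 2 * CK.hY P ((0, 0, 0, 0, 0), 0) := by
        simp [CK.hY, CK.hZ, CK.lE]
        ring
      rw [h2, mul_div_cancel_right₀ _ (h0 _)] at h1
      exact h1
  · fin_cases i
    · have h1 := key ((3, 0, 0, 0, 0), 0)
      have h2 : CK.hY P ((3, 0, 0, 0, 0), 0) = P.w 0 * CK.hY P ((0, 0, 0, 0, 0), 0) := by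
        simp [CK.hY, CK.hZ, CK.lE]
        ring
      rw [h2, mul_div_cancel_right₀ _ (h0 _)] at h1
      exact h1
    · have h1 := key ((0, 3, 0, 0, 0), 0)
      have h2 : CK.hY P ((0, 3, 0, 0, 0), 0) = P.w 1 * CK.hY P ((0, 0, 0, 0, 0), 0) := by
        simp [CK.hY, CK.hZ, CK.lE]
        ring
      rw [h2, mul_div_cancel_right₀ _ (h0 _)] at h1
      exact h1
    · have h1 := key ((0, 0, 3, 0, 0), 0)
      have h2 : CK.hY P ((0, 0, 3, 0, 0), 0) = P.w 2 * CK.hY P ((0, 0, 0, 0, 0), 0) := by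
        simp [CK.hY, CK.hZ, CK.lE]
        ring
      rw [h2, mul_div_cancel_right₀ _ (h0 _)] at h1
      exact h1

end BoxD

/-- BOX D : bad reduction of `Y` -/
theorem boxD {O k K : Type} [CommRing O] [IsDomain O] [IsDiscreteValuationRing O] [Field k]
    [Algebra O k] [IsFractionRing O k] [Field K] [Algebra k K]
    (h3 : Irreducible (3 : O)) (h2 : IsUnit (2 : O)) (_h41 : IsUnit (41 : O)) (_hk : (3 : k) ≠ 0)
    (P : CK.Pt k K) (hP : P.Gen) : ¬ HasGoodModel O k (PM.toSpec k (CK.hY P)) := by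
  intro hg
  let _ : Algebra O K := ((algebraMap k K).comp (algebraMap O k)).toAlgebra
  have : IsScalarTower O k K := IsScalarTower.of_algebraMap_eq fun _ => rfl
  have hinj : Function.Injective (algebraMap O k) := IsFractionRing.injective O k
  have h2k : (2 : k) ≠ 0 := by
    have h := (h2.map (algebraMap O k)).ne_zero
    rwa [map_ofNat] at h
  obtain ⟨E, hx, hw⟩ := CK.edata_of_pt h2k P hP
  have hind : CH.Ind O P.x P.w := by
    rw [← hx, ← hw]
    exact CH.Ind.descend hinj E.ind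
  let C : MP55c1e7.D0.Cub O K :=
    { x := P.x
      w := P.w
      rel := P.sq
      ind := hind
      t := 3
      ht := h3
      h2 := h2 }
  have hfr : IsFractionRing C.B K := C.isFractionRing_B k hP
  have h0 := BoxD.hY_ne P
  obtain ⟨m, s, hs0, hs1, hs2⟩ := MP55c1e7.DS.hasGoodModel_coords (O := O) (CK.hY P) h0
    ((0, 0, 0, 0, 0), 0) (BoxD.isFractionRing_chart P hP h0) hg
  refine D.cub_no_model C (k := k) hfr s hs0 hs1 fun B => ?_
  rw [hs2 B, BoxD.isLR_reindex BoxD.eY _ _ (BoxD.hY_eq P)]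
  have h5 : P.x 0 - algebraMap O K (3 : O) = P.x 0 - 3 := by rw [map_ofNat]
  change _ ↔ D.IsLR k (D.hY (P.x 0 - algebraMap O K (3 : O)) (P.x 0) (P.x 1) (P.x 2) (P.w 0)
    (P.w 1) (P.w 2)) B
  rw [h5]

end BadRed
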