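import Pool.Agent.Lib.MP_55c1e7_ag.BoxC
import Pool.Agent.Lib.MP_55c1e7_ag.BoxD
import Pool.Agent.Lib.MP_55c1e7_ag.B4.Main
import Pool.Agent.Lib.MP_55c1e7_ag.CG.Charted

/-!
# Boxes B4, C and D
-/

open CategoryTheory CategoryTheory.Limits AlgebraicGeometry
open MP55c1e7.CG Pool.Agent.Lib.MP_55c1e7_ag.CK

namespace BadRed

/-- BOX C1 (helper36) -/
theorem boxC_charted {k K : Type} [Field k] [Field K] [Algebra k K] {ι κ : Type} (h : ι → K)
    [Nonempty κ] (I : κ → ι) (hI : Covers (R := k) h I) :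
    Nonempty (Charted (PM.toSpec k h) (fun l => chart k h (I l))) :=
  charted k h I hI.1 hI.2

end BadRed
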