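import Pool.Agent.Lib.MP_55c1e7_ag.CohAb

/-!
# The statement
-/

open CategoryTheory CategoryTheory.Limits AlgebraicGeometry

namespace BadRed

/-- Varieties are noetherian schemes. -/
theorem IsSmoothProjectiveVariety.isLocallyNoetherian {k : Type} [Field k] {X : Scheme.{0}}
    {f : X ⟶ Spec (CommRingCat.of k)} (hf : IsSmoothProjectiveVariety f) :
    IsLocallyNoetherian X :=
  have := hf.smooth
  LocallyOfFiniteType.isLocallyNoetherian f

/-- Two smooth projective varieties over a field `k` are derived equivalent if there is a
`k`-linear exact equivalence between the bounded derived categories of coherent sheaves. -/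
def DerivedEquivalent {k : Type} [Field k] {X Y : Scheme.{0}} {f : X ⟶ Spec (CommRingCat.of k)}
    {g : Y ⟶ Spec (CommRingCat.of k)} (hf : IsSmoothProjectiveVariety f)
    (hg : IsSmoothProjectiveVariety g) : Prop :=
  haveI := hf.isLocallyNoetherian
  haveI := hg.isLocallyNoetherian
  DbEquivalent k (Coh f) (Coh g)

end BadRed
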