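import Pool.Agent.Lib.MP_55c1e7_ag.BoxB
import Pool.Agent.Lib.MP_55c1e7_ag.BoxCD
import Pool.Agent.Lib.MP_55c1e7_ag.Stmt
import Pool.Agent.Lib.MP_55c1e7_ag.CK.Val
import Pool.Agent.Lib.MP_55c1e7_ag.CK.Exist

/-!
# Places of bad reduction are not a derived invariant
-/

open CategoryTheory CategoryTheory.Limits AlgebraicGeometry
open MP55c1e7.CG Pool.Agent.Lib.MP_55c1e7_ag.CK

namespace BadRed

lemma three_mem (v : IsDedekindDomain.HeightOneSpectrum (NumberField.RingOfIntegers ℚ))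
    (h : ¬ IsUnit (3 : (v.valuation ℚ).integer)) : (3 : NumberField.RingOfIntegers ℚ) ∈ v.asIdeal := by
  have h3 : v.valuation ℚ (3 : ℚ) ≤ 1 := (3 : (v.valuation ℚ).integer).2
  have key := (v.valuation_lt_one_iff_mem (K := ℚ) (3 : NumberField.RingOfIntegers ℚ))
  have e : (Algebra.cast (3 : NumberField.RingOfIntegers ℚ) : ℚ) = 3 :=
    map_ofNat (algebraMap (NumberField.RingOfIntegers ℚ) ℚ) 3
  rw [e] at key
  apply key.mp
  rcases h3.lt_or_eq with h' | h'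
  · exact h'
  · exfalso
    apply h
    have hi : v.valuation ℚ ((3 : ℚ)⁻¹) ≤ 1 := by rw [map_inv₀, h', inv_one]
    refine IsUnit.of_mul_eq_one (⟨(3 : ℚ)⁻¹, hi⟩ : (v.valuation ℚ).integer) ?_
    apply Subtype.ext
    change (3 : ℚ) * (3 : ℚ)⁻¹ = 1
    norm_num

theorem main : ∃ (v : IsDedekindDomain.HeightOneSpectrum (NumberField.RingOfIntegers ℚ))
    (X Y : Scheme.{0}) (f : X ⟶ Spec (CommRingCat.of ℚ)) (g : Y ⟶ Spec (CommRingCat.of ℚ))
    (hf : IsSmoothProjectiveVariety f) (hg : IsSmoothProjectiveVariety g),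
    (3 : NumberField.RingOfIntegers ℚ) ∈ v.asIdeal ∧
    DerivedEquivalent hf hg ∧ HasGoodReduction v f ∧ ¬ HasGoodReduction v g := by
  obtain ⟨v, h0, h1, h3, h2, h41⟩ := exists_v3
  obtain ⟨K, _, _, P, hP⟩ := exists_pt ℚ
  have e2 : (2 : ℚ) ≠ 0 := by norm_num
  have e3 : (3 : ℚ) ≠ 0 := by norm_num
  have e41 : (41 : ℚ) ≠ 0 := by norm_num
  obtain ⟨D, D', I, I', hR, hs, hg, hH, hH', hc, hc', hI, hI'⟩ := boxB4 e2 e3 P hP
  obtain ⟨C⟩ := boxC_charted (k := ℚ) (hX P) I hI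
  obtain ⟨C'⟩ := boxC_charted (k := ℚ) (hY P) I' hI'
  rw [← funext hc] at C
  rw [← funext hc'] at C'
  have n1 : IsLocallyNoetherian (PM ℚ (hX P)) := C.isLocallyNoetherian D.ch_fg
  have n2 : IsLocallyNoetherian (PM ℚ (hY P)) := C'.isLocallyNoetherian D'.ch_fg
  exact ⟨v, PM ℚ (hX P), PM ℚ (hY P), PM.toSpec ℚ (hX P), PM.toSpec ℚ (hY P),
    boxC_smX e2 e3 e41 P hP, boxC_smY e2 e3 e41 P hP, three_mem v h3.not_isUnit,
    dbEquivalent_of_flop D D' hR hs hg hH hH' C C',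
    boxC_good h3 h2 h41 e3 P hP, boxD h3 h2 h41 e3 P hP⟩

end BadRed
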