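import Mathlib

/-!
# Lemma E: exact categories and bounded derived categories

`lemmaE`: let `P` be a full subcategory of the abelian category `A`, closed under quotients and
finite sums, such that every object embeds in an object of `P`. Let `Ψ` be a fully faithful
functor from `P` to the abelian category `B` which preserves and reflects short exact
sequences, whose essential image is closed under subobjects and such that every object of `B` is
a quotient of an object in the image. Then the bounded derived categories of `A` and `B` are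
equivalent by a linear triangulated functor.
-/

set_option autoImplicit false
set_option linter.unusedSectionVars false

open CategoryTheory Category Limits Pretriangulated Triangulated

namespace Pool.Agent.Lib.MP_55c1e7_ag

section Part1

universe w v u

variable {A : Type u} [Category.{v} A] [Abelian A]

/-- The complex with terms `U i ⊞ V i` and the differential `θ` from `V i` to `U (i + 1)`. -/
noncomputable def dbl (U V : ℤ → A) (θ : ∀ i, V i ⟶ U (i + 1)) : CochainComplex A ℤ :=
  CochainComplex.of (fun i => U i ⊞ V i) (fun i => biprod.snd ≫ θ i ≫ biprod.inl)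
    (fun i => by simp)

/-- A morphism to `dbl`. -/
noncomputable def toDbl (K : CochainComplex A ℤ) (J : ℤ → A) (ι : ∀ i, K.X i ⟶ J i) :
    K ⟶ dbl J (fun i => J (i + 1)) (fun _ => 𝟙 _) where
  f i := biprod.lift (ι i) (K.d i (i + 1) ≫ ι (i + 1))
  comm' i j hij := by
    obtain rfl : i + 1 = j := hij
    dsimp [dbl]
    rw [CochainComplex.of_d]
    ext <;> simp

lemma eqToHom_aux (K : CochainComplex A ℤ) (J : ℤ → A) (π : ∀ i, J i ⟶ K.X i) (i j m : ℤ)
    (h : j = i) : eqToHom (by rw [h]) ≫ π i ≫ K.d i m = π j ≫ K.d j m := by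
  subst h
  simp

/-- A morphism from `dbl`. -/
noncomputable def fromDbl (K : CochainComplex A ℤ) (J : ℤ → A) (π : ∀ i, J i ⟶ K.X i) :
    dbl (fun i => J (i - 1)) J (fun i => eqToHom (by rw [add_sub_cancel_right])) ⟶ K where
  f i := biprod.desc (π (i - 1) ≫ K.d (i - 1) i) (π i)
  comm' i j hij := by
    obtain rfl : i + 1 = j := hij
    dsimp [dbl]
    rw [CochainComplex.of_d]
    ext
    · simp
    · simp [eqToHom_aux K J π (i + 1 - 1) i (i + 1) (by ring)]

lemma exists_mono_complex (P : ObjectProperty A) (hb : ∀ X Y : A, P X → P Y → P (X ⊞ Y))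
    (hP : ∀ X : A, ∃ (Y : A) (i : X ⟶ Y), P Y ∧ Mono i)
    (K : CochainComplex A ℤ) :
    ∃ (E : CochainComplex A ℤ) (f : K ⟶ E), Mono f ∧ ∀ i, P (E.X i) := by
  choose J ι hJ hι using fun i => hP (K.X i)
  refine ⟨_, toDbl K J ι, ?_, ?_⟩
  · have : ∀ i, Mono ((toDbl K J ι).f i) := by
      intro i
      have h1 : (toDbl K J ι).f i ≫ (biprod.fst : J i ⊞ J (i + 1) ⟶ J i) = ι i :=
        biprod.lift_fst _ _
      have : Mono ((toDbl K J ι).f i ≫ (biprod.fst : J i ⊞ J (i + 1) ⟶ J i)) := by
        rw [h1]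
        exact hι i
      exact mono_of_mono _ (biprod.fst : J i ⊞ J (i + 1) ⟶ J i)
    exact HomologicalComplex.mono_of_mono_f _ this
  · intro i
    exact hb _ _ (hJ _) (hJ _)

lemma exists_epi_complex (P : ObjectProperty A) (hb : ∀ X Y : A, P X → P Y → P (X ⊞ Y))
    (hP : ∀ X : A, ∃ (Y : A) (p : Y ⟶ X), P Y ∧ Epi p)
    (K : CochainComplex A ℤ) :
    ∃ (E : CochainComplex A ℤ) (f : E ⟶ K), Epi f ∧ ∀ i, P (E.X i) := by
  choose J π hJ hπ using fun i => hP (K.X i)
  refine ⟨_, fromDbl K J π, ?_, ?_⟩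
  · have : ∀ i, Epi ((fromDbl K J π).f i) := by
      intro i
      have h1 : (biprod.inr : J i ⟶ J (i - 1) ⊞ J i) ≫ (fromDbl K J π).f i = π i :=
        biprod.inr_desc _ _
      have : Epi ((biprod.inr : J i ⟶ J (i - 1) ⊞ J i) ≫ (fromDbl K J π).f i) := by
        rw [h1]
        exact hπ i
      exact epi_of_epi (biprod.inr : J i ⟶ J (i - 1) ⊞ J i) _
    exact HomologicalComplex.epi_of_epi_f _ this
  · intro i
    exact hb _ _ (hJ _) (hJ _)

/-- An unbounded complex has a right resolution by a complex with terms in `P`: the kernel of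
an epimorphism of complexes with terms in `P`. -/
lemma exists_shortExact_right (P : ObjectProperty A) (hb : ∀ X Y : A, P X → P Y → P (X ⊞ Y))
    [P.IsClosedUnderQuotients]
    (hP : ∀ X : A, ∃ (Y : A) (i : X ⟶ Y), P Y ∧ Mono i)
    (K : CochainComplex A ℤ) :
    ∃ (S : ShortComplex (CochainComplex A ℤ)), S.ShortExact ∧ S.X₁ = K ∧
      (∀ i, P (S.X₂.X i)) ∧ ∀ i, P (S.X₃.X i) := by
  obtain ⟨E, f, hf, hE⟩ := exists_mono_complex P hb hP K
  refine ⟨ShortComplex.mk f (cokernel.π f) (by simp), ?_, rfl, hE, ?_⟩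
  · exact ShortComplex.ShortExact.mk (ShortComplex.exact_cokernel f)
  · intro i
    exact P.prop_of_epi ((cokernel.π f).f i) (hE i)

lemma exists_shortExact_left (P : ObjectProperty A) (hb : ∀ X Y : A, P X → P Y → P (X ⊞ Y))
    [P.IsClosedUnderSubobjects]
    (hP : ∀ X : A, ∃ (Y : A) (p : Y ⟶ X), P Y ∧ Epi p)
    (K : CochainComplex A ℤ) :
    ∃ (S : ShortComplex (CochainComplex A ℤ)), S.ShortExact ∧ S.X₃ = K ∧
      (∀ i, P (S.X₁.X i)) ∧ ∀ i, P (S.X₂.X i) := by
  obtain ⟨E, f, hf, hE⟩ := exists_epi_complex P hb hP K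
  refine ⟨ShortComplex.mk (kernel.ι f) f (by simp), ?_, rfl, ?_, hE⟩
  · exact ShortComplex.ShortExact.mk (ShortComplex.exact_kernel f)
  · intro i
    exact P.prop_of_mono ((kernel.ι f).f i) (hE i)

end Part1

section Part2

universe w v u v' u'

section

variable {A : Type u} [Category.{v} A] [Abelian A]

/-- Two out of three for a morphism of distinguished triangles and quasi-isomorphisms. -/
lemma quasiIso₁
    {T T' : Triangle (HomotopyCategory A (ComplexShape.up ℤ))} (φ : T ⟶ T')
    (hT : T ∈ distTriang _) (hT' : T' ∈ distTriang _)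
    (h₂ : HomotopyCategory.quasiIso A _ φ.hom₂) (h₃ : HomotopyCategory.quasiIso A _ φ.hom₃) :
    HomotopyCategory.quasiIso A _ φ.hom₁ := by
  let := HasDerivedCategory.standard A
  have h := Pretriangulated.isIso₁_of_isIso₂₃ (DerivedCategory.Qh.mapTriangle.map φ)
    (DerivedCategory.Qh.map_distinguished _ hT) (DerivedCategory.Qh.map_distinguished _ hT')
    (Localization.inverts DerivedCategory.Qh _ _ h₂)
    (Localization.inverts DerivedCategory.Qh _ _ h₃)
  rwa [← DerivedCategory.isIso_Qh_map_iff]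

lemma quasiIso_id (X : HomotopyCategory A (ComplexShape.up ℤ)) :
    HomotopyCategory.quasiIso A _ (𝟙 X) := by
  let := HasDerivedCategory.standard A
  rw [← DerivedCategory.isIso_Qh_map_iff]
  infer_instance

lemma quasiIso_desc {S : ShortComplex (CochainComplex A ℤ)} (hS : S.ShortExact) :
    HomotopyCategory.quasiIso A (ComplexShape.up ℤ)
      ((HomotopyCategory.quotient A (ComplexShape.up ℤ)).map
        (CochainComplex.mappingCone.descShortComplex S)) := by
  rw [HomotopyCategory.quotient_map_mem_quasiIso_iff]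
  exact CochainComplex.mappingCone.quasiIso_descShortComplex hS

section

variable (Q : ObjectProperty (HomotopyCategory A (ComplexShape.up ℤ))) [Q.IsTriangulated]

lemma right_aux {X E₀ C E₁ : HomotopyCategory A (ComplexShape.up ℤ)} (f : X ⟶ E₀) (g : E₀ ⟶ C)
    (h : C ⟶ X⟦(1 : ℤ)⟧) (hT : Triangle.mk f g h ∈ distTriang _) (q : C ⟶ E₁)
    (hq : HomotopyCategory.quasiIso A _ q) (h₀ : Q E₀) (h₁ : Q E₁) :
    ∃ (L : HomotopyCategory A (ComplexShape.up ℤ)) (s : X ⟶ L), Q L ∧
      HomotopyCategory.quasiIso A _ s := by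
  obtain ⟨L, hL, a, c, hT'⟩ := Q.distinguished_cocone_triangle₁ (g ≫ q) h₀ h₁
  obtain ⟨t, ht, ht'⟩ := complete_distinguished_triangle_morphism₁ _ _ hT hT' (𝟙 _) q
    (id_comp _).symm
  exact ⟨L, t, hL, quasiIso₁ (Triangle.homMk _ _ t (𝟙 _) q ht (id_comp _).symm ht') hT hT'
    (quasiIso_id _) hq⟩

lemma left_aux {E₁ E₀ C X : HomotopyCategory A (ComplexShape.up ℤ)} (f : E₁ ⟶ E₀) (g : E₀ ⟶ C)
    (h : C ⟶ E₁⟦(1 : ℤ)⟧) (hT : Triangle.mk f g h ∈ distTriang _) (q : C ⟶ X)
    (hq : HomotopyCategory.quasiIso A _ q) (h₀ : Q E₀) (h₁ : Q E₁) :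
    ∃ (L : HomotopyCategory A (ComplexShape.up ℤ)) (s : L ⟶ X), Q L ∧
      HomotopyCategory.quasiIso A _ s := by
  obtain ⟨L, hL, ⟨e⟩⟩ := Q.ext_of_isTriangulatedClosed₃' _ hT h₁ h₀
  let e' : C ≅ L := e
  refine ⟨L, e'.inv ≫ q, hL, ?_⟩
  let := HasDerivedCategory.standard A
  have := Localization.inverts DerivedCategory.Qh _ _ hq
  rw [← DerivedCategory.isIso_Qh_map_iff, Functor.map_comp]
  infer_instance

end

variable {E : Type u'} [Category.{v'} E] [Preadditive E] (F : E ⥤ A) [F.Additive]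

/-- The functor from the homotopy category of complexes with terms in `E`. -/
noncomputable abbrev FP : HomotopyCategory E (ComplexShape.up ℤ) ⥤
    HomotopyCategory A (ComplexShape.up ℤ) :=
  F.mapHomotopyCategory (ComplexShape.up ℤ)

lemma mem_essImage [F.Full] [F.Faithful] (K : CochainComplex A ℤ)
    (hK : ∀ i, F.essImage (K.X i)) :
    (FP F).essImage ((HomotopyCategory.quotient A (ComplexShape.up ℤ)).obj K) := by
  let L : CochainComplex E ℤ :=
    { X := fun i => (hK i).witness
      d := fun i j => F.preimage ((hK i).getIso.hom ≫ K.d i j ≫ (hK j).getIso.inv)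
      shape := fun i j hij => F.map_injective (by simp [K.shape i j hij])
      d_comp_d' := fun i j k _ _ => F.map_injective (by simp) }
  have key : ∀ i j, F.map (F.preimage ((hK i).getIso.hom ≫ K.d i j ≫ (hK j).getIso.inv)) ≫
      (hK j).getIso.hom = (hK i).getIso.hom ≫ K.d i j := by
    intro i j
    simp
  let e : (F.mapHomologicalComplex (ComplexShape.up ℤ)).obj L ≅ K :=
    HomologicalComplex.Hom.isoOfComponents (fun i => (hK i).getIso)
      (fun i j _ => (key i j).symm)
  exact ⟨(HomotopyCategory.quotient _ _).obj L, ⟨(HomotopyCategory.quotient _ _).mapIso e⟩⟩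

variable [F.Full] [F.Faithful] [HasZeroObject E] [HasBinaryBiproducts E]

lemma essImage_biprod (X Y : A) (hX : F.essImage X) (hY : F.essImage Y) :
    F.essImage (X ⊞ Y) := by
  obtain ⟨X', ⟨e⟩⟩ := hX
  obtain ⟨Y', ⟨e'⟩⟩ := hY
  have := preservesBinaryBiproducts_of_preservesBiproducts F
  exact ⟨X' ⊞ Y', ⟨F.mapBiprod _ _ ≪≫ biprod.mapIso e e'⟩⟩

/-- Right resolutions in the homotopy category. -/
lemma exists_right [F.essImage.IsClosedUnderQuotients]
    (hF : ∀ X : A, ∃ (Y : E) (i : X ⟶ F.obj Y), Mono i)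
    (X : HomotopyCategory A (ComplexShape.up ℤ)) :
    ∃ (L : HomotopyCategory A (ComplexShape.up ℤ)) (s : X ⟶ L), (FP F).essImage L ∧
      HomotopyCategory.quasiIso A _ s := by
  obtain ⟨K, rfl⟩ := HomotopyCategory.quotient_obj_surjective X
  obtain ⟨S, hS, rfl, h₂, h₃⟩ := exists_shortExact_right F.essImage (essImage_biprod F)
    (fun X => by
      obtain ⟨Y, i, hi⟩ := hF X
      exact ⟨F.obj Y, i, F.obj_mem_essImage Y, hi⟩) K
  exact right_aux _ _ _ _ (HomotopyCategory.mappingCone_triangleh_distinguished S.f)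
    _ (quasiIso_desc hS) (mem_essImage F _ h₂) (mem_essImage F _ h₃)

/-- Left resolutions in the homotopy category. -/
lemma exists_left [F.essImage.IsClosedUnderSubobjects]
    (hF : ∀ X : A, ∃ (Y : E) (p : F.obj Y ⟶ X), Epi p)
    (X : HomotopyCategory A (ComplexShape.up ℤ)) :
    ∃ (L : HomotopyCategory A (ComplexShape.up ℤ)) (s : L ⟶ X), (FP F).essImage L ∧
      HomotopyCategory.quasiIso A _ s := by
  obtain ⟨K, rfl⟩ := HomotopyCategory.quotient_obj_surjective X
  obtain ⟨S, hS, rfl, h₁, h₂⟩ := exists_shortExact_left F.essImage (essImage_biprod F)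
    (fun X => by
      obtain ⟨Y, p, hp⟩ := hF X
      exact ⟨F.obj Y, p, F.obj_mem_essImage Y, hp⟩) K
  exact left_aux _ _ _ _ (HomotopyCategory.mappingCone_triangleh_distinguished S.f)
    _ (quasiIso_desc hS) (mem_essImage F _ h₂) (mem_essImage F _ h₁)

/-- `K(P)` is right localizing. -/
lemma isVerdierRightLocalizing [F.essImage.IsClosedUnderQuotients]
    (hF : ∀ X : A, ∃ (Y : E) (i : X ⟶ F.obj Y), Mono i) :
    (FP F).essImage.IsVerdierRightLocalizing (HomotopyCategory.subcategoryAcyclic A) := by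
  rw [ObjectProperty.isVerdierRightLocalizing_iff]
  intro X Y s hX hs
  obtain ⟨Z, t, hZ, ht⟩ := exists_right F hF Y
  rw [HomotopyCategory.quasiIso_eq_trW_subcategoryAcyclic] at ht
  refine ⟨Z, s ≫ t, t, hZ, ?_, rfl⟩
  obtain ⟨W, hW, b, c, hT⟩ := (FP F).essImage.distinguished_cocone_triangle (s ≫ t) hX hZ
  have h := MorphismProperty.comp_mem _ _ _ hs ht
  rw [ObjectProperty.trW_iff]
  exact ⟨W, b, c, hT, hW, (ObjectProperty.trW_iff_of_distinguished _ _ hT).1 h⟩

/-- `K(P)` is left localizing. -/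
lemma isVerdierLeftLocalizing [F.essImage.IsClosedUnderSubobjects]
    (hF : ∀ X : A, ∃ (Y : E) (p : F.obj Y ⟶ X), Epi p) :
    (FP F).essImage.IsVerdierLeftLocalizing (HomotopyCategory.subcategoryAcyclic A) := by
  rw [ObjectProperty.isVerdierLeftLocalizing_iff]
  intro X Y s hY hs
  obtain ⟨Z, t, hZ, ht⟩ := exists_left F hF X
  rw [HomotopyCategory.quasiIso_eq_trW_subcategoryAcyclic] at ht
  refine ⟨Z, t ≫ s, t, hZ, ?_, rfl⟩
  obtain ⟨W, hW, b, c, hT⟩ := (FP F).essImage.distinguished_cocone_triangle (t ≫ s) hZ hY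
  have h := MorphismProperty.comp_mem _ _ _ ht hs
  rw [ObjectProperty.trW_iff]
  exact ⟨W, b, c, hT, hW, (ObjectProperty.trW_iff_of_distinguished _ _ hT).1 h⟩

section

variable [HasDerivedCategory.{w} A]

omit [F.Full] [F.Faithful] [HasZeroObject E] [HasBinaryBiproducts E] in
/-- The functor `K(E) ⥤ D(A)`. -/
noncomputable abbrev LP : HomotopyCategory E (ComplexShape.up ℤ) ⥤ DerivedCategory A :=
  FP F ⋙ DerivedCategory.Qh

omit [F.Full] [F.Faithful] [HasZeroObject E] [HasBinaryBiproducts E] [HasDerivedCategory.{w} A] in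
/-- The class of quasi-isomorphisms in `K(E)`. -/
abbrev WP : MorphismProperty (HomotopyCategory E (ComplexShape.up ℤ)) :=
  (HomotopyCategory.quasiIso A (ComplexShape.up ℤ)).inverseImage (FP F)

lemma isLocalization_essImage
    [((FP F).essImage.triangulatedLocalizerMorphism
      (HomotopyCategory.subcategoryAcyclic A)).IsLocalizedFullyFaithful]
    [((FP F).essImage.ι ⋙ (DerivedCategory.Qh (C := A))).EssSurj] :
    ((FP F).essImage.ι ⋙ DerivedCategory.Qh (C := A)).IsLocalization
      ((HomotopyCategory.subcategoryAcyclic A).inverseImage (FP F).essImage.ι).trW :=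
  ((FP F).essImage.triangulatedLocalizerMorphism
    (HomotopyCategory.subcategoryAcyclic A)).isLocalization_of_isLocalizedFullyFaithful
      (L₂ := DerivedCategory.Qh) (F := 𝟭 _) (Functor.rightUnitor _).symm

lemma isLocalization_LP
    [((FP F).essImage.triangulatedLocalizerMorphism
      (HomotopyCategory.subcategoryAcyclic A)).IsLocalizedFullyFaithful]
    [((FP F).essImage.ι ⋙ (DerivedCategory.Qh (C := A))).EssSurj] :
    (LP F).IsLocalization (WP F) := by
  have h := isLocalization_essImage F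
  let e₀ := (FP F).toEssImage.asEquivalence.symm
  let e : e₀.functor ⋙ FP F ≅ (FP F).essImage.ι :=
    Functor.isoWhiskerLeft e₀.functor (FP F).toEssImageCompι.symm ≪≫
      (Functor.associator _ _ _).symm ≪≫ Functor.isoWhiskerRight e₀.unitIso.symm _ ≪≫
      Functor.leftUnitor _
  refine Functor.IsLocalization.of_equivalence_source ((FP F).essImage.ι ⋙ DerivedCategory.Qh)
    ((HomotopyCategory.subcategoryAcyclic A).inverseImage (FP F).essImage.ι).trW
    (LP F) (WP F) e₀ ?_ ?_ ?_
  · intro X Y f hf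
    apply MorphismProperty.le_isoClosure
    rw [ObjectProperty.inverseImage_trW_iff, ← HomotopyCategory.quasiIso_eq_trW_subcategoryAcyclic]
      at hf
    exact ((HomotopyCategory.quasiIso A _).arrow_mk_iso_iff
      (((Functor.mapArrowFunctor _ _).mapIso e).app (Arrow.mk f))).2 hf
  · intro X Y f hf
    exact Localization.inverts DerivedCategory.Qh _ _ hf
  · exact (Functor.associator _ _ _).symm ≪≫ Functor.isoWhiskerRight e _

theorem isLocalization_right [F.essImage.IsClosedUnderQuotients]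
    (hF : ∀ X : A, ∃ (Y : E) (i : X ⟶ F.obj Y), Mono i) :
    (LP F).IsLocalization (WP F) := by
  have := isVerdierRightLocalizing F hF
  have : ((FP F).essImage.ι ⋙ (DerivedCategory.Qh (C := A))).EssSurj := by
    refine ⟨fun Y => ?_⟩
    obtain ⟨L, s, hL, hs⟩ := exists_right F hF (DerivedCategory.Qh.objPreimage Y)
    have := Localization.inverts DerivedCategory.Qh _ _ hs
    exact ⟨⟨L, hL⟩, ⟨(asIso (DerivedCategory.Qh.map s)).symm ≪≫
      DerivedCategory.Qh.objObjPreimageIso Y⟩⟩
  exact isLocalization_LP F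

theorem isLocalization_left [F.essImage.IsClosedUnderSubobjects]
    (hF : ∀ X : A, ∃ (Y : E) (p : F.obj Y ⟶ X), Epi p) :
    (LP F).IsLocalization (WP F) := by
  have := isVerdierLeftLocalizing F hF
  have : ((FP F).essImage.ι ⋙ (DerivedCategory.Qh (C := A))).EssSurj := by
    refine ⟨fun Y => ?_⟩
    obtain ⟨L, s, hL, hs⟩ := exists_left F hF (DerivedCategory.Qh.objPreimage Y)
    have := Localization.inverts DerivedCategory.Qh _ _ hs
    exact ⟨⟨L, hL⟩, ⟨(asIso (DerivedCategory.Qh.map s)) ≪≫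
      DerivedCategory.Qh.objObjPreimageIso Y⟩⟩
  exact isLocalization_LP F

end

end

end Part2

section Part3

universe w v u v' u' v'' u''

section

variable {A : Type u} [Category.{v} A] [Abelian A]

lemma exact_glue_iff {W M X I Z : A} (p : W ⟶ M) (i : M ⟶ X) (q : X ⟶ I) (j : I ⟶ Z)
    [Epi p] [Mono j] (h : i ≫ q = 0) (h' : (p ≫ i) ≫ (q ≫ j) = 0) :
    (ShortComplex.mk (p ≫ i) (q ≫ j) h').Exact ↔ (ShortComplex.mk i q h).Exact := by
  have h₁ : (p ≫ i) ≫ q = 0 := by rw [assoc, h, comp_zero]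
  have e₁ : (ShortComplex.mk (p ≫ i) q h₁).Exact ↔ (ShortComplex.mk i q h).Exact := by
    let φ : ShortComplex.mk (p ≫ i) q h₁ ⟶ ShortComplex.mk i q h :=
      { τ₁ := p, τ₂ := 𝟙 _, τ₃ := 𝟙 _ }
    have : Epi φ.τ₁ := inferInstanceAs (Epi p)
    have : IsIso φ.τ₂ := inferInstanceAs (IsIso (𝟙 _))
    have : Mono φ.τ₃ := inferInstanceAs (Mono (𝟙 _))
    exact ShortComplex.exact_iff_of_epi_of_isIso_of_mono φ
  have e₂ : (ShortComplex.mk (p ≫ i) q h₁).Exact ↔
      (ShortComplex.mk (p ≫ i) (q ≫ j) h').Exact := by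
    let φ : ShortComplex.mk (p ≫ i) q h₁ ⟶ ShortComplex.mk (p ≫ i) (q ≫ j) h' :=
      { τ₁ := 𝟙 _, τ₂ := 𝟙 _, τ₃ := j }
    have : Epi φ.τ₁ := inferInstanceAs (Epi (𝟙 _))
    have : IsIso φ.τ₂ := inferInstanceAs (IsIso (𝟙 _))
    have : Mono φ.τ₃ := inferInstanceAs (Mono j)
    exact ShortComplex.exact_iff_of_epi_of_isIso_of_mono φ
  exact e₂.symm.trans e₁

variable {E : Type u'} [Category.{v'} E] [Preadditive E] (F : E ⥤ A) [F.Additive]
  [F.Full] [F.Faithful]

lemma exact_map_glue_iff {W M X I Z : E} (p : W ⟶ M) (i : M ⟶ X) (q : X ⟶ I) (j : I ⟶ Z)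
    [Epi (F.map p)] [Mono (F.map j)] (h : i ≫ q = 0) (h' : (p ≫ i) ≫ (q ≫ j) = 0) :
    ((ShortComplex.mk (p ≫ i) (q ≫ j) h').map F).Exact ↔
      ((ShortComplex.mk i q h).map F).Exact := by
  have h₁ : F.map i ≫ F.map q = 0 := by rw [← F.map_comp, h, F.map_zero]
  have h₂ : (F.map p ≫ F.map i) ≫ F.map q ≫ F.map j = 0 := by
    rw [← F.map_comp, ← F.map_comp, ← F.map_comp, h', F.map_zero]
  have e := exact_glue_iff (F.map p) (F.map i) (F.map q) (F.map j) h₁ h₂
  have hf : 𝟙 (F.obj W) ≫ F.map p ≫ F.map i = F.map (p ≫ i) ≫ 𝟙 (F.obj X) := by simp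
  have hg : 𝟙 (F.obj X) ≫ F.map q ≫ F.map j = F.map (q ≫ j) ≫ 𝟙 (F.obj Z) := by simp
  let φ : (ShortComplex.mk (p ≫ i) (q ≫ j) h').map F ≅
      ShortComplex.mk (F.map p ≫ F.map i) (F.map q ≫ F.map j) h₂ :=
    ShortComplex.isoMk (Iso.refl (F.obj W)) (Iso.refl (F.obj X)) (Iso.refl (F.obj Z)) hf hg
  exact (ShortComplex.exact_iff_of_iso φ).trans e

lemma exists_factor {X Y : E} (f : X ⟶ Y) (h : F.essImage (Limits.image (F.map f))) :
    ∃ (I : E) (p : X ⟶ I) (i : I ⟶ Y), p ≫ i = f ∧ Epi (F.map p) ∧ Mono (F.map i) := by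
  obtain ⟨I, ⟨e⟩⟩ := h
  refine ⟨I, F.preimage (factorThruImage (F.map f) ≫ e.inv),
    F.preimage (e.hom ≫ image.ι (F.map f)), F.map_injective (by simp), ?_, ?_⟩
  · rw [F.map_preimage]
    infer_instance
  · rw [F.map_preimage]
    infer_instance

lemma exists_factor_quot [F.essImage.IsClosedUnderQuotients] {X Y : E} (f : X ⟶ Y) :
    ∃ (I : E) (p : X ⟶ I) (i : I ⟶ Y), p ≫ i = f ∧ Epi (F.map p) ∧ Mono (F.map i) :=
  exists_factor F f (F.essImage.prop_of_epi (factorThruImage (F.map f)) (F.obj_mem_essImage X))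

lemma exists_factor_sub [F.essImage.IsClosedUnderSubobjects] {X Y : E} (f : X ⟶ Y) :
    ∃ (I : E) (p : X ⟶ I) (i : I ⟶ Y), p ≫ i = f ∧ Epi (F.map p) ∧ Mono (F.map i) :=
  exists_factor F f (F.essImage.prop_of_mono (image.ι (F.map f)) (F.obj_mem_essImage Y))

lemma exists_coker [F.essImage.IsClosedUnderQuotients] {X Y : E} (i : X ⟶ Y)
    [Mono (F.map i)] :
    ∃ (C : E) (π : Y ⟶ C) (h : i ≫ π = 0), ((ShortComplex.mk i π h).map F).ShortExact := by
  obtain ⟨C, ⟨e⟩⟩ := F.essImage.prop_of_epi (cokernel.π (F.map i)) (F.obj_mem_essImage Y)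
  have h : i ≫ F.preimage (cokernel.π (F.map i) ≫ e.inv) = 0 := F.map_injective (by simp)
  refine ⟨C, F.preimage (cokernel.π (F.map i) ≫ e.inv), h, ?_⟩
  have h₀ : (ShortComplex.mk (F.map i) (cokernel.π (F.map i)) (by simp)).ShortExact :=
    ShortComplex.ShortExact.mk (ShortComplex.exact_cokernel _)
  have hf : 𝟙 (F.obj X) ≫ F.map i = F.map i ≫ 𝟙 (F.obj Y) := by simp
  have hg : 𝟙 (F.obj Y) ≫ F.map (F.preimage (cokernel.π (F.map i) ≫ e.inv)) =
      cokernel.π (F.map i) ≫ e.symm.hom := by simp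
  let φ : ShortComplex.mk (F.map i) (cokernel.π (F.map i)) (by simp) ≅
      (ShortComplex.mk i (F.preimage (cokernel.π (F.map i) ≫ e.inv)) h).map F :=
    ShortComplex.isoMk (Iso.refl (F.obj X)) (Iso.refl (F.obj Y)) e.symm hf hg
  exact ShortComplex.shortExact_of_iso φ h₀

lemma exists_ker [F.essImage.IsClosedUnderSubobjects] {X Y : E} (p : X ⟶ Y)
    [Epi (F.map p)] :
    ∃ (N : E) (ι : N ⟶ X) (h : ι ≫ p = 0), ((ShortComplex.mk ι p h).map F).ShortExact := by
  obtain ⟨N, ⟨e⟩⟩ := F.essImage.prop_of_mono (kernel.ι (F.map p)) (F.obj_mem_essImage X)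
  have h : F.preimage (e.hom ≫ kernel.ι (F.map p)) ≫ p = 0 := F.map_injective (by simp)
  refine ⟨N, F.preimage (e.hom ≫ kernel.ι (F.map p)), h, ?_⟩
  have h₀ : (ShortComplex.mk (kernel.ι (F.map p)) (F.map p) (by simp)).ShortExact :=
    ShortComplex.ShortExact.mk (ShortComplex.exact_kernel _)
  have hf : e.symm.hom ≫ F.map (F.preimage (e.hom ≫ kernel.ι (F.map p))) =
      kernel.ι (F.map p) ≫ 𝟙 (F.obj X) := by simp
  have hg : 𝟙 (F.obj X) ≫ F.map p = F.map p ≫ 𝟙 (F.obj Y) := by simp
  let φ : ShortComplex.mk (kernel.ι (F.map p)) (F.map p) (by simp) ≅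
      (ShortComplex.mk (F.preimage (e.hom ≫ kernel.ι (F.map p))) p h).map F :=
    ShortComplex.isoMk e.symm (Iso.refl (F.obj X)) (Iso.refl (F.obj Y)) hf hg
  exact ShortComplex.shortExact_of_iso φ h₀

end

section

variable {A : Type u} [Category.{v} A] [Abelian A] {B : Type u''} [Category.{v''} B] [Abelian B]
  {E : Type u'} [Category.{v'} E] [Preadditive E]
  (F : E ⥤ A) [F.Additive] [F.Full] [F.Faithful]
  (G : E ⥤ B) [G.Additive] [G.Full] [G.Faithful]
  (hex : ∀ S : ShortComplex E, (S.map F).ShortExact ↔ (S.map G).ShortExact)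

include hex

lemma exact_G_of_F [F.essImage.IsClosedUnderQuotients] {W X Y Z : E} (a : W ⟶ X) (b : X ⟶ Y)
    (c : Y ⟶ Z) (hab : a ≫ b = 0) (hbc : b ≫ c = 0)
    (h₁ : ((ShortComplex.mk a b hab).map F).Exact)
    (h₂ : ((ShortComplex.mk b c hbc).map F).Exact) :
    ((ShortComplex.mk b c hbc).map G).Exact := by
  obtain ⟨H, r, m, rfl, hr, hm⟩ := exists_factor_quot F a
  obtain ⟨I, p, i, rfl, hp, hi⟩ := exists_factor_quot F b
  obtain ⟨J, q, j, rfl, hq, hj⟩ := exists_factor_quot F c
  have hmp : m ≫ p = 0 := by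
    apply F.map_injective
    rw [← cancel_epi (F.map r), ← cancel_mono (F.map i)]
    simpa using congrArg F.map hab
  have hiq : i ≫ q = 0 := by
    apply F.map_injective
    rw [← cancel_epi (F.map p), ← cancel_mono (F.map j)]
    simpa using congrArg F.map hbc
  rw [exact_map_glue_iff F r m p i hmp hab] at h₁
  rw [exact_map_glue_iff F p i q j hiq hbc] at h₂
  have s₁ : ((ShortComplex.mk m p hmp).map F).ShortExact := { exact := h₁, mono_f := hm, epi_g := hp }
  have s₂ : ((ShortComplex.mk i q hiq).map F).ShortExact := { exact := h₂, mono_f := hi, epi_g := hq }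
  obtain ⟨C, π, hπ, s₃⟩ := exists_coker F j
  rw [hex] at s₁ s₂ s₃
  have : Epi (G.map p) := s₁.epi_g
  have : Mono (G.map j) := s₃.mono_f
  rw [exact_map_glue_iff G p i q j hiq hbc]
  exact s₂.exact

lemma exact_F_of_G [G.essImage.IsClosedUnderSubobjects] {W X Y Z : E} (a : W ⟶ X) (b : X ⟶ Y)
    (c : Y ⟶ Z) (hab : a ≫ b = 0) (hbc : b ≫ c = 0)
    (h₁ : ((ShortComplex.mk a b hab).map G).Exact)
    (h₂ : ((ShortComplex.mk b c hbc).map G).Exact) :
    ((ShortComplex.mk a b hab).map F).Exact := by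
  obtain ⟨H, r, m, rfl, hr, hm⟩ := exists_factor_sub G a
  obtain ⟨I, p, i, rfl, hp, hi⟩ := exists_factor_sub G b
  obtain ⟨J, q, j, rfl, hq, hj⟩ := exists_factor_sub G c
  have hmp : m ≫ p = 0 := by
    apply G.map_injective
    rw [← cancel_epi (G.map r), ← cancel_mono (G.map i)]
    simpa using congrArg G.map hab
  have hiq : i ≫ q = 0 := by
    apply G.map_injective
    rw [← cancel_epi (G.map p), ← cancel_mono (G.map j)]
    simpa using congrArg G.map hbc
  rw [exact_map_glue_iff G r m p i hmp hab] at h₁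
  rw [exact_map_glue_iff G p i q j hiq hbc] at h₂
  have s₁ : ((ShortComplex.mk m p hmp).map G).ShortExact := { exact := h₁, mono_f := hm, epi_g := hp }
  have s₂ : ((ShortComplex.mk i q hiq).map G).ShortExact := { exact := h₂, mono_f := hi, epi_g := hq }
  obtain ⟨N, ι, hι, s₃⟩ := exists_ker G r
  rw [← hex] at s₁ s₂ s₃
  have : Epi (F.map r) := s₃.epi_g
  have : Mono (F.map i) := s₂.mono_f
  rw [exact_map_glue_iff F r m p i hmp hab]
  exact s₁.exact

lemma exactAt_G_of_F [F.essImage.IsClosedUnderQuotients] (K : CochainComplex E ℤ) (n : ℤ)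
    (h₁ : ((F.mapHomologicalComplex _).obj K).ExactAt n)
    (h₂ : ((F.mapHomologicalComplex _).obj K).ExactAt (n + 1)) :
    ((G.mapHomologicalComplex _).obj K).ExactAt (n + 1) := by
  rw [HomologicalComplex.exactAt_iff' _ (n - 1) n (n + 1) (by simp) (by simp)] at h₁
  rw [HomologicalComplex.exactAt_iff' _ n (n + 1) (n + 1 + 1) (by simp) (by simp)] at h₂ ⊢
  exact exact_G_of_F F G hex (K.d (n - 1) n) (K.d n (n + 1)) (K.d (n + 1) (n + 1 + 1))
    (K.d_comp_d _ _ _) (K.d_comp_d _ _ _) h₁ h₂

lemma exactAt_F_of_G [G.essImage.IsClosedUnderSubobjects] (K : CochainComplex E ℤ) (n : ℤ)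
    (h₁ : ((G.mapHomologicalComplex _).obj K).ExactAt n)
    (h₂ : ((G.mapHomologicalComplex _).obj K).ExactAt (n + 1)) :
    ((F.mapHomologicalComplex _).obj K).ExactAt n := by
  rw [HomologicalComplex.exactAt_iff' _ (n - 1) n (n + 1) (by simp) (by simp)] at h₁ ⊢
  rw [HomologicalComplex.exactAt_iff' _ n (n + 1) (n + 1 + 1) (by simp) (by simp)] at h₂
  exact exact_F_of_G F G hex (K.d (n - 1) n) (K.d n (n + 1)) (K.d (n + 1) (n + 1 + 1))
    (K.d_comp_d _ _ _) (K.d_comp_d _ _ _) h₁ h₂

end

end Part3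

section Part4

universe w v u v' u' v'' u'' w'

variable {A : Type u} [Category.{v} A] [Abelian A] {B : Type u''} [Category.{v''} B] [Abelian B]
  {E : Type u'} [Category.{v'} E] [Preadditive E] [HasZeroObject E] [HasBinaryBiproducts E]
  (F : E ⥤ A) [F.Additive] [F.Full] [F.Faithful]
  (G : E ⥤ B) [G.Additive] [G.Full] [G.Faithful]
  (hex : ∀ S : ShortComplex E, (S.map F).ShortExact ↔ (S.map G).ShortExact)
  [F.essImage.IsClosedUnderQuotients] [G.essImage.IsClosedUnderSubobjects]

section

include hex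

lemma acyclic_iff (K : HomotopyCategory E (ComplexShape.up ℤ)) :
    HomotopyCategory.subcategoryAcyclic A ((FP F).obj K) ↔
      HomotopyCategory.subcategoryAcyclic B ((FP G).obj K) := by
  obtain ⟨K, rfl⟩ := HomotopyCategory.quotient_obj_surjective K
  have h₁ := HomotopyCategory.quotient_obj_mem_subcategoryAcyclic_iff_exactAt
    ((F.mapHomologicalComplex (ComplexShape.up ℤ)).obj K)
  have h₂ := HomotopyCategory.quotient_obj_mem_subcategoryAcyclic_iff_exactAt
    ((G.mapHomologicalComplex (ComplexShape.up ℤ)).obj K)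
  refine (h₁.trans ?_).trans h₂.symm
  constructor
  · intro h n
    obtain ⟨m, rfl⟩ : ∃ m, n = m + 1 := ⟨n - 1, by ring⟩
    exact exactAt_G_of_F F G hex K m (h _) (h _)
  · intro h n
    exact exactAt_F_of_G F G hex K n (h _) (h _)

lemma WP_iff {K L : HomotopyCategory E (ComplexShape.up ℤ)} (f : K ⟶ L) :
    WP F f ↔ WP G f := by
  have h₁ : WP F f ↔ ((HomotopyCategory.subcategoryAcyclic A).inverseImage (FP F)).trW f := by
    rw [ObjectProperty.inverseImage_trW_iff, ← HomotopyCategory.quasiIso_eq_trW_subcategoryAcyclic]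
    rfl
  have h₂ : WP G f ↔ ((HomotopyCategory.subcategoryAcyclic B).inverseImage (FP G)).trW f := by
    rw [ObjectProperty.inverseImage_trW_iff, ← HomotopyCategory.quasiIso_eq_trW_subcategoryAcyclic]
    rfl
  have h₃ : (HomotopyCategory.subcategoryAcyclic A).inverseImage (FP F) =
      (HomotopyCategory.subcategoryAcyclic B).inverseImage (FP G) := by
    ext K
    exact acyclic_iff F G hex K
  rw [h₁, h₂, h₃]

lemma WP_eq : WP F = WP G := by
  ext K L f
  exact WP_iff F G hex f

end

lemma essSurj_mapArrow_LP [HasDerivedCategory.{w} A] [(LP F).IsLocalization (WP F)] :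
    (LP F).mapArrow.EssSurj := by
  have h : WP F = ((HomotopyCategory.subcategoryAcyclic A).inverseImage (FP F)).trW := by
    ext K L f
    rw [ObjectProperty.inverseImage_trW_iff, ← HomotopyCategory.quasiIso_eq_trW_subcategoryAcyclic]
    rfl
  have : (LP F).IsLocalization
      ((HomotopyCategory.subcategoryAcyclic A).inverseImage (FP F)).trW := by
    rw [← h]
    infer_instance
  exact Localization.essSurj_mapArrow (LP F)
    ((HomotopyCategory.subcategoryAcyclic A).inverseImage (FP F)).trW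

section

variable [HasDerivedCategory.{w} A] [HasDerivedCategory.{w'} B]

omit [F.essImage.IsClosedUnderQuotients] in
lemma plus_LP_iff (K : CochainComplex E ℤ) :
    (DerivedCategory.TStructure.t (C := A)).plus
      ((LP F).obj ((HomotopyCategory.quotient _ _).obj K)) ↔
      ∃ n : ℤ, ∀ i < n, ((F.mapHomologicalComplex (ComplexShape.up ℤ)).obj K).ExactAt i := by
  have e := (DerivedCategory.quotientCompQhIso A).app
    ((F.mapHomologicalComplex (ComplexShape.up ℤ)).obj K)
  refine ((DerivedCategory.TStructure.t (C := A)).plus.prop_iff_of_iso e).trans ?_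
  refine exists_congr fun n => ?_
  exact (DerivedCategory.isGE_Q_obj_iff _ _).trans (CochainComplex.isGE_iff _ _)

omit [F.essImage.IsClosedUnderQuotients] in
lemma minus_LP_iff (K : CochainComplex E ℤ) :
    (DerivedCategory.TStructure.t (C := A)).minus
      ((LP F).obj ((HomotopyCategory.quotient _ _).obj K)) ↔
      ∃ n : ℤ, ∀ i > n, ((F.mapHomologicalComplex (ComplexShape.up ℤ)).obj K).ExactAt i := by
  have e := (DerivedCategory.quotientCompQhIso A).app
    ((F.mapHomologicalComplex (ComplexShape.up ℤ)).obj K)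
  refine ((DerivedCategory.TStructure.t (C := A)).minus.prop_iff_of_iso e).trans ?_
  refine exists_congr fun n => ?_
  exact (DerivedCategory.isLE_Q_obj_iff _ _).trans (CochainComplex.isLE_iff _ _)

include hex in
lemma bounded_iff (K : HomotopyCategory E (ComplexShape.up ℤ)) :
    (DerivedCategory.TStructure.t (C := A)).bounded ((LP F).obj K) ↔
      (DerivedCategory.TStructure.t (C := B)).bounded ((LP G).obj K) := by
  obtain ⟨K, rfl⟩ := HomotopyCategory.quotient_obj_surjective K
  refine and_congr ?_ ?_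
  · rw [plus_LP_iff, plus_LP_iff]
    constructor
    · rintro ⟨n, hn⟩
      refine ⟨n, fun i hi => ?_⟩
      obtain ⟨m, rfl⟩ : ∃ m, i = m + 1 := ⟨i - 1, by ring⟩
      exact exactAt_G_of_F F G hex K m (hn _ (by lia)) (hn _ hi)
    · rintro ⟨n, hn⟩
      refine ⟨n - 1, fun i hi => ?_⟩
      exact exactAt_F_of_G F G hex K i (hn _ (by lia)) (hn _ (by lia))
  · rw [minus_LP_iff, minus_LP_iff]
    constructor
    · rintro ⟨n, hn⟩
      refine ⟨n + 1, fun i hi => ?_⟩
      obtain ⟨m, rfl⟩ : ∃ m, i = m + 1 := ⟨i - 1, by ring⟩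
      exact exactAt_G_of_F F G hex K m (hn _ (by lia)) (hn _ (by lia))
    · rintro ⟨n, hn⟩
      refine ⟨n, fun i hi => ?_⟩
      exact exactAt_F_of_G F G hex K i (hn _ (by lia)) (hn _ (by lia))

include hex in
/-- The equivalence of unbounded derived categories. -/
theorem exists_equiv_D (k : Type*) [Ring k] [Linear k A] [Linear k B] [Linear k E]
    [F.Linear k] [G.Linear k]
    (hF : ∀ X : A, ∃ (Y : E) (i : X ⟶ F.obj Y), Mono i)
    (hG : ∀ X : B, ∃ (Y : E) (p : G.obj Y ⟶ X), Epi p) :
    ∃ (e : DerivedCategory A ≌ DerivedCategory B) (_ : e.functor.CommShift ℤ)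
      (_ : LP F ⋙ e.functor ≅ LP G), e.functor.IsTriangulated ∧ e.functor.Linear k ∧
      (LP F).EssSurj := by
  have h₁ := isLocalization_right F hF
  have h₂ : (LP G).IsLocalization (WP F) := by
    rw [WP_eq F G hex]
    exact isLocalization_left G hG
  have := essSurj_mapArrow_LP F
  let e := Localization.uniq (LP F) (LP G) (WP F)
  let : Localization.Lifting (LP F) (WP F) (LP G) e.functor :=
    inferInstanceAs (Localization.Lifting (LP F) (WP F) (LP G)
      (Localization.uniq (LP F) (LP G) (WP F)).functor)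
  let : e.functor.CommShift ℤ :=
    Functor.commShiftOfLocalization (LP F) (WP F) ℤ (LP G) e.functor
  refine ⟨e, inferInstance, Localization.Lifting.iso (LP F) (WP F) (LP G) e.functor, ?_, ?_, ?_⟩
  · exact Functor.isTriangulated_of_precomp_iso
      (Localization.Lifting.iso (LP F) (WP F) (LP G) e.functor)
  · rw [← Localization.functor_linear_iff (LP F) (WP F) k (LP G)]
    infer_instance
  · exact Localization.essSurj (LP F) (WP F)

end

end Part4

section Part5

universe w v u v' u' v'' u'' w'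

/-- The bounded derived category of an abelian category: the full subcategory of the derived
category of the objects with bounded cohomology. -/
abbrev Db (C : Type u) [Category.{v} C] [Abelian C] [HasDerivedCategory.{w} C] :=
  (DerivedCategory.TStructure.t (C := C)).bounded.FullSubcategory

noncomputable example (C : Type u) [Category.{v} C] [Abelian C] [HasDerivedCategory.{w} C] :
    HasShift (Db C) ℤ := inferInstance

noncomputable example (C : Type u) [Category.{v} C] [Abelian C] [HasDerivedCategory.{w} C] :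
    Pretriangulated (Db C) := inferInstance

example (C : Type u) [Category.{v} C] [Abelian C] [HasDerivedCategory.{w} C] :
    IsTriangulated (Db C) := inferInstance

noncomputable example (k : Type*) [Ring k] (C : Type u) [Category.{v} C] [Abelian C] [Linear k C]
    [HasDerivedCategory.{w} C] : Linear k (Db C) := inferInstance

variable {A : Type u} [Category.{v} A] [Abelian A] {B : Type u''} [Category.{v''} B] [Abelian B]
  {E : Type u'} [Category.{v'} E] [Preadditive E] [HasZeroObject E] [HasBinaryBiproducts E]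
  (F : E ⥤ A) [F.Additive] [F.Full] [F.Faithful]
  (G : E ⥤ B) [G.Additive] [G.Full] [G.Faithful]
  (hex : ∀ S : ShortComplex E, (S.map F).ShortExact ↔ (S.map G).ShortExact)
  [F.essImage.IsClosedUnderQuotients] [G.essImage.IsClosedUnderSubobjects]
  [HasDerivedCategory.{w} A] [HasDerivedCategory.{w'} B]

include hex in
/-- The equivalence of bounded derived categories. -/
theorem exists_equiv_Db (k : Type*) [Ring k] [Linear k A] [Linear k B] [Linear k E]
    [F.Linear k] [G.Linear k]
    (hF : ∀ X : A, ∃ (Y : E) (i : X ⟶ F.obj Y), Mono i)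
    (hG : ∀ X : B, ∃ (Y : E) (p : G.obj Y ⟶ X), Epi p) :
    ∃ (e : Db A ≌ Db B) (_ : e.functor.CommShift ℤ),
      e.functor.IsTriangulated ∧ e.functor.Linear k := by
  obtain ⟨e, h₀, i, h₁, h₂, h₃⟩ := exists_equiv_D F G hex k hF hG
  have h : (DerivedCategory.TStructure.t (C := B)).bounded.inverseImage e.functor =
      (DerivedCategory.TStructure.t (C := A)).bounded := by
    ext X
    let j := (LP F).objObjPreimageIso X
    have e₁ := (DerivedCategory.TStructure.t (C := A)).bounded.prop_iff_of_iso j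
    have e₂ := (DerivedCategory.TStructure.t (C := B)).bounded.prop_iff_of_iso
      (e.functor.mapIso j)
    have e₃ := (DerivedCategory.TStructure.t (C := B)).bounded.prop_iff_of_iso
      (i.app ((LP F).objPreimage X))
    have e₄ := bounded_iff F G hex ((LP F).objPreimage X)
    exact (e₂.symm.trans (e₃.trans e₄.symm)).trans e₁
  refine ⟨e.congrFullSubcategory h, ?_, ?_, ?_⟩
  · dsimp [Equivalence.congrFullSubcategory]
    infer_instance
  · dsimp [Equivalence.congrFullSubcategory]
    infer_instance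
  · dsimp [Equivalence.congrFullSubcategory]
    refine { map_smul := fun f r => ?_ }
    have h₄ : (((DerivedCategory.TStructure.t (C := A)).bounded.ι ⋙ e.functor).Linear k) := inferInstance
    ext
    exact h₄.map_smul f r

lemma hasBinaryBiproducts_full {A : Type u} [Category.{v} A] [Abelian A] (P : ObjectProperty A)
    (hPb : ∀ X Y : A, P X → P Y → P (X ⊞ Y)) : HasBinaryBiproducts P.FullSubcategory where
  has_binary_biproduct X Y := by
    let b : BinaryBicone X Y :=
      { pt := ⟨X.obj ⊞ Y.obj, hPb _ _ X.property Y.property⟩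
        fst := P.homMk biprod.fst
        snd := P.homMk biprod.snd
        inl := P.homMk biprod.inl
        inr := P.homMk biprod.inr
        inl_fst := by ext; exact biprod.inl_fst
        inl_snd := by ext; exact biprod.inl_snd
        inr_fst := by ext; exact biprod.inr_fst
        inr_snd := by ext; exact biprod.inr_snd }
    refine HasBinaryBiproduct.mk ⟨b, isBinaryBilimitOfTotal b ?_⟩
    exact P.hom_ext (biprod.total (X := X.obj) (Y := Y.obj))

open ZeroObject in
/-- **Lemma E**. Let `P` be a full subcategory of the abelian category `A`, closed under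
quotients and finite sums, such that every object embeds in an object of `P`. Let `Ψ` be a fully
faithful functor from `P` to the abelian category `B` which preserves and reflects short exact
sequences, whose essential image is closed under subobjects and such that every object of `B` is
a quotient of an object in the image. Then the bounded derived categories are equivalent. -/
theorem lemmaE (k : Type*) [Ring k] {A : Type u} [Category.{v} A] [Abelian A] [Linear k A]
    [HasDerivedCategory.{w} A] {B : Type u''} [Category.{v''} B] [Abelian B] [Linear k B]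
    [HasDerivedCategory.{w'} B] (P : ObjectProperty A) [P.IsClosedUnderQuotients]
    (hP0 : P 0) (hPb : ∀ X Y : A, P X → P Y → P (X ⊞ Y))
    (hP : ∀ X : A, ∃ (Y : A) (i : X ⟶ Y), P Y ∧ Mono i)
    (Ψ : P.FullSubcategory ⥤ B) [Ψ.Additive] [Ψ.Linear k] [Ψ.Full] [Ψ.Faithful]
    (hex : ∀ S : ShortComplex P.FullSubcategory,
      (S.map P.ι).ShortExact ↔ (S.map Ψ).ShortExact)
    (hsub : ∀ (X : P.FullSubcategory) (M : B) (i : M ⟶ Ψ.obj X), Mono i →
      ∃ Y, Nonempty (Ψ.obj Y ≅ M))
    (hgen : ∀ M : B, ∃ (X : P.FullSubcategory) (p : Ψ.obj X ⟶ M), Epi p) :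
    ∃ (e : Db A ≌ Db B) (_ : e.functor.CommShift ℤ),
      e.functor.IsTriangulated ∧ e.functor.Linear k := by
  have : P.ContainsZero := ⟨0, isZero_zero A, hP0⟩
  have := hasBinaryBiproducts_full P hPb
  have h₁ : P.ι.essImage = P := by
    ext X
    constructor
    · rintro ⟨Y, ⟨e⟩⟩
      exact P.prop_of_iso e Y.property
    · intro hX
      exact ⟨⟨X, hX⟩, ⟨Iso.refl _⟩⟩
  have : P.ι.essImage.IsClosedUnderQuotients := by
    rw [h₁]
    infer_instance
  have : Ψ.essImage.IsClosedUnderSubobjects := by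
    refine ⟨fun {M N} f _ hN => ?_⟩
    obtain ⟨X, ⟨e⟩⟩ := hN
    exact hsub X M (f ≫ e.inv) inferInstance
  exact exists_equiv_Db P.ι Ψ hex k (fun X => by
    obtain ⟨Y, i, hY, hi⟩ := hP X
    exact ⟨⟨Y, hY⟩, i, hi⟩) hgen

end Part5

end Pool.Agent.Lib.MP_55c1e7_ag
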