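/-
MP_55c1e7_ag, box B.  Pointwise criteria in functor categories with values in modules over a
field, and a pointwise criterion for a property of functors to define an abelian subcategory.
-/
import Mathlib

open CategoryTheory CategoryTheory.Limits ZeroObject

namespace MP55c1e7

variable {J : Type} [SmallCategory J] {k : Type} [Field k]

theorem exact_iff_ev (S : ShortComplex (J ⥤ ModuleCat.{0} k)) :
    S.Exact ↔ ∀ j, (S.map ((evaluation J (ModuleCat.{0} k)).obj j)).Exact := by
  rw [ShortComplex.exact_iff_isZero_homology, Functor.isZero_iff]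
  refine forall_congr' fun j => ?_
  rw [ShortComplex.exact_iff_isZero_homology]
  exact (S.mapHomologyIso ((evaluation J (ModuleCat.{0} k)).obj j)).symm.isZero_iff

/-- exactness in a functor category, elementwise -/
theorem exact_iff_pt (S : ShortComplex (J ⥤ ModuleCat.{0} k)) :
    S.Exact ↔ ∀ (j : J) (m : S.X₂.obj j), (S.g.app j).hom m = 0 → ∃ n, (S.f.app j).hom n = m := by
  rw [exact_iff_ev]
  refine forall_congr' fun j => ?_
  rw [ShortComplex.moduleCat_exact_iff]
  rfl

theorem mono_iff_pt {F G : J ⥤ ModuleCat.{0} k} (f : F ⟶ G) :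
    Mono f ↔ ∀ j, Function.Injective (f.app j).hom := by
  rw [NatTrans.mono_iff_mono_app]
  refine forall_congr' fun j => ?_
  exact ModuleCat.mono_iff_injective _

theorem epi_iff_pt {F G : J ⥤ ModuleCat.{0} k} (f : F ⟶ G) :
    Epi f ↔ ∀ j, Function.Surjective (f.app j).hom := by
  rw [NatTrans.epi_iff_epi_app]
  refine forall_congr' fun j => ?_
  exact ModuleCat.epi_iff_surjective _

/-- pointwise closure properties of a property of functors -/
class PtClosed (P : ObjectProperty (J ⥤ ModuleCat.{0} k)) : Prop where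
  zero : ∀ F, (∀ j (m : F.obj j), m = 0) → P F
  ker : ∀ {N F G : J ⥤ ModuleCat.{0} k} (i : N ⟶ F) (f : F ⟶ G), P F → P G →
    (∀ j, Function.Injective (i.app j).hom) → (∀ j m, (f.app j).hom ((i.app j).hom m) = 0) →
    (∀ j m, (f.app j).hom m = 0 → ∃ n, (i.app j).hom n = m) → P N
  coker : ∀ {F G N : J ⥤ ModuleCat.{0} k} (f : F ⟶ G) (p : G ⟶ N), P F → P G →
    (∀ j, Function.Surjective (p.app j).hom) → (∀ j m, (p.app j).hom ((f.app j).hom m) = 0) →
    (∀ j m, (p.app j).hom m = 0 → ∃ n, (f.app j).hom n = m) → P N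
  prod : ∀ {F G N : J ⥤ ModuleCat.{0} k} (a : N ⟶ F) (b : N ⟶ G), P F → P G →
    (∀ j m, (a.app j).hom m = 0 → (b.app j).hom m = 0 → m = 0) →
    (∀ j x y, ∃ m, (a.app j).hom m = x ∧ (b.app j).hom m = y) → P N

namespace PtClosed

variable {P : ObjectProperty (J ⥤ ModuleCat.{0} k)} (h : PtClosed P)

include h

theorem of_iso {F G : J ⥤ ModuleCat.{0} k} (e : F ≅ G) (hG : P G) : P F := by
  refine h.ker e.hom (0 : G ⟶ G) hG hG ?_ ?_ ?_
  · exact (mono_iff_pt e.hom).mp inferInstance
  · intro j m
    rfl
  · intro j m _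
    exact (epi_iff_pt e.hom).mp inferInstance j m

theorem isClosedUnderIsomorphisms : P.IsClosedUnderIsomorphisms where
  of_iso e hX := h.of_iso e.symm hX

theorem prop_kernel {F G : J ⥤ ModuleCat.{0} k} (f : F ⟶ G) (hF : P F) (hG : P G) :
    P (kernel f) := by
  have ex : (ShortComplex.mk (kernel.ι f) f (kernel.condition f)).Exact :=
    ShortComplex.exact_of_f_is_kernel _ (kernelIsKernel f)
  rw [exact_iff_pt] at ex
  refine h.ker (kernel.ι f) f hF hG ((mono_iff_pt _).mp inferInstance) ?_ ex
  intro j m
  have := congrArg (fun t => (t.app j).hom m) (kernel.condition f)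
  exact this

theorem prop_cokernel {F G : J ⥤ ModuleCat.{0} k} (f : F ⟶ G) (hF : P F) (hG : P G) :
    P (cokernel f) := by
  have ex : (ShortComplex.mk f (cokernel.π f) (cokernel.condition f)).Exact :=
    ShortComplex.exact_of_g_is_cokernel _ (cokernelIsCokernel f)
  rw [exact_iff_pt] at ex
  refine h.coker f (cokernel.π f) hF hG ((epi_iff_pt _).mp inferInstance) ?_ ex
  intro j m
  have := congrArg (fun t => (t.app j).hom m) (cokernel.condition f)
  exact this

theorem prop_biprod {F G : J ⥤ ModuleCat.{0} k} (hF : P F) (hG : P G) : P (F ⊞ G) := by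
  refine h.prod (biprod.fst : F ⊞ G ⟶ F) biprod.snd hF hG ?_ ?_
  · intro j m h1 h2
    have := congrArg (fun t => (t.app j).hom m) (biprod.total (X := F) (Y := G))
    change ((biprod.inl : F ⟶ F ⊞ G).app j).hom (((biprod.fst : F ⊞ G ⟶ F).app j).hom m) +
      ((biprod.inr : G ⟶ F ⊞ G).app j).hom (((biprod.snd : F ⊞ G ⟶ G).app j).hom m) = m at this
    rw [h1, h2, map_zero, map_zero, add_zero] at this
    exact this.symm
  · intro j x y
    refine ⟨((biprod.inl : F ⟶ F ⊞ G).app j).hom x + ((biprod.inr : G ⟶ F ⊞ G).app j).hom y,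
      ?_, ?_⟩
    · have h1 := congrArg (fun t => (t.app j).hom x) (biprod.inl_fst (X := F) (Y := G))
      have h2 := congrArg (fun t => (t.app j).hom y) (biprod.inr_fst (X := F) (Y := G))
      change ((biprod.fst : F ⊞ G ⟶ F).app j).hom (((biprod.inl : F ⟶ F ⊞ G).app j).hom x) = x
        at h1
      change ((biprod.fst : F ⊞ G ⟶ F).app j).hom (((biprod.inr : G ⟶ F ⊞ G).app j).hom y) = 0
        at h2
      rw [map_add, h1, h2, add_zero]
    · have h1 := congrArg (fun t => (t.app j).hom x) (biprod.inl_snd (X := F) (Y := G))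
      have h2 := congrArg (fun t => (t.app j).hom y) (biprod.inr_snd (X := F) (Y := G))
      change ((biprod.snd : F ⊞ G ⟶ G).app j).hom (((biprod.inl : F ⟶ F ⊞ G).app j).hom x) = 0
        at h1
      change ((biprod.snd : F ⊞ G ⟶ G).app j).hom (((biprod.inr : G ⟶ F ⊞ G).app j).hom y) = y
        at h2
      rw [map_add, h1, h2, zero_add]

theorem containsZero : P.ContainsZero := by
  refine ⟨0, isZero_zero _, h.zero _ ?_⟩
  intro j m
  have hz : IsZero ((0 : J ⥤ ModuleCat.{0} k).obj j) :=
    (Functor.isZero_iff _).mp (isZero_zero _) j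
  have := ModuleCat.subsingleton_of_isZero hz
  exact Subsingleton.elim _ _

theorem isClosedUnderKernels : P.IsClosedUnderKernels where
  kernels_le := by
    intro _ ⟨f, c, hc, hf⟩
    exact h.of_iso (hc.conePointUniqueUpToIso (kernelIsKernel f)) (h.prop_kernel f hf.1 hf.2)

theorem isClosedUnderCokernels : P.IsClosedUnderCokernels where
  cokernels_le := by
    intro _ ⟨f, c, hc, hf⟩
    exact h.of_iso (hc.coconePointUniqueUpToIso (cokernelIsCokernel f))
      (h.prop_cokernel f hf.1 hf.2)

theorem isClosedUnderFiniteProducts : P.IsClosedUnderFiniteProducts := by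
  have := h.isClosedUnderIsomorphisms
  have := h.containsZero
  have : P.IsClosedUnderBinaryProducts := by
    refine ⟨?_⟩
    rintro X ⟨p⟩
    refine h.of_iso ?_ (h.prop_biprod (p.prop_diag_obj (.mk .left)) (p.prop_diag_obj (.mk .right)))
    exact (IsLimit.conePointUniqueUpToIso
      ((IsLimit.postcomposeHomEquiv (diagramIsoPair p.diag) _).2 p.isLimit)
      (BinaryBiproduct.isLimit _ _))
  exact .mk'

end PtClosed

section Full

variable (P : ObjectProperty (J ⥤ ModuleCat.{0} k)) [h : PtClosed P]

instance instContainsZero : P.ContainsZero := h.containsZero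
instance instIso : P.IsClosedUnderIsomorphisms := h.isClosedUnderIsomorphisms
instance instKer : P.IsClosedUnderKernels := h.isClosedUnderKernels
instance instCoker : P.IsClosedUnderCokernels := h.isClosedUnderCokernels
instance instProd : P.IsClosedUnderFiniteProducts := h.isClosedUnderFiniteProducts

noncomputable example : Abelian P.FullSubcategory := inferInstance

instance preservesFiniteLimits_ι : PreservesFiniteLimits P.ι := by
  have : ∀ {X Y : P.FullSubcategory} (f : X ⟶ Y), PreservesLimit (parallelPair f 0) P.ι :=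
    fun f => P.preservesKernels_ι f
  exact Functor.preservesFiniteLimits_of_preservesKernels P.ι

instance preservesFiniteColimits_ι : PreservesFiniteColimits P.ι := by
  have : ∀ {X Y : P.FullSubcategory} (f : X ⟶ Y), PreservesColimit (parallelPair f 0) P.ι :=
    fun f => P.preservesCokernels_ι f
  exact Functor.preservesFiniteColimits_of_preservesCokernels P.ι

theorem shortExact_full_iff (S : ShortComplex P.FullSubcategory) :
    S.ShortExact ↔ (S.map P.ι).ShortExact := by
  constructor
  · intro hS
    exact hS.map_of_exact P.ι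
  · intro hS
    refine { exact := ?_, mono_f := ?_, epi_g := ?_ }
    · exact (S.exact_map_iff_of_faithful P.ι).mp hS.exact
    · have := hS.mono_f
      exact P.ι.mono_of_mono_map this
    · have := hS.epi_g
      exact P.ι.epi_of_epi_map this

theorem shortExact_iff_pt (S : ShortComplex P.FullSubcategory) :
    S.ShortExact ↔ (∀ j, Function.Injective (S.f.hom.app j).hom) ∧
      (∀ (j : J) (m : S.X₂.obj.obj j), (S.g.hom.app j).hom m = 0 →
        ∃ n, (S.f.hom.app j).hom n = m) ∧
      (∀ j, Function.Surjective (S.g.hom.app j).hom) := by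
  rw [shortExact_full_iff]
  constructor
  · intro hS
    exact ⟨(mono_iff_pt _).mp hS.mono_f, (exact_iff_pt _).mp hS.exact, (epi_iff_pt _).mp hS.epi_g⟩
  · rintro ⟨h1, h2, h3⟩
    exact { exact := (exact_iff_pt _).mpr h2, mono_f := (mono_iff_pt _).mpr h1,
            epi_g := (epi_iff_pt _).mpr h3 }

theorem mono_full_iff_pt {F G : P.FullSubcategory} (f : F ⟶ G) :
    Mono f ↔ ∀ j, Function.Injective (f.hom.app j).hom := by
  rw [← mono_iff_pt]
  exact ⟨fun _ => inferInstanceAs (Mono (P.ι.map f)), fun h => P.ι.mono_of_mono_map h⟩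

theorem epi_full_iff_pt {F G : P.FullSubcategory} (f : F ⟶ G) :
    Epi f ↔ ∀ j, Function.Surjective (f.hom.app j).hom := by
  rw [← epi_iff_pt]
  exact ⟨fun _ => inferInstanceAs (Epi (P.ι.map f)), fun h => P.ι.epi_of_epi_map h⟩

theorem isZero_full_iff_pt (F : P.FullSubcategory) :
    IsZero F ↔ ∀ j (m : F.obj.obj j), m = 0 := by
  constructor
  · intro hF j m
    have h0 : 𝟙 F = 0 := hF.eq_of_src _ _
    have := congrArg (fun t => (t.hom.app j).hom m) h0
    exact this
  · intro hF
    rw [IsZero.iff_id_eq_zero]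
    ext j m
    exact (hF j _).trans (hF j _).symm

end Full

end MP55c1e7
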