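import Pool.Agent.Lib.MP_55c1e7_ag.Defs

/-!
# Categories with homs inside a field, and their coherent representations

`LocData k K Ob`: a set of objects, for any two of them a `k`-subspace `H a b` of the field `K`,
closed under composition (= multiplication in `K`), and a relation `rel` (the localization arrows).
`CohRep P` : the `k`-linear functors `Cat P ⥤ ModuleCat k` which are finitely generated at every
object and localize along `rel`. It is an abelian `k`-linear category.
-/

open CategoryTheory CategoryTheory.Limits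

namespace BadRed

/-- Categories with objects `Ob` and homs subspaces of `K`. -/
@[ext]
structure LocData (k K : Type) [Field k] [Field K] [Algebra k K] (Ob : Type) where
  /-- the hom spaces -/
  H : Ob → Ob → Submodule k K
  /-- the endomorphism rings -/
  R : Ob → Subalgebra k K
  toSubmodule_R : ∀ a, Subalgebra.toSubmodule (R a) = H a a
  mul_mem : ∀ {a b c : Ob} {f g : K}, f ∈ H a b → g ∈ H b c → f * g ∈ H a c
  /-- the localization arrows -/
  rel : Ob → Ob → Prop
  rel_one : ∀ {a b : Ob}, rel a b → (1 : K) ∈ H a b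
  R_le : ∀ {a b : Ob}, rel a b → R a ≤ R b
  noeth : ∀ a, IsNoetherianRing (R a)

variable {k K : Type} [Field k] [Field K] [Algebra k K] {Ob : Type}

/-- The category attached to `P`. -/
structure Cat (P : LocData k K Ob) where
  /-- the underlying object -/
  of : Ob

namespace LocData

variable {P : LocData k K Ob}

lemma mem_R {a : Ob} {f : K} : f ∈ P.H a a ↔ f ∈ P.R a := by
  rw [← P.toSubmodule_R a]; rfl

lemma one_mem (a : Ob) : (1 : K) ∈ P.H a a := mem_R.mpr (P.R a).one_mem

instance : CategoryStruct (Cat P) where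
  Hom a b := P.H a.of b.of
  id a := ⟨1, one_mem a.of⟩
  comp f g := ⟨f.1 * g.1, P.mul_mem f.2 g.2⟩

/-- The element of `K` underlying a morphism. -/
def val {a b : Cat P} (f : a ⟶ b) : K := (show P.H a.of b.of from f).1

lemma val_mem {a b : Cat P} (f : a ⟶ b) : val f ∈ P.H a.of b.of :=
  (show P.H a.of b.of from f).2

@[ext] lemma hom_ext {a b : Cat P} {f g : a ⟶ b} (h : val f = val g) : f = g := Subtype.ext h

@[simp] lemma val_id (a : Cat P) : val (𝟙 a) = 1 := rfl
@[simp] lemma val_comp {a b c : Cat P} (f : a ⟶ b) (g : b ⟶ c) :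
    val (f ≫ g) = val f * val g := rfl

/-- Make a morphism. -/
def homMk {a b : Ob} (f : K) (h : f ∈ P.H a b) : (⟨a⟩ : Cat P) ⟶ ⟨b⟩ := ⟨f, h⟩

@[simp] lemma val_homMk {a b : Ob} (f : K) (h : f ∈ P.H a b) : val (homMk f h) = f := rfl

@[simp] lemma homMk_val {a b : Cat P} (f : a ⟶ b) : homMk (val f) (val_mem f) = f := rfl

instance : Category (Cat P) where
  id_comp f := by ext; simp
  comp_id f := by ext; simp
  assoc f g h := by ext; simp [mul_assoc]

instance : Preadditive (Cat P) where
  homGroup a b := inferInstanceAs (AddCommGroup (P.H a.of b.of))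
  add_comp := by
    intro a b c f f' g
    apply Subtype.ext
    exact add_mul _ _ _
  comp_add := by
    intro a b c f g g'
    apply Subtype.ext
    exact mul_add _ _ _

instance : Linear k (Cat P) where
  homModule a b := inferInstanceAs (Module k (P.H a.of b.of))
  smul_comp := by
    intro a b c r f g
    apply Subtype.ext
    exact smul_mul_assoc _ _ _
  comp_smul := by
    intro a b c f r g
    apply Subtype.ext
    exact mul_smul_comm _ _ _

@[simp] lemma val_add {a b : Cat P} (f g : a ⟶ b) : val (f + g) = val f + val g := rfl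
@[simp] lemma val_smul {a b : Cat P} (r : k) (f : a ⟶ b) : val (r • f) = r • val f := rfl
@[simp] lemma val_zero {a b : Cat P} : val (0 : a ⟶ b) = 0 := rfl
@[simp] lemma val_neg {a b : Cat P} (f : a ⟶ b) : val (-f) = - val f := rfl

/-- The action of an element of `H a b` on a functor. -/
def act (F : Cat P ⥤ ModuleCat.{0} k) {a b : Ob} (f : K) (h : f ∈ P.H a b) :
    F.obj ⟨a⟩ →ₗ[k] F.obj ⟨b⟩ := (F.map (homMk f h)).hom

lemma act_mul (F : Cat P ⥤ ModuleCat.{0} k) {a b c : Ob} {f g : K} (hf : f ∈ P.H a b)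
    (hg : g ∈ P.H b c) (m : F.obj ⟨a⟩) : act F g hg (act F f hf m) =
      act F (f * g) (P.mul_mem hf hg) m := by
  unfold act
  rw [show homMk (f * g) (P.mul_mem hf hg) = homMk f hf ≫ homMk g hg from rfl, F.map_comp]
  rfl

lemma act_one (F : Cat P ⥤ ModuleCat.{0} k) {a : Ob} (h : (1 : K) ∈ P.H a a) (m : F.obj ⟨a⟩) :
    act F 1 h m = m := by
  unfold act
  rw [show homMk (1 : K) h = 𝟙 (⟨a⟩ : Cat P) from rfl, F.map_id]
  rfl

lemma act_congr (F : Cat P ⥤ ModuleCat.{0} k) {a b : Ob} {f g : K} (hf : f ∈ P.H a b)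
    (e : f = g) (m : F.obj ⟨a⟩) : act F f hf m = act F g (e ▸ hf) m := by
  subst e; rfl

/-- naturality -/
lemma act_naturality {F G : Cat P ⥤ ModuleCat.{0} k} (φ : F ⟶ G) {a b : Ob} {f : K}
    (hf : f ∈ P.H a b) (m : F.obj ⟨a⟩) :
    (φ.app ⟨b⟩).hom (act F f hf m) = act G f hf ((φ.app ⟨a⟩).hom m) := by
  unfold act
  exact congrArg (fun t => t.hom m) (φ.naturality (homMk f hf))

/-- Coherent representations. -/
structure IsCohRep (F : Cat P ⥤ ModuleCat.{0} k) : Prop where
  map_add : ∀ {a b : Cat P} (f g : a ⟶ b), F.map (f + g) = F.map f + F.map g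
  map_smul : ∀ {a b : Cat P} (r : k) (f : a ⟶ b), F.map (r • f) = r • F.map f
  /-- finitely generated -/
  fin : ∀ a : Ob, ∃ (n : ℕ) (e : Fin n → F.obj ⟨a⟩), ∀ m : F.obj ⟨a⟩,
    ∃ c : Fin n → P.R a, m = ∑ i, act F (c i).1 (mem_R.mpr (c i).2) (e i)
  /-- localization, surjectivity -/
  loc_surj : ∀ {a b : Ob} (r : P.rel a b) (m : F.obj ⟨b⟩),
    ∃ (h : K) (hb : h ∈ P.R b) (n : F.obj ⟨a⟩), h ∈ P.R a ∧ h ≠ 0 ∧ h⁻¹ ∈ P.R b ∧
      act F h (mem_R.mpr hb) m = act F 1 (P.rel_one r) n
  /-- localization, injectivity -/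
  loc_inj : ∀ {a b : Ob} (r : P.rel a b) (n : F.obj ⟨a⟩), act F 1 (P.rel_one r) n = 0 →
    ∃ (h : K) (ha : h ∈ P.R a), h ≠ 0 ∧ h⁻¹ ∈ P.R b ∧ act F h (mem_R.mpr ha) n = 0

/-- Coherent representations as an object property. -/
def isCohRep (P : LocData k K Ob) : ObjectProperty (Cat P ⥤ ModuleCat.{0} k) := fun F => IsCohRep F

end LocData

/-- The category of coherent representations. -/
abbrev CohRep (P : LocData k K Ob) : Type 1 := P.isCohRep.FullSubcategory

end BadRed
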