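import Pool.Agent.Lib.MP_55c1e7_ag.Rep
import Pool.Agent.Lib.MP_55c1e7_ag.Pt

/-!
# BOX R: `isCohRep P` is closed under kernels, cokernels and finite products
-/

open CategoryTheory CategoryTheory.Limits

namespace BadRed

namespace LocData

variable {k K : Type} [Field k] [Field K] [Algebra k K] {Ob : Type} {P : LocData k K Ob}

/-- linearity of a representation -/
structure IsLinRep (F : Cat P ⥤ ModuleCat.{0} k) : Prop where
  madd : ∀ {a b : Cat P} (f g : a ⟶ b), F.map (f + g) = F.map f + F.map g
  msmul : ∀ {a b : Cat P} (r : k) (f : a ⟶ b), F.map (r • f) = r • F.map f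

lemma IsCohRep.lin {F : Cat P ⥤ ModuleCat.{0} k} (h : IsCohRep F) : IsLinRep F :=
  ⟨h.map_add, h.map_smul⟩

namespace IsLinRep

variable {F : Cat P ⥤ ModuleCat.{0} k} (hF : IsLinRep F)

include hF

lemma act_add {a b : Ob} {f g : K} (hf : f ∈ P.H a b) (hg : g ∈ P.H a b) (m : F.obj ⟨a⟩) :
    act F (f + g) (add_mem hf hg) m = act F f hf m + act F g hg m := by
  have := congrArg (fun t => t.hom m) (hF.madd (homMk f hf) (homMk g hg))
  exact this

lemma act_smul {a b : Ob} (r : k) {f : K} (hf : f ∈ P.H a b) (m : F.obj ⟨a⟩) :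
    act F (r • f) (Submodule.smul_mem _ r hf) m = r • act F f hf m := by
  have := congrArg (fun t => t.hom m) (hF.msmul r (homMk f hf))
  exact this

lemma act_zero {a b : Ob} (h : (0 : K) ∈ P.H a b) (m : F.obj ⟨a⟩) : act F 0 h m = 0 := by
  have h1 := hF.act_smul (0 : k) h m
  rw [zero_smul k (act F 0 h m)] at h1
  rw [← h1]
  exact act_congr F h (zero_smul k (0 : K)).symm m

/-- the values are modules over the rings -/
@[instance_reducible]
def modAt (a : Ob) : Module (P.R a) (F.obj ⟨a⟩) where
  smul c m := act F c.1 (mem_R.mpr c.2) m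
  one_smul m := act_one F _ m
  mul_smul c d m := by
    change act F (c.1 * d.1) _ m = act F c.1 _ (act F d.1 _ m)
    rw [act_mul]
    exact act_congr F _ (mul_comm _ _) m
  smul_zero c := map_zero _
  smul_add c m n := map_add _ _ _
  add_smul c d m := hF.act_add _ _ m
  zero_smul m := hF.act_zero _ m

lemma smul_def' (a : Ob) (c : P.R a) (m : F.obj ⟨a⟩) :
    let _ := hF.modAt a
    c • m = act F c.1 (mem_R.mpr c.2) m := rfl

lemma fin_iff (a : Ob) : (∃ (n : ℕ) (e : Fin n → F.obj ⟨a⟩), ∀ m : F.obj ⟨a⟩,
    ∃ c : Fin n → P.R a, m = ∑ i, act F (c i).1 (mem_R.mpr (c i).2) (e i)) ↔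
    let _ := hF.modAt a
    Module.Finite (P.R a) (F.obj ⟨a⟩) := by
  let _ := hF.modAt a
  constructor
  · rintro ⟨n, e, h⟩
    refine ⟨⟨(Set.finite_range e).toFinset, ?_⟩⟩
    rw [eq_top_iff, Set.Finite.coe_toFinset]
    intro m _
    obtain ⟨c, rfl⟩ := h m
    refine Submodule.sum_mem _ fun i _ => ?_
    exact Submodule.smul_mem _ (c i) (Submodule.subset_span ⟨i, rfl⟩)
  · intro hfin
    obtain ⟨n, e, he⟩ := Module.Finite.exists_fin (R := P.R a) (M := F.obj ⟨a⟩)
    refine ⟨n, e, fun m => ?_⟩
    have hm : m ∈ Submodule.span (P.R a) (Set.range e) := by rw [he]; trivial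
    rw [Submodule.mem_span_range_iff_exists_fun] at hm
    obtain ⟨c, hc⟩ := hm
    exact ⟨c, hc.symm⟩

end IsLinRep

/-- a natural transformation is linear over the rings -/
@[reducible]
def linAt {F G : Cat P ⥤ ModuleCat.{0} k} (hF : IsLinRep F) (hG : IsLinRep G) (φ : F ⟶ G)
    (a : Ob) : let _ := hF.modAt a; let _ := hG.modAt a
      F.obj ⟨a⟩ →ₗ[P.R a] G.obj ⟨a⟩ :=
  let _ := hF.modAt a
  let _ := hG.modAt a
  { toFun := (φ.app ⟨a⟩).hom
    map_add' := map_add _
    map_smul' := fun c m => act_naturality φ (mem_R.mpr c.2) m }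

lemma act_mul' (F : Cat P ⥤ ModuleCat.{0} k) {a b c : Ob} {f g h : K} (hf : f ∈ P.H a b)
    (hg : g ∈ P.H b c) (hh : h ∈ P.H a c) (e : f * g = h) (m : F.obj ⟨a⟩) :
    act F g hg (act F f hf m) = act F h hh m := by
  subst e
  exact act_mul F hf hg m

/-- elements of the rings commute with the localization maps -/
lemma act_comm' (F : Cat P ⥤ ModuleCat.{0} k) {a b : Ob} (h1 : (1 : K) ∈ P.H a b) {h : K}
    (ha : h ∈ P.H a a) (hb : h ∈ P.H b b) (m : F.obj ⟨a⟩) :
    act F h hb (act F 1 h1 m) = act F 1 h1 (act F h ha m) := by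
  rw [act_mul, act_mul]
  exact act_congr F _ (mul_comm _ _) m

theorem lin_of_inj {N F : Cat P ⥤ ModuleCat.{0} k} (i : N ⟶ F) (hF : IsLinRep F)
    (hi : ∀ j, Function.Injective (i.app j).hom) : IsLinRep N where
  madd := by
    intro a b f g
    ext m
    apply hi
    have h1 := congrArg (fun t => t.hom m) (i.naturality (f + g))
    have h2 := congrArg (fun t => t.hom m) (i.naturality f)
    have h3 := congrArg (fun t => t.hom m) (i.naturality g)
    change (i.app b).hom ((N.map (f + g)).hom m) = (F.map (f + g)).hom ((i.app a).hom m) at h1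
    change (i.app b).hom ((N.map f).hom m) = (F.map f).hom ((i.app a).hom m) at h2
    change (i.app b).hom ((N.map g).hom m) = (F.map g).hom ((i.app a).hom m) at h3
    rw [h1, hF.madd]
    change _ = (i.app b).hom ((N.map f).hom m + (N.map g).hom m)
    rw [map_add, h2, h3]
    rfl
  msmul := by
    intro a b r f
    ext m
    apply hi
    have h1 := congrArg (fun t => t.hom m) (i.naturality (r • f))
    have h2 := congrArg (fun t => t.hom m) (i.naturality f)
    change (i.app b).hom ((N.map (r • f)).hom m) = (F.map (r • f)).hom ((i.app a).hom m) at h1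
    change (i.app b).hom ((N.map f).hom m) = (F.map f).hom ((i.app a).hom m) at h2
    rw [h1, hF.msmul]
    change _ = (i.app b).hom (r • (N.map f).hom m)
    rw [map_smul, h2]
    rfl

theorem lin_of_surj {F N : Cat P ⥤ ModuleCat.{0} k} (p : F ⟶ N) (hF : IsLinRep F)
    (hp : ∀ j, Function.Surjective (p.app j).hom) : IsLinRep N where
  madd := by
    intro a b f g
    ext m'
    obtain ⟨m, rfl⟩ := hp a m'
    have h1 := congrArg (fun t => t.hom m) (p.naturality (f + g))
    have h2 := congrArg (fun t => t.hom m) (p.naturality f)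
    have h3 := congrArg (fun t => t.hom m) (p.naturality g)
    change (p.app b).hom ((F.map (f + g)).hom m) = (N.map (f + g)).hom ((p.app a).hom m) at h1
    change (p.app b).hom ((F.map f).hom m) = (N.map f).hom ((p.app a).hom m) at h2
    change (p.app b).hom ((F.map g).hom m) = (N.map g).hom ((p.app a).hom m) at h3
    rw [← h1, hF.madd]
    change _ = (N.map f).hom ((p.app a).hom m) + (N.map g).hom ((p.app a).hom m)
    rw [← h2, ← h3, ← map_add]
    rfl
  msmul := by
    intro a b r f
    ext m'
    obtain ⟨m, rfl⟩ := hp a m'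
    have h1 := congrArg (fun t => t.hom m) (p.naturality (r • f))
    have h2 := congrArg (fun t => t.hom m) (p.naturality f)
    change (p.app b).hom ((F.map (r • f)).hom m) = (N.map (r • f)).hom ((p.app a).hom m) at h1
    change (p.app b).hom ((F.map f).hom m) = (N.map f).hom ((p.app a).hom m) at h2
    rw [← h1, hF.msmul]
    change _ = r • (N.map f).hom ((p.app a).hom m)
    rw [← h2, ← map_smul]
    rfl

theorem lin_of_joint {N F G : Cat P ⥤ ModuleCat.{0} k} (i : N ⟶ F) (i' : N ⟶ G) (hF : IsLinRep F)
    (hG : IsLinRep G)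
    (hi : ∀ j m, (i.app j).hom m = 0 → (i'.app j).hom m = 0 → m = 0) : IsLinRep N where
  madd := by
    intro a b f g
    ext m
    rw [← sub_eq_zero]
    apply hi
    · have h1 := congrArg (fun t => t.hom m) (i.naturality (f + g))
      have h2 := congrArg (fun t => t.hom m) (i.naturality f)
      have h3 := congrArg (fun t => t.hom m) (i.naturality g)
      change (i.app b).hom ((N.map (f + g)).hom m) = (F.map (f + g)).hom ((i.app a).hom m) at h1
      change (i.app b).hom ((N.map f).hom m) = (F.map f).hom ((i.app a).hom m) at h2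
      change (i.app b).hom ((N.map g).hom m) = (F.map g).hom ((i.app a).hom m) at h3
      rw [map_sub, h1, hF.madd, sub_eq_zero]
      change _ = (i.app b).hom ((N.map f).hom m + (N.map g).hom m)
      rw [map_add, h2, h3]
      rfl
    · have h1 := congrArg (fun t => t.hom m) (i'.naturality (f + g))
      have h2 := congrArg (fun t => t.hom m) (i'.naturality f)
      have h3 := congrArg (fun t => t.hom m) (i'.naturality g)
      change (i'.app b).hom ((N.map (f + g)).hom m) = (G.map (f + g)).hom ((i'.app a).hom m) at h1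
      change (i'.app b).hom ((N.map f).hom m) = (G.map f).hom ((i'.app a).hom m) at h2
      change (i'.app b).hom ((N.map g).hom m) = (G.map g).hom ((i'.app a).hom m) at h3
      rw [map_sub, h1, hG.madd, sub_eq_zero]
      change _ = (i'.app b).hom ((N.map f).hom m + (N.map g).hom m)
      rw [map_add, h2, h3]
      rfl
  msmul := by
    intro a b r f
    ext m
    rw [← sub_eq_zero]
    apply hi
    · have h1 := congrArg (fun t => t.hom m) (i.naturality (r • f))
      have h2 := congrArg (fun t => t.hom m) (i.naturality f)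
      change (i.app b).hom ((N.map (r • f)).hom m) = (F.map (r • f)).hom ((i.app a).hom m) at h1
      change (i.app b).hom ((N.map f).hom m) = (F.map f).hom ((i.app a).hom m) at h2
      rw [map_sub, h1, hF.msmul, sub_eq_zero]
      change _ = (i.app b).hom (r • (N.map f).hom m)
      rw [map_smul, h2]
      rfl
    · have h1 := congrArg (fun t => t.hom m) (i'.naturality (r • f))
      have h2 := congrArg (fun t => t.hom m) (i'.naturality f)
      change (i'.app b).hom ((N.map (r • f)).hom m) = (G.map (r • f)).hom ((i'.app a).hom m) at h1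
      change (i'.app b).hom ((N.map f).hom m) = (G.map f).hom ((i'.app a).hom m) at h2
      rw [map_sub, h1, hG.msmul, sub_eq_zero]
      change _ = (i'.app b).hom (r • (N.map f).hom m)
      rw [map_smul, h2]
      rfl

open MP55c1e7 in
instance ptClosed : PtClosed P.isCohRep where
  zero F hF := by
    refine ⟨?_, ?_, ?_, ?_, ?_⟩
    · intro a b f g
      ext m
      exact (hF _ _).trans (hF _ _).symm
    · intro a b r f
      ext m
      exact (hF _ _).trans (hF _ _).symm
    · intro a
      refine ⟨0, Fin.elim0, fun m => ⟨Fin.elim0, ?_⟩⟩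
      exact (hF _ _).trans (hF _ _).symm
    · intro a b r m
      exact ⟨1, (P.R b).one_mem, 0, (P.R a).one_mem, one_ne_zero, by simp, (hF _ _).trans (hF _ _).symm⟩
    · intro a b r m _
      exact ⟨1, (P.R a).one_mem, one_ne_zero, by simp, hF _ _⟩
  ker := by
    intro N F G i f hF hG hi hif hex
    have hN : IsLinRep N := lin_of_inj i hF.lin hi
    refine ⟨hN.madd, hN.msmul, ?_, ?_, ?_⟩
    · intro a
      rw [hN.fin_iff]
      let _ := hN.modAt a
      let _ := hF.lin.modAt a
      have h1 : Module.Finite (P.R a) (F.obj ⟨a⟩) := (hF.lin.fin_iff a).mp (hF.fin a)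
      have h2 : IsNoetherianRing (P.R a) := P.noeth a
      exact Module.Finite.of_injective (linAt hN hF.lin i a) (hi ⟨a⟩)
    · intro a b r m
      obtain ⟨h, hb, n, ha, h0, hinv, e⟩ := hF.loc_surj r ((i.app ⟨b⟩).hom m)
      have e1 : act G 1 (P.rel_one r) ((f.app ⟨a⟩).hom n) = 0 := by
        rw [← act_naturality, ← e, act_naturality, hif, map_zero]
      obtain ⟨h', ha', h0', hinv', e2⟩ := hG.loc_inj r _ e1
      rw [← act_naturality] at e2
      obtain ⟨n', hn'⟩ := hex ⟨a⟩ _ e2
      have hb' : h' ∈ P.R b := P.R_le r ha'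
      refine ⟨h * h', (P.R b).mul_mem hb hb', n', (P.R a).mul_mem ha ha', mul_ne_zero h0 h0', ?_, ?_⟩
      · rw [mul_inv]
        exact (P.R b).mul_mem hinv hinv'
      · apply hi
        rw [act_naturality, act_naturality, hn',
          ← act_mul' F (mem_R.mpr hb) (mem_R.mpr hb') _ rfl, e]
        exact act_comm' F (P.rel_one r) _ _ n
    · intro a b r n hn
      obtain ⟨h, ha, h0, hinv, e⟩ := hF.loc_inj r ((i.app ⟨a⟩).hom n) (by
        rw [← act_naturality, hn, map_zero])
      refine ⟨h, ha, h0, hinv, ?_⟩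
      apply hi
      rw [act_naturality, e, map_zero]
  coker := by
    intro F G N f p hF hG hp hfp hex
    have hN : IsLinRep N := lin_of_surj p hG.lin hp
    refine ⟨hN.madd, hN.msmul, ?_, ?_, ?_⟩
    · intro a
      rw [hN.fin_iff]
      let _ := hN.modAt a
      let _ := hG.lin.modAt a
      have h1 : Module.Finite (P.R a) (G.obj ⟨a⟩) := (hG.lin.fin_iff a).mp (hG.fin a)
      exact Module.Finite.of_surjective (linAt hG.lin hN p a) (hp ⟨a⟩)
    · intro a b r m'
      obtain ⟨m, rfl⟩ := hp ⟨b⟩ m'
      obtain ⟨h, hb, n, ha, h0, hinv, e⟩ := hG.loc_surj r m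
      refine ⟨h, hb, (p.app ⟨a⟩).hom n, ha, h0, hinv, ?_⟩
      rw [← act_naturality, ← act_naturality, e]
    · intro a b r n' hn
      obtain ⟨n, rfl⟩ := hp ⟨a⟩ n'
      rw [← act_naturality] at hn
      obtain ⟨m, hm⟩ := hex ⟨b⟩ _ hn
      obtain ⟨h, hb, n₂, ha, h0, hinv, e⟩ := hF.loc_surj r m
      have e1 : act G 1 (P.rel_one r) (act G h (mem_R.mpr ha) n - (f.app ⟨a⟩).hom n₂) = 0 := by
        rw [map_sub, ← act_naturality, ← e, act_naturality, hm, act_mul, act_mul, sub_eq_zero]
        exact act_congr G _ (mul_comm _ _) n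
      obtain ⟨h', ha', h0', hinv', e2⟩ := hG.loc_inj r _ e1
      refine ⟨h' * h, (P.R a).mul_mem ha' ha, mul_ne_zero h0' h0, ?_, ?_⟩
      · rw [mul_inv]
        exact (P.R b).mul_mem hinv' hinv
      · rw [← act_naturality]
        have e3 : act G (h' * h) (mem_R.mpr ((P.R a).mul_mem ha' ha)) n =
            (f.app ⟨a⟩).hom (act F h' (mem_R.mpr ha') n₂) := by
          rw [map_sub, act_mul, sub_eq_zero] at e2
          rw [act_naturality, ← e2]
          exact act_congr G _ (mul_comm _ _) n
        rw [e3, hfp]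
  prod := by
    intro F G N p q hF hG hinj hsurj
    have hN : IsLinRep N := lin_of_joint p q hF.lin hG.lin hinj
    refine ⟨hN.madd, hN.msmul, ?_, ?_, ?_⟩
    · intro a
      rw [hN.fin_iff]
      let _ := hN.modAt a
      let _ := hF.lin.modAt a
      let _ := hG.lin.modAt a
      have h1 : Module.Finite (P.R a) (F.obj ⟨a⟩) := (hF.lin.fin_iff a).mp (hF.fin a)
      have h1 : Module.Finite (P.R a) (G.obj ⟨a⟩) := (hG.lin.fin_iff a).mp (hG.fin a)
      have h2 : IsNoetherianRing (P.R a) := P.noeth a
      refine Module.Finite.of_injective ((linAt hN hF.lin p a).prod (linAt hN hG.lin q a)) ?_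
      rw [← LinearMap.ker_eq_bot, LinearMap.ker_eq_bot']
      intro m hm
      exact hinj ⟨a⟩ m (congrArg Prod.fst hm) (congrArg Prod.snd hm)
    · intro a b r m
      obtain ⟨h, hb, n, ha, h0, hinv, e⟩ := hF.loc_surj r ((p.app ⟨b⟩).hom m)
      obtain ⟨h', hb', n', ha', h0', hinv', e'⟩ := hG.loc_surj r ((q.app ⟨b⟩).hom m)
      obtain ⟨z, hz, hz'⟩ := hsurj ⟨a⟩ (act F h' (mem_R.mpr ha') n) (act G h (mem_R.mpr ha) n')
      refine ⟨h * h', (P.R b).mul_mem hb hb', z, (P.R a).mul_mem ha ha', mul_ne_zero h0 h0', ?_, ?_⟩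
      · rw [mul_inv]
        exact (P.R b).mul_mem hinv hinv'
      · rw [← sub_eq_zero]
        apply hinj
        · rw [map_sub, sub_eq_zero, act_naturality, act_naturality, hz,
            ← act_mul' F (mem_R.mpr hb) (mem_R.mpr hb') _ rfl, e]
          exact act_comm' F (P.rel_one r) _ _ n
        · rw [map_sub, sub_eq_zero, act_naturality, act_naturality, hz',
            ← act_mul' G (mem_R.mpr hb') (mem_R.mpr hb) _ (mul_comm _ _), e']
          exact act_comm' G (P.rel_one r) _ _ n'
    · intro a b r n hn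
      obtain ⟨h, ha, h0, hinv, e⟩ := hF.loc_inj r ((p.app ⟨a⟩).hom n) (by
        rw [← act_naturality, hn, map_zero])
      obtain ⟨h', ha', h0', hinv', e'⟩ := hG.loc_inj r ((q.app ⟨a⟩).hom n) (by
        rw [← act_naturality, hn, map_zero])
      refine ⟨h * h', (P.R a).mul_mem ha ha', mul_ne_zero h0 h0', ?_, ?_⟩
      · rw [mul_inv]
        exact (P.R b).mul_mem hinv hinv'
      · apply hinj
        · rw [act_naturality, ← act_mul' F (mem_R.mpr ha) (mem_R.mpr ha') _ rfl, e, map_zero]
        · rw [act_naturality, ← act_mul' G (mem_R.mpr ha') (mem_R.mpr ha) _ (mul_comm _ _), e', map_zero]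

end LocData

/-! ### the instances -/

section inst

variable {k K : Type} [Field k] [Field K] [Algebra k K] {Ob : Type}

instance (P : LocData k K Ob) : P.isCohRep.ContainsZero :=
  (LocData.ptClosed (P := P)).containsZero
instance (P : LocData k K Ob) : P.isCohRep.IsClosedUnderIsomorphisms :=
  (LocData.ptClosed (P := P)).isClosedUnderIsomorphisms
instance (P : LocData k K Ob) : P.isCohRep.IsClosedUnderKernels :=
  (LocData.ptClosed (P := P)).isClosedUnderKernels
instance (P : LocData k K Ob) : P.isCohRep.IsClosedUnderCokernels :=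
  (LocData.ptClosed (P := P)).isClosedUnderCokernels
instance (P : LocData k K Ob) : P.isCohRep.IsClosedUnderFiniteProducts :=
  (LocData.ptClosed (P := P)).isClosedUnderFiniteProducts

noncomputable example (P : LocData k K Ob) : Abelian (CohRep P) := inferInstance
noncomputable example (P : LocData k K Ob) : Linear k (CohRep P) := inferInstance

end inst

end BadRed
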